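import Pool.Agent.H12.MG.Geo

/-! # The bare scores -/

set_option autoImplicit false
set_option linter.unusedSectionVars false

noncomputable section

namespace Pool.Agent.H12.MG

open MvPolynomial Pool.Agent.H5R2.ON Pool.Agent.H717R2.ON3 Pool.Agent.H983R2.ONJ

section alg

variable {V : Type} [Fintype V] [DecidableEq V] {ι : Type} [Fintype ι] {G : Gr V ι} {β : ℝ}
  {Λ : Finset V}

theorem UU_uf (u f : V → ℝ) (g : Fin 3) : UU G β (fun x y => u x * f y - f x * u y) g =
    Sc G β u (g + 1) * Sc G β f (g + 2) - Sc G β f (g + 1) * Sc G β u (g + 2) := by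
  unfold UU
  rw [Sc_eq_sum, Sc_eq_sum, Sc_eq_sum, Sc_eq_sum, Finset.sum_mul_sum, Finset.sum_mul_sum,
    ← Finset.sum_sub_distrib]
  refine Finset.sum_congr rfl fun x _ => ?_
  rw [← Finset.sum_sub_distrib]
  refine Finset.sum_congr rfl fun y _ => ?_
  simp only [smul_eq_C_mul, map_sub, map_mul]
  ring

theorem UU_uf_sq (W : WFun G β Λ) (hβ : 0 ≤ β) {u f : V → ℝ} (hu : ∀ x, x ∉ Λ → u x = 0)
    (hf : ∀ x, x ∉ Λ → f x = 0) (g : Fin 3) :
    W.E (UU G β (fun x y => u x * f y - f x * u y) g ^ 2) ≤ 12 * ((β * En G u) * (β * En G f)) := by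
  rw [UU_uf]
  set a := Sc G β u (g + 1) * Sc G β f (g + 2) with ha
  set b := Sc G β f (g + 1) * Sc G β u (g + 2) with hb
  have h1 : W.E ((a - b) ^ 2) ≤ W.E ((2 : ℝ) • (a ^ 2 + b ^ 2)) := by
    apply W.mono
    intro σ _
    simp only [map_pow, map_add, map_sub, smul_eval]
    nlinarith [sq_nonneg (eval σ a + eval σ b)]
  rw [map_smul, map_add, smul_eq_mul] at h1
  have h2 := W.Fun4_prod_sq hβ hu hf (g + 1) (g + 2)
  have h3 := W.Fun4_prod_sq hβ hf hu (g + 1) (g + 2)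
  rw [← ha] at h2
  rw [← hb] at h3
  nlinarith

/-- second moment of a smeared current -/
theorem JJ_v_sq (W : WFun G β Λ) (hβ : 0 ≤ β) {u f : V → ℝ} (hu : ∀ x, x ∉ Λ → u x = 0)
    (hf : ∀ x, x ∉ Λ → f x = 0) (g : Fin 3) (v : ι → ℝ)
    (hv : ∀ e, v e = 1 / 2 * (u (G.s e) + u (G.t e)) * (f (G.t e) - f (G.s e))) :
    W.E (JJ G β v g ^ 2) ≤ 12 * ((β * En G u) * (β * En G f)) +
      4 * (β * ∑ e, (u (G.s e) * f (G.t e) - f (G.s e) * u (G.t e)) ^ 2) +
      β * En G (fun x => u x * f x) := by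
  set k : V → V → ℝ := fun x y => u x * f y - f x * u y with hk
  have hanti : Anti k := fun x y => by simp only [hk]; ring
  have hks : ∀ x y, k x y ≠ 0 → x ∈ Λ ∧ y ∈ Λ := by
    intro x y h
    constructor
    · by_contra hx
      apply h
      simp only [hk, hu x hx, hf x hx, zero_mul, sub_zero]
    · by_contra hy
      apply h
      simp only [hk, hu y hy, hf y hy, mul_zero, sub_zero]
  have h1 := W.JJ_le hβ hanti hks g
  have h2 := UU_uf_sq W hβ hu hf g
  have h3 := W.mom2 hβ (b := fun x => u x * f x) (fun x hx => by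
    show u x * f x = 0
    rw [hu x hx, zero_mul]) g
  have h4 : JJ G β v g = (1 / 2 : ℝ) • (JJ G β (fun e => k (G.s e) (G.t e)) g +
      Sc G β (fun x => u x * f x) g) := by
    unfold Sc JJ
    rw [← Finset.sum_add_distrib, Finset.smul_sum]
    refine Finset.sum_congr rfl fun e _ => ?_
    rw [hv, ← add_smul, smul_smul]
    congr 1
    simp only [hk, grad]
    ring
  have h5 : W.E (JJ G β v g ^ 2) ≤ W.E ((1 / 2 : ℝ) • (JJ G β (fun e => k (G.s e) (G.t e)) g ^ 2 +
      Sc G β (fun x => u x * f x) g ^ 2)) := by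
    rw [h4]
    apply W.mono
    intro σ _
    simp only [map_pow, map_add, smul_eval]
    nlinarith [sq_nonneg (eval σ (JJ G β (fun e => k (G.s e) (G.t e)) g) -
      eval σ (Sc G β (fun x => u x * f x) g))]
  rw [map_smul, map_add, smul_eq_mul] at h5
  have h6 : 0 ≤ W.E (Sc G β (fun x => u x * f x) g ^ 2) := W.sq_nonneg _
  have h7 : 0 ≤ W.E (JJ G β (fun e => k (G.s e) (G.t e)) g ^ 2) := W.sq_nonneg _
  nlinarith

theorem nrm_ic (W : WFun G β Λ) (P : Alg V) : nrm W (ic P) = √(W.E (P ^ 2)) := by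
  unfold nrm
  rw [cj_ic, ← RingHom.map_mul, EC_ic, Complex.ofReal_re, pow_two]

variable (G β)

/-- smeared charged current -/
def KK (v : ι → ℂ) : CA V := ∑ e, ((β : ℂ) * v e) • kk G e

variable {G β}

theorem KK_real (v : ι → ℝ) : KK G β (fun e => (v e : ℂ)) =
    ic (JJ G β v 2) - Complex.I • ic (JJ G β v 1) := by
  unfold KK JJ
  rw [map_sum, map_sum, Finset.smul_sum, ← Finset.sum_sub_distrib]
  refine Finset.sum_congr rfl fun e _ => ?_
  rw [ic_smul, ic_smul]
  unfold kk cur zz uu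
  have e1 : (2 : Fin 3) + 1 = 0 := by decide
  have e2 : (2 : Fin 3) + 2 = 1 := by decide
  have e3 : (1 : Fin 3) + 1 = 2 := by decide
  have e4 : (1 : Fin 3) + 2 = 0 := by decide
  rw [e1, e2, e3, e4]
  simp only [map_sub, RingHom.map_mul, ic_X, smul_eq_C_mul, Complex.ofReal_mul]
  ring

theorem nrm_KK_real (W : WFun G β Λ) (v : ι → ℝ) {M : ℝ} (hM : 0 ≤ M)
    (h : ∀ g, W.E (JJ G β v g ^ 2) ≤ M ^ 2) : nrm W (KK G β (fun e => (v e : ℂ))) ≤ 2 * M := by
  rw [KK_real]
  refine (nrm_sub_le W _ _).trans ?_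
  rw [nrm_smul, Complex.norm_I, one_mul, nrm_ic, nrm_ic]
  have h1 : √(W.E (JJ G β v 2 ^ 2)) ≤ M := by
    rw [← Real.sqrt_sq hM]
    exact Real.sqrt_le_sqrt (h 2)
  have h2 : √(W.E (JJ G β v 1 ^ 2)) ≤ M := by
    rw [← Real.sqrt_sq hM]
    exact Real.sqrt_le_sqrt (h 1)
  linarith

theorem KK_add (v v' : ι → ℂ) : KK G β (v + v') = KK G β v + KK G β v' := by
  unfold KK
  rw [← Finset.sum_add_distrib]
  refine Finset.sum_congr rfl fun e _ => ?_
  rw [Pi.add_apply, mul_add, add_smul]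

theorem KK_smul (c : ℂ) (v : ι → ℂ) : KK G β (c • v) = c • KK G β v := by
  unfold KK
  rw [Finset.smul_sum]
  refine Finset.sum_congr rfl fun e _ => ?_
  rw [Pi.smul_apply, smul_smul, smul_eq_mul]
  congr 1
  ring

theorem Sp_KK (b : V → ℂ) : Sp G β b = Complex.I • KK G β (fun e => b (G.t e) - b (G.s e)) := by
  rw [Sp_eq]
  unfold KK
  rw [Finset.smul_sum]
  refine Finset.sum_congr rfl fun e _ => ?_
  rw [smul_smul]
  congr 1
  ring

theorem rot_zz (θ : V → ℂ) (x : V) : rot θ (zz x) = zz x := rot_X0 θ x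

theorem rot_uu (θ : V → ℂ) (x : V) : rot θ (uu x) = Complex.exp (θ x * Complex.I) • uu x := by
  unfold uu
  rw [map_add, map_smul, rot_X1, rot_X2, Complex.exp_mul_I]
  simp only [smul_eq_C_mul, map_add, map_mul]
  have h := C_I_sq (V := V)
  linear_combination (-1) * (C (Complex.sin (θ x)) * X (x, 2)) * h

/-- rotated bare score -/
theorem rot_Sp (θ b : V → ℂ) : rot θ (Sp G β b) = Complex.I •
    (KK G β (fun e => 1 / 2 * (Complex.exp (θ (G.s e) * Complex.I) +
      Complex.exp (θ (G.t e) * Complex.I)) * (b (G.t e) - b (G.s e))) +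
    ∑ e, ((β : ℂ) * (b (G.t e) - b (G.s e)) * (1 / 2 * (Complex.exp (θ (G.t e) * Complex.I) -
      Complex.exp (θ (G.s e) * Complex.I)))) •
        (zz (G.s e) * uu (G.t e) + zz (G.t e) * uu (G.s e))) := by
  rw [Sp_KK, map_smul]
  unfold KK
  rw [map_sum, ← Finset.sum_add_distrib]
  congr 1
  refine Finset.sum_congr rfl fun e _ => ?_
  rw [map_smul]
  unfold kk
  rw [map_sub, map_mul, map_mul, rot_zz, rot_zz, rot_uu, rot_uu, mul_smul_comm, mul_smul_comm]
  set z1 := zz (G.s e) * uu (G.t e)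
  set z2 := zz (G.t e) * uu (G.s e)
  rw [smul_sub, smul_sub, smul_add, smul_smul, smul_smul]
  have h : ∀ (a b c d : ℂ) (P Q : CA V), a = c + d → b = c - d →
      a • P - b • Q = (c • P - c • Q) + (d • P + d • Q) := by
    intro a b c d P Q h1 h2
    rw [h1, h2, add_smul, sub_smul]
    abel
  apply h <;> ring

end alg

end Pool.Agent.H12.MG
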