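import Pool.Agent.H12.MG.Base

/-! # Norms of the bare scores on the torus -/

set_option autoImplicit false
set_option linter.unusedSectionVars false

noncomputable section

namespace Pool.Agent.H12.MG

open MvPolynomial Pool.Agent.H5R2.ON Pool.Agent.H717R2.ON3 Pool.Agent.H983R2.ONJ

variable {L : ℕ} [NeZero L] {ι : Type} [Fintype ι] {G : Gr (Tor L) ι} {β ρ K : ℝ}
  {Λ : Finset (Tor L)}

theorem re_lip {b : Tor L → ℂ} {lam : ℝ} (hb : Lp lam b) (x y : Tor L) :
    |(b x).re - (b y).re| ≤ lam * tnorm (x - y) := by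
  rw [← Complex.sub_re]
  exact (Complex.abs_re_le_norm _).trans (hb x y)

theorem im_lip {b : Tor L → ℂ} {lam : ℝ} (hb : Lp lam b) (x y : Tor L) :
    |(b x).im - (b y).im| ≤ lam * tnorm (x - y) := by
  rw [← Complex.sub_im]
  exact (Complex.abs_im_le_norm _).trans (hb x y)

theorem nrm_Sp_real (W : WFun G β Λ) (hG : Nice G β ρ K) (hρ : 0 ≤ ρ) (hK : 0 ≤ K)
    {b : Tor L → ℝ} {z : Tor L} {r lam : ℝ} (hr : 1 ≤ r) (hρr : ρ ≤ r) (hlam : 0 ≤ lam)
    (hb : ∀ x y, |b x - b y| ≤ lam * tnorm (x - y)) (hs : ∀ x, b x ≠ 0 → tnorm (x - z) ≤ r)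
    (hΛ : bl z r ⊆ Λ) : nrm W (KK G β (fun e => ((b (G.t e) - b (G.s e) : ℝ) : ℂ))) ≤
      6 * √(kE * K) * (lam * r) := by
  have hkE := kE_pos
  have h1 : β * En G b ≤ 9 * (kE * K) * (lam * r) ^ 2 := by
    refine (kE_En G β ρ K hG hρ hK b z r lam (by linarith) hlam hb hs).trans ?_
    calc kE * K * (1 + r + ρ) ^ 2 * lam ^ 2 ≤ kE * K * (3 * r) ^ 2 * lam ^ 2 := by
          have : 1 + r + ρ ≤ 3 * r := by linarith
          gcongr
      _ = 9 * (kE * K) * (lam * r) ^ 2 := by ring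
  have h2 : ∀ g, W.E (JJ G β (fun e => b (G.t e) - b (G.s e)) g ^ 2) ≤
      (3 * √(kE * K) * (lam * r)) ^ 2 := by
    intro g
    have h3 := W.mom2 hG.beta (b := b) (fun x hx => by
      by_contra hc
      exact hx (hΛ (hs x hc))) g
    refine le_trans h3 (h1.trans (le_of_eq ?_))
    have h9 : √(kE * K) ^ 2 = kE * K := Real.sq_sqrt (by positivity)
    linear_combination (-9 * (lam * r) ^ 2) * h9
  have h4 := nrm_KK_real W _ (by positivity) h2
  refine h4.trans (le_of_eq ?_)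
  ring

/-- the bare score -/
theorem nrm_Sp (W : WFun G β Λ) (hG : Nice G β ρ K) (hρ : 0 ≤ ρ) (hK : 0 ≤ K)
    {b : Tor L → ℂ} {z : Tor L} {r lam : ℝ} (hr : 1 ≤ r) (hρr : ρ ≤ r) (hlam : 0 ≤ lam)
    (hb : Lp lam b) (hs : Sp0 (bl z r) b) (hΛ : bl z r ⊆ Λ) :
    nrm W (Sp G β b) ≤ 12 * √(kE * K) * (lam * r) := by
  have hs' : ∀ x, b x ≠ 0 → tnorm (x - z) ≤ r := by
    intro x hx
    by_contra hc
    exact hx (hs x hc)
  have h1 := nrm_Sp_real W hG hρ hK (b := fun x => (b x).re) hr hρr hlam (re_lip hb)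
    (fun x hx => hs' x (fun h0 => hx (by
      show (b x).re = 0
      rw [h0, Complex.zero_re]))) hΛ
  have h2 := nrm_Sp_real W hG hρ hK (b := fun x => (b x).im) hr hρr hlam (im_lip hb)
    (fun x hx => hs' x (fun h0 => hx (by
      show (b x).im = 0
      rw [h0, Complex.zero_im]))) hΛ
  have h3 : (fun e => b (G.t e) - b (G.s e)) =
      (fun e => ((((b (G.t e)).re - (b (G.s e)).re : ℝ)) : ℂ)) +
      Complex.I • (fun e => ((((b (G.t e)).im - (b (G.s e)).im : ℝ)) : ℂ)) := by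
    funext e
    rw [Pi.add_apply, Pi.smul_apply, smul_eq_mul]
    push_cast
    have e1 := Complex.re_add_im (b (G.t e))
    have e2 := Complex.re_add_im (b (G.s e))
    linear_combination e2 - e1
  rw [Sp_KK, nrm_smul, Complex.norm_I, one_mul, h3, KK_add, KK_smul]
  refine (nrm_add_le W _ _).trans ?_
  rw [nrm_smul, Complex.norm_I, one_mul]
  linarith

/-- constant -/
def k8 : ℝ := 16000000 * kE ^ 2 + 16000000 * kB + 300000 * kE

theorem k8_pos : 0 < k8 := by
  have := kE_pos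
  have := kB_pos
  unfold k8
  positivity

/-- real smeared currents -/
theorem nrm_v_real (W : WFun G β Λ) (hG : Nice G β ρ K) (hρ : 0 ≤ ρ) (hK : 0 ≤ K)
    {f u : Tor L → ℝ} {z : Tor L} {r lam : ℝ} (hr : 1 ≤ r) (hρr : ρ ≤ r) (hlam : 0 ≤ lam)
    (hf : ∀ x y, |f x - f y| ≤ lam * tnorm (x - y)) (hs : ∀ x, f x ≠ 0 → tnorm (x - z) ≤ 3 * r)
    (hfb : ∀ x, |f x| ≤ lam * (3 * r)) (hub : ∀ x, |u x| ≤ 3)
    (hu : ∀ x y, |u x - u y| ≤ 6 / r * tnorm (x - y)) (hΛ : bl z (6 * r) ⊆ Λ) :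
    nrm W (KK G β (fun e => ((1 / 2 * (u (G.s e) + u (G.t e)) * (f (G.t e) - f (G.s e)) : ℝ) :
      ℂ))) ≤ 2 * √k8 * (1 + K) * (lam * r) := by
  have hkE := kE_pos
  have hkB := kB_pos
  have hβ := hG.beta
  have hr0 : 0 < r := by linarith
  obtain ⟨c, hc⟩ : ∃ c, c = ch r z := ⟨_, rfl⟩
  obtain ⟨u', hu'⟩ : ∃ u' : Tor L → ℝ, u' = fun x => u x * c x := ⟨_, rfl⟩
  have hc0 : ∀ x, 0 ≤ c x ∧ c x ≤ 1 := fun x => by rw [hc]; exact ch_bd r z x
  have hcl : ∀ x y, |c x - c y| ≤ 1 / r * tnorm (x - y) := fun x y => by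
    rw [hc]; exact ch_lip hr z x y
  have hu'b : ∀ x, |u' x| ≤ 3 := by
    intro x
    simp only [hu', abs_mul, abs_of_nonneg (hc0 x).1]
    have := mul_le_mul (hub x) (hc0 x).2 (hc0 x).1 (by norm_num)
    linarith
  have hu'l : ∀ x y, |u' x - u' y| ≤ 9 / r * tnorm (x - y) := by
    intro x y
    have h1 : u' x - u' y = u x * (c x - c y) + (u x - u y) * c y := by
      simp only [hu']
      ring
    rw [h1]
    refine (abs_add_le _ _).trans ?_
    rw [abs_mul, abs_mul, abs_of_nonneg (hc0 y).1]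
    have h2 := mul_le_mul (hub x) (hcl x y) (abs_nonneg _) (by norm_num)
    have h3 := mul_le_mul (hu x y) (hc0 y).2 (hc0 y).1
      (mul_nonneg (by positivity) (tnorm_nonneg _))
    have h4 : 3 * (1 / r * tnorm (x - y)) + 6 / r * tnorm (x - y) * 1 =
        9 / r * tnorm (x - y) := by ring
    linarith
  have hu's : ∀ x, u' x ≠ 0 → tnorm (x - z) ≤ 6 * r := by
    intro x hx
    rw [hu', hc] at hx
    exact ch_supp hr (right_ne_zero_of_mul hx)
  have hfu : ∀ x y, |u' x * f y - f x * u' y| ≤ 30 * lam * tnorm (x - y) := by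
    intro x y
    have h1 : u' x * f y - f x * u' y = u' x * (f y - f x) + f x * (u' x - u' y) := by ring
    rw [h1]
    refine (abs_add_le _ _).trans ?_
    rw [abs_mul, abs_mul, abs_sub_comm (f y)]
    have h2 := mul_le_mul (hu'b x) (hf x y) (abs_nonneg _) (by norm_num)
    have h3 := mul_le_mul (hfb x) (hu'l x y) (abs_nonneg _) (by positivity)
    have h4 : 3 * (lam * tnorm (x - y)) + lam * (3 * r) * (9 / r * tnorm (x - y)) =
        30 * lam * tnorm (x - y) := by
      field_simp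
      ring
    linarith
  have huf : ∀ x y, |u' x * f x - u' y * f y| ≤ 30 * lam * tnorm (x - y) := by
    intro x y
    have h1 : u' x * f x - u' y * f y = u' x * (f x - f y) + f y * (u' x - u' y) := by ring
    rw [h1]
    refine (abs_add_le _ _).trans ?_
    rw [abs_mul, abs_mul]
    have h2 := mul_le_mul (hu'b x) (hf x y) (abs_nonneg _) (by norm_num)
    have h3 := mul_le_mul (hfb y) (hu'l x y) (abs_nonneg _) (by positivity)
    have h4 : 3 * (lam * tnorm (x - y)) + lam * (3 * r) * (9 / r * tnorm (x - y)) =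
        30 * lam * tnorm (x - y) := by
      field_simp
      ring
    linarith
  -- energies
  have E1 : β * En G u' ≤ 5184 * (kE * K) := by
    refine (kE_En G β ρ K hG hρ hK u' z (6 * r) (9 / r) (by linarith) (by positivity) hu'l
      hu's).trans ?_
    calc kE * K * (1 + 6 * r + ρ) ^ 2 * (9 / r) ^ 2 ≤ kE * K * (8 * r) ^ 2 * (9 / r) ^ 2 := by
          have : 1 + 6 * r + ρ ≤ 8 * r := by linarith
          gcongr
      _ = 5184 * (kE * K) := by
          field_simp
          ring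
  have E2 : β * En G f ≤ 25 * (kE * K) * (lam * r) ^ 2 := by
    refine (kE_En G β ρ K hG hρ hK f z (3 * r) lam (by linarith) hlam hf hs).trans ?_
    calc kE * K * (1 + 3 * r + ρ) ^ 2 * lam ^ 2 ≤ kE * K * (5 * r) ^ 2 * lam ^ 2 := by
          have : 1 + 3 * r + ρ ≤ 5 * r := by linarith
          gcongr
      _ = 25 * (kE * K) * (lam * r) ^ 2 := by ring
  have E3 : β * En G (fun x => u' x * f x) ≤ 22500 * (kE * K) * (lam * r) ^ 2 := by
    refine (kE_En G β ρ K hG hρ hK (fun x => u' x * f x) z (3 * r) (30 * lam) (by linarith)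
      (by positivity) huf (fun x hx => hs x (right_ne_zero_of_mul hx))).trans ?_
    calc kE * K * (1 + 3 * r + ρ) ^ 2 * (30 * lam) ^ 2
        ≤ kE * K * (5 * r) ^ 2 * (30 * lam) ^ 2 := by
          have : 1 + 3 * r + ρ ≤ 5 * r := by linarith
          gcongr
      _ = 22500 * (kE * K) * (lam * r) ^ 2 := by ring
  have E4 : β * ∑ e, (u' (G.s e) * f (G.t e) - f (G.s e) * u' (G.t e)) ^ 2 ≤
      300000 * kB * K * (lam * r) ^ 2 := by
    refine (sum_edges hG hρ hK _ z (r := 6 * r) (M := 900 * lam ^ 2) (by linarith) (by linarith)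
      (by positivity) (fun e => ?_) (fun e h1 h2 => ?_)).trans ?_
    · have h1 := hfu (G.s e) (G.t e)
      rw [tnorm_sub_comm] at h1
      rw [← sq_abs]
      refine (pow_le_pow_left₀ (abs_nonneg _) h1 2).trans (le_of_eq ?_)
      ring
    · have h3 : u' (G.s e) = 0 := by
        by_contra hc
        exact h1 (hu's _ hc)
      have h4 : u' (G.t e) = 0 := by
        by_contra hc
        exact h2 (hu's _ hc)
      rw [h3, h4]
      simp
    · have : 0 ≤ kB * K * (lam * r) ^ 2 := by positivity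
      nlinarith
  have hV : ∀ e, 1 / 2 * (u (G.s e) + u (G.t e)) * (f (G.t e) - f (G.s e)) =
      1 / 2 * (u' (G.s e) + u' (G.t e)) * (f (G.t e) - f (G.s e)) := by
    intro e
    by_cases h0 : f (G.t e) - f (G.s e) = 0
    · rw [h0, mul_zero, mul_zero]
    · have h1 : tnorm (G.s e - z) ≤ 3 * r ∨ tnorm (G.t e - z) ≤ 3 * r := by
        by_contra hc
        push Not at hc
        apply h0
        have h2 : f (G.s e) = 0 := by
          by_contra h3
          exact absurd (hs _ h3) (not_le.2 hc.1)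
        have h3 : f (G.t e) = 0 := by
          by_contra h3
          exact absurd (hs _ h3) (not_le.2 hc.2)
        rw [h2, h3, sub_zero]
      have h2 := edge_nearJ hG e z (3 * r) h1 hρ
      simp only [hu', hc]
      rw [ch_one hr (show tnorm (G.s e - z) ≤ 5 * r by linarith [h2.1]),
        ch_one hr (show tnorm (G.t e - z) ≤ 5 * r by linarith [h2.2]), mul_one, mul_one]
  have key : ∀ g, W.E (JJ G β (fun e => 1 / 2 * (u (G.s e) + u (G.t e)) *
      (f (G.t e) - f (G.s e))) g ^ 2) ≤ (√k8 * (1 + K) * (lam * r)) ^ 2 := by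
    intro g
    refine (JJ_v_sq W hβ (u := u') (f := f) (fun x hx => ?_) (fun x hx => ?_) g _ hV).trans ?_
    · by_contra hc2
      exact hx (hΛ (hu's x hc2))
    · by_contra hc2
      apply hx
      apply hΛ
      have := hs x hc2
      show tnorm (x - z) ≤ 6 * r
      linarith
    · have hk8 := k8_pos
      rw [mul_pow, mul_pow, Real.sq_sqrt hk8.le]
      have hEu : 0 ≤ β * En G u' := mul_nonneg hβ (WFun.En_nonneg _)
      have hEf : 0 ≤ β * En G f := mul_nonneg hβ (WFun.En_nonneg _)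
      have h5 : (β * En G u') * (β * En G f) ≤
          (5184 * (kE * K)) * (25 * (kE * K) * (lam * r) ^ 2) :=
        mul_le_mul E1 E2 hEf (by positivity)
      have hq : 0 ≤ (lam * r) ^ 2 := by positivity
      obtain ⟨q, hqq⟩ : ∃ q, q = (lam * r) ^ 2 := ⟨_, rfl⟩
      rw [← hqq] at h5 E3 E4 hq ⊢
      have a1 : kE ^ 2 * K ^ 2 * q ≤ kE ^ 2 * (1 + K) ^ 2 * q := by
        have : K ^ 2 ≤ (1 + K) ^ 2 := pow_le_pow_left₀ hK (by linarith) 2
        gcongr
      have hK2 : K ≤ (1 + K) ^ 2 := by nlinarith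
      have a2 : kE * K * q ≤ kE * (1 + K) ^ 2 * q := by gcongr
      have a3 : kB * K * q ≤ kB * (1 + K) ^ 2 * q := by gcongr
      have a4 : 0 ≤ kE ^ 2 * (1 + K) ^ 2 * q := by positivity
      have a5 : 0 ≤ kE * (1 + K) ^ 2 * q := by positivity
      have a6 : 0 ≤ kB * (1 + K) ^ 2 * q := by positivity
      unfold k8
      nlinarith
  have h6 := nrm_KK_real W _ (by have := k8_pos; positivity) key
  refine h6.trans (le_of_eq ?_)
  ring

end Pool.Agent.H12.MG
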