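import Pool.Agent.H12.MG.Base2

/-! # Norm of the rotated bare score -/

set_option autoImplicit false
set_option linter.unusedSectionVars false

noncomputable section

namespace Pool.Agent.H12.MG

open MvPolynomial Pool.Agent.H5R2.ON Pool.Agent.H717R2.ON3 Pool.Agent.H983R2.ONJ

variable {L : ℕ} [NeZero L] {ι : Type} [Fintype ι] {G : Gr (Tor L) ι} {β ρ K : ℝ}
  {Λ : Finset (Tor L)}

/-- admissible complex angles at scale `r` -/
structure Th (r : ℝ) (θ : Tor L → ℂ) : Prop where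
  bd : ∀ x, ‖θ x‖ ≤ 1
  lip : Lp (1 / r) θ

theorem exp_le_three {a : ℂ} (ha : ‖a‖ ≤ 1) : ‖Complex.exp a‖ ≤ 3 := by
  refine (Complex.norm_exp_le_exp_norm a).trans ?_
  refine (Real.exp_le_exp.2 ha).trans ?_
  have := Real.exp_one_lt_d9
  linarith

theorem exp_sub_le {a b : ℂ} (ha : ‖a‖ ≤ 1) (hb : ‖b‖ ≤ 1) :
    ‖Complex.exp a - Complex.exp b‖ ≤ 6 * ‖a - b‖ := by
  by_cases h : ‖a - b‖ ≤ 1
  · have h1 := Complex.norm_exp_sub_one_le h
    have h2 : Complex.exp a - Complex.exp b = Complex.exp b * (Complex.exp (a - b) - 1) := by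
      rw [mul_sub, ← Complex.exp_add]
      simp
    rw [h2, norm_mul]
    have h3 := exp_le_three hb
    calc ‖Complex.exp b‖ * ‖Complex.exp (a - b) - 1‖ ≤ 3 * (2 * ‖a - b‖) :=
          mul_le_mul h3 h1 (norm_nonneg _) (by norm_num)
      _ = 6 * ‖a - b‖ := by ring
  · push Not at h
    have h1 := exp_le_three ha
    have h2 := exp_le_three hb
    have := norm_sub_le (Complex.exp a) (Complex.exp b)
    linarith

theorem Th.mulI {r : ℝ} {θ : Tor L → ℂ} (h : Th r θ) (x : Tor L) : ‖θ x * Complex.I‖ ≤ 1 := by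
  rw [norm_mul, Complex.norm_I, mul_one]
  exact h.bd x

theorem Th.expb {r : ℝ} {θ : Tor L → ℂ} (h : Th r θ) (x : Tor L) :
    ‖Complex.exp (θ x * Complex.I)‖ ≤ 3 := exp_le_three (h.mulI x)

theorem Th.expl {r : ℝ} {θ : Tor L → ℂ} (h : Th r θ) (x y : Tor L) :
    ‖Complex.exp (θ x * Complex.I) - Complex.exp (θ y * Complex.I)‖ ≤ 6 / r * tnorm (x - y) := by
  refine (exp_sub_le (h.mulI x) (h.mulI y)).trans ?_
  rw [← sub_mul, norm_mul, Complex.norm_I, mul_one]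
  have := h.lip x y
  calc 6 * ‖θ x - θ y‖ ≤ 6 * (1 / r * tnorm (x - y)) := mul_le_mul_of_nonneg_left this (by norm_num)
    _ = 6 / r * tnorm (x - y) := by ring

/-- constant -/
def k9 : ℝ := 8 * √k8 + 500 * kB

theorem k9_pos : 0 < k9 := by
  have := k8_pos
  have := kB_pos
  unfold k9
  positivity

theorem nrm_rot_Sp (W : WFun G β Λ) (hG : Nice G β ρ K) (hρ : 0 ≤ ρ) (hK : 0 ≤ K)
    {b θ : Tor L → ℂ} {z : Tor L} {r lam : ℝ} (hr : 1 ≤ r) (hρr : ρ ≤ r) (hlam : 0 ≤ lam)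
    (hb : Cls lam z (3 * r) b) (hθ : Th r θ) (hΛ : bl z (6 * r) ⊆ Λ) :
    nrm W (rot θ (Sp G β b)) ≤ k9 * (1 + K) * (lam * r) := by
  have hkE := kE_pos
  have hkB := kB_pos
  have hk8 := k8_pos
  have hβ := hG.beta
  have hr0 : 0 < r := by linarith
  have hs' : ∀ x, b x ≠ 0 → tnorm (x - z) ≤ 3 * r := by
    intro x hx
    by_contra hc
    exact hx (hb.supp x hc)
  obtain ⟨Θ, hΘ⟩ : ∃ Θ : Tor L → ℂ, Θ = fun x => Complex.exp (θ x * Complex.I) := ⟨_, rfl⟩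
  have hΘb : ∀ x, ‖Θ x‖ ≤ 3 := fun x => by rw [hΘ]; exact hθ.expb x
  have hΘl : ∀ x y, ‖Θ x - Θ y‖ ≤ 6 / r * tnorm (x - y) := fun x y => by
    rw [hΘ]; exact hθ.expl x y
  -- four real terms
  have hreal : ∀ (u f : Tor L → ℝ), (∀ x, |u x| ≤ ‖Θ x‖) → (∀ x y, |u x - u y| ≤ ‖Θ x - Θ y‖) →
      (∀ x, |f x| ≤ ‖b x‖) → (∀ x y, |f x - f y| ≤ ‖b x - b y‖) →
      nrm W (KK G β (fun e => ((1 / 2 * (u (G.s e) + u (G.t e)) * (f (G.t e) - f (G.s e)) : ℝ) :
      ℂ))) ≤ 2 * √k8 * (1 + K) * (lam * r) := by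
    intro u f h1 h2 h3 h4
    refine nrm_v_real W hG hρ hK hr hρr hlam (fun x y => (h4 x y).trans (hb.lip x y))
      (fun x hx => hs' x fun h0 => hx ?_) (fun x => (h3 x).trans (hb.bd x))
      (fun x => (h1 x).trans (hΘb x)) (fun x y => (h2 x y).trans (hΘl x y)) hΛ
    have := h3 x
    rw [h0, norm_zero] at this
    exact abs_nonpos_iff.1 this
  have r1 : ∀ x, |(Θ x).re| ≤ ‖Θ x‖ := fun x => Complex.abs_re_le_norm _
  have r2 : ∀ x, |(Θ x).im| ≤ ‖Θ x‖ := fun x => Complex.abs_im_le_norm _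
  have r3 : ∀ x y, |(Θ x).re - (Θ y).re| ≤ ‖Θ x - Θ y‖ := fun x y => by
    rw [← Complex.sub_re]; exact Complex.abs_re_le_norm _
  have r4 : ∀ x y, |(Θ x).im - (Θ y).im| ≤ ‖Θ x - Θ y‖ := fun x y => by
    rw [← Complex.sub_im]; exact Complex.abs_im_le_norm _
  have s1 : ∀ x, |(b x).re| ≤ ‖b x‖ := fun x => Complex.abs_re_le_norm _
  have s2 : ∀ x, |(b x).im| ≤ ‖b x‖ := fun x => Complex.abs_im_le_norm _
  have s3 : ∀ x y, |(b x).re - (b y).re| ≤ ‖b x - b y‖ := fun x y => by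
    rw [← Complex.sub_re]; exact Complex.abs_re_le_norm _
  have s4 : ∀ x y, |(b x).im - (b y).im| ≤ ‖b x - b y‖ := fun x y => by
    rw [← Complex.sub_im]; exact Complex.abs_im_le_norm _
  have t11 := hreal _ _ r1 r3 s1 s3
  have t12 := hreal _ _ r1 r3 s2 s4
  have t21 := hreal _ _ r2 r4 s1 s3
  have t22 := hreal _ _ r2 r4 s2 s4
  -- decomposition
  have hdec : (fun e => 1 / 2 * (Θ (G.s e) + Θ (G.t e)) * (b (G.t e) - b (G.s e))) =
      (fun e => ((1 / 2 * ((Θ (G.s e)).re + (Θ (G.t e)).re) *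
        ((b (G.t e)).re - (b (G.s e)).re) : ℝ) : ℂ)) +
      Complex.I • (fun e => ((1 / 2 * ((Θ (G.s e)).re + (Θ (G.t e)).re) *
        ((b (G.t e)).im - (b (G.s e)).im) : ℝ) : ℂ)) +
      Complex.I • (fun e => ((1 / 2 * ((Θ (G.s e)).im + (Θ (G.t e)).im) *
        ((b (G.t e)).re - (b (G.s e)).re) : ℝ) : ℂ)) +
      (-1 : ℂ) • (fun e => ((1 / 2 * ((Θ (G.s e)).im + (Θ (G.t e)).im) *
        ((b (G.t e)).im - (b (G.s e)).im) : ℝ) : ℂ)) := by
    funext e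
    simp only [Pi.add_apply, Pi.smul_apply, smul_eq_mul]
    rw [← Complex.re_add_im (Θ (G.s e)), ← Complex.re_add_im (Θ (G.t e)),
      ← Complex.re_add_im (b (G.s e)), ← Complex.re_add_im (b (G.t e))]
    simp only [Complex.add_re, Complex.add_im, Complex.ofReal_re, Complex.ofReal_im,
      Complex.mul_re, Complex.mul_im, Complex.I_re, Complex.I_im, mul_zero, mul_one, zero_sub,
      neg_zero, add_zero, zero_add, sub_zero]
    push_cast
    have hI := Complex.I_mul_I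
    linear_combination (1 / 2 * (((Θ (G.s e)).im : ℂ) + ((Θ (G.t e)).im : ℂ)) *
      (((b (G.t e)).im : ℂ) - ((b (G.s e)).im : ℂ))) * hI
  have hKK : nrm W (KK G β (fun e => 1 / 2 * (Θ (G.s e) + Θ (G.t e)) * (b (G.t e) - b (G.s e)))) ≤
      8 * √k8 * (1 + K) * (lam * r) := by
    rw [hdec, KK_add, KK_add, KK_add, KK_smul, KK_smul, KK_smul]
    have n1 := nrm_add_le W
      (KK G β (fun e => ((1 / 2 * ((Θ (G.s e)).re + (Θ (G.t e)).re) *
        ((b (G.t e)).re - (b (G.s e)).re) : ℝ) : ℂ)) +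
      Complex.I • KK G β (fun e => ((1 / 2 * ((Θ (G.s e)).re + (Θ (G.t e)).re) *
        ((b (G.t e)).im - (b (G.s e)).im) : ℝ) : ℂ)) +
      Complex.I • KK G β (fun e => ((1 / 2 * ((Θ (G.s e)).im + (Θ (G.t e)).im) *
        ((b (G.t e)).re - (b (G.s e)).re) : ℝ) : ℂ)))
      ((-1 : ℂ) • KK G β (fun e => ((1 / 2 * ((Θ (G.s e)).im + (Θ (G.t e)).im) *
        ((b (G.t e)).im - (b (G.s e)).im) : ℝ) : ℂ)))
    have n2 := nrm_add_le W
      (KK G β (fun e => ((1 / 2 * ((Θ (G.s e)).re + (Θ (G.t e)).re) *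
        ((b (G.t e)).re - (b (G.s e)).re) : ℝ) : ℂ)) +
      Complex.I • KK G β (fun e => ((1 / 2 * ((Θ (G.s e)).re + (Θ (G.t e)).re) *
        ((b (G.t e)).im - (b (G.s e)).im) : ℝ) : ℂ)))
      (Complex.I • KK G β (fun e => ((1 / 2 * ((Θ (G.s e)).im + (Θ (G.t e)).im) *
        ((b (G.t e)).re - (b (G.s e)).re) : ℝ) : ℂ)))
    have n3 := nrm_add_le W
      (KK G β (fun e => ((1 / 2 * ((Θ (G.s e)).re + (Θ (G.t e)).re) *
        ((b (G.t e)).re - (b (G.s e)).re) : ℝ) : ℂ)))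
      (Complex.I • KK G β (fun e => ((1 / 2 * ((Θ (G.s e)).re + (Θ (G.t e)).re) *
        ((b (G.t e)).im - (b (G.s e)).im) : ℝ) : ℂ)))
    rw [nrm_smul, norm_neg, norm_one, one_mul] at n1
    rw [nrm_smul, Complex.norm_I, one_mul] at n2 n3
    linarith
  -- the remainder
  have hrem : nrm W (∑ e, ((β : ℂ) * (b (G.t e) - b (G.s e)) * (1 / 2 * (Θ (G.t e) -
      Θ (G.s e)))) • (zz (G.s e) * uu (G.t e) + zz (G.t e) * uu (G.s e))) ≤
      500 * kB * (1 + K) * (lam * r) := by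
    refine nrm_one_le W _ (by positivity) fun σ hσ => ?_
    rw [ev_sum]
    refine (norm_sum_le _ _).trans ?_
    have h1 : ∀ e ∈ (Finset.univ : Finset ι), ‖ev σ (((β : ℂ) * (b (G.t e) - b (G.s e)) *
        (1 / 2 * (Θ (G.t e) - Θ (G.s e)))) •
          (zz (G.s e) * uu (G.t e) + zz (G.t e) * uu (G.s e)))‖ ≤
        β * (‖b (G.t e) - b (G.s e)‖ * ‖Θ (G.t e) - Θ (G.s e)‖) := by
      intro e _
      rw [ev_smul, norm_mul, norm_mul, norm_mul, norm_mul, Complex.norm_real, Real.norm_eq_abs,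
        abs_of_nonneg hβ, map_add]
      have h2 := ev_zzuu_le hσ (G.s e) (G.t e)
      have h3 := ev_zzuu_le hσ (G.t e) (G.s e)
      have h4 := norm_add_le (ev σ (zz (G.s e) * uu (G.t e))) (ev σ (zz (G.t e) * uu (G.s e)))
      have h5 : ‖ev σ (zz (G.s e) * uu (G.t e)) + ev σ (zz (G.t e) * uu (G.s e))‖ ≤ 2 := by
        linarith
      have h6 : ‖(1 / 2 : ℂ)‖ = 1 / 2 := by simp
      rw [h6]
      have h7 : 0 ≤ β * ‖b (G.t e) - b (G.s e)‖ * (1 / 2 * ‖Θ (G.t e) - Θ (G.s e)‖) := by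
        positivity
      have h8 := mul_le_mul_of_nonneg_left h5 h7
      linarith
    refine (Finset.sum_le_sum h1).trans ?_
    rw [← Finset.mul_sum]
    refine (sum_edges hG hρ hK _ z (r := 3 * r) (M := lam * (6 / r)) (by linarith) (by linarith)
      (by positivity) (fun e => ?_) (fun e h2 h3 => ?_)).trans ?_
    · have h2 := hb.lip (G.t e) (G.s e)
      have h3 := hΘl (G.t e) (G.s e)
      have h4 := mul_le_mul h2 h3 (norm_nonneg _) (mul_nonneg hlam (tnorm_nonneg _))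
      refine h4.trans (le_of_eq ?_)
      ring
    · rw [hb.supp _ h2, hb.supp _ h3, sub_zero, norm_zero, zero_mul]
    · have h4 : 9 * kB * (3 * r) ^ 2 * (lam * (6 / r) * K) = 486 * kB * K * (lam * r) := by
        field_simp
        ring
      rw [h4]
      have h5 : 0 ≤ kB * K * (lam * r) := by positivity
      have h6 : 0 ≤ kB * (lam * r) := by positivity
      nlinarith
  rw [rot_Sp, nrm_smul, Complex.norm_I, one_mul]
  refine (nrm_add_le W _ _).trans ?_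
  have e1 : (fun e => 1 / 2 * (Complex.exp (θ (G.s e) * Complex.I) +
      Complex.exp (θ (G.t e) * Complex.I)) * (b (G.t e) - b (G.s e))) =
      (fun e => 1 / 2 * (Θ (G.s e) + Θ (G.t e)) * (b (G.t e) - b (G.s e))) := by
    rw [hΘ]
  have e2 : (∑ e, ((β : ℂ) * (b (G.t e) - b (G.s e)) * (1 / 2 * (Complex.exp (θ (G.t e) *
      Complex.I) - Complex.exp (θ (G.s e) * Complex.I)))) •
        (zz (G.s e) * uu (G.t e) + zz (G.t e) * uu (G.s e))) =
      ∑ e, ((β : ℂ) * (b (G.t e) - b (G.s e)) * (1 / 2 * (Θ (G.t e) -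
      Θ (G.s e)))) • (zz (G.s e) * uu (G.t e) + zz (G.t e) * uu (G.s e)) := by
    rw [hΘ]
  rw [e1, e2]
  unfold k9
  nlinarith

end Pool.Agent.H12.MG
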