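import Pool.Agent.H12.MG.Loc

/-! # Cauchy estimates, near and far pairs -/

set_option autoImplicit false
set_option linter.unusedSectionVars false

noncomputable section

namespace Pool.Agent.H12.MG

open MvPolynomial Pool.Agent.H717R2.ON3

variable {V : Type} [Fintype V] [DecidableEq V] {ι : Type} [Fintype ι] {G : Gr V ι} {β : ℝ}
  {Λ : Finset V}

/-- the functional `⟨H, ·⟩` -/
def Lf (W : WFun G β Λ) (H : CA V) : CA V →ₗ[ℂ] ℂ := (EC W).comp (LinearMap.mulLeft ℂ (cj H))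

theorem Lf_apply (W : WFun G β Λ) (H F : CA V) : Lf W H F = EC W (cj H * F) := rfl

/-- duality -/
theorem nrm_le_of_dual (W : WFun G β Λ) (F : CA V) {M : ℝ}
    (h : ∀ H : CA V, ‖Lf W H F‖ ≤ nrm W H * M) : nrm W F ≤ M := by
  by_contra hc
  push Not at hc
  have h1 := h F
  rw [Lf_apply, EC_self, Complex.norm_real, Real.norm_of_nonneg (sq_nonneg _)] at h1
  have h2 := nrm_nonneg W F
  rcases h2.eq_or_lt with h0 | h0
  · -- nrm = 0 > M : test with H = 1
    have h3 := h 1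
    have h4 : nrm W 1 = 1 := by
      unfold nrm
      rw [RingHom.map_one, mul_one, EC_one]
      simp
    rw [h4, one_mul] at h3
    have h5 := norm_nonneg (Lf W 1 F)
    linarith
  · nlinarith

/-- Cauchy estimate for the derivative at `0` -/
theorem cauchy1 (W : WFun G β Λ) (δ : V → ℂ) (F : CA V) {r M : ℝ} (hr : 0 < r)
    (h : ∀ z : ℂ, ‖z‖ ≤ r → nrm W (rot (z • δ) F) ≤ M) : nrm W (D0 δ F) ≤ M / r := by
  refine nrm_le_of_dual W _ fun H => ?_
  have hd : ∀ z : ℂ, HasDerivAt (fun z : ℂ => Lf W H (rot (z • δ) F))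
      (Lf W H (rot (z • δ) (D0 δ F))) z := rot_hasDeriv0 δ F (Lf W H)
  have h1 : ‖deriv (fun z : ℂ => Lf W H (rot (z • δ) F)) 0‖ ≤ (nrm W H * M) / r := by
    refine Complex.norm_deriv_le_of_forall_mem_sphere_norm_le hr ?_ ?_
    · exact (Differentiable.diffContOnCl fun z => (hd z).differentiableAt)
    · intro z hz
      have h2 : ‖z‖ ≤ r := by
        have := mem_sphere_iff_norm.1 hz
        rw [sub_zero] at this
        exact this.le
      refine (cs W _ _).trans ?_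
      exact mul_le_mul_of_nonneg_left (h z h2) (nrm_nonneg W H)
  rw [(hd 0).deriv] at h1
  have e0 : (0 : ℂ) • δ = 0 := zero_smul _ _
  rw [e0, rot_zero] at h1
  rw [← mul_div_assoc]
  exact h1

theorem rot_smul_add (z w : ℂ) (δ : V → ℂ) (F : CA V) :
    rot (z • δ) (rot (w • δ) F) = rot ((z + w) • δ) F := by
  rw [← rot_add, add_smul]

/-- the derivative in the half disc -/
theorem cauchy0 (W : WFun G β Λ) (δ : V → ℂ) (F : CA V) {r M : ℝ} (hr : 0 < r)
    (h : ∀ z : ℂ, ‖z‖ ≤ r → nrm W (rot (z • δ) F) ≤ M) {w : ℂ} (hw : ‖w‖ ≤ r / 2) :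
    nrm W (rot (w • δ) (D0 δ F)) ≤ 2 * M / r := by
  have h1 : nrm W (D0 δ (rot (w • δ) F)) ≤ M / (r / 2) := by
    refine cauchy1 W δ _ (by positivity) fun z hz => ?_
    rw [rot_smul_add]
    apply h
    refine (norm_add_le _ _).trans ?_
    linarith
  rw [rot_D0]
  refine h1.trans (le_of_eq ?_)
  field_simp

/-- second derivative -/
theorem cauchy2 (W : WFun G β Λ) (δ : V → ℂ) (F : CA V) {r M : ℝ} (hr : 0 < r)
    (h : ∀ z : ℂ, ‖z‖ ≤ r → nrm W (rot (z • δ) F) ≤ M) :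
    nrm W (D0 δ (D0 δ F)) ≤ 4 * M / r ^ 2 := by
  have h1 := cauchy1 W δ (D0 δ F) (r := r / 2) (M := 2 * M / r) (by positivity) fun z hz =>
    cauchy0 W δ F hr h hz
  refine h1.trans (le_of_eq ?_)
  field_simp
  ring

/-- increments -/
theorem cauchy3 (W : WFun G β Λ) (δ : V → ℂ) (F : CA V) {r M : ℝ} (hr : 0 < r)
    (h : ∀ z : ℂ, ‖z‖ ≤ r → nrm W (rot (z • δ) F) ≤ M) {η : ℂ} (hη : ‖η‖ ≤ r / 2) :
    nrm W (rot (η • δ) F - F) ≤ 2 * M / r * ‖η‖ := by
  refine nrm_le_of_dual W _ fun H => ?_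
  have hd : ∀ z : ℂ, HasDerivAt (fun z : ℂ => Lf W H (rot (z • δ) F))
      (Lf W H (rot (z • δ) (D0 δ F))) z := rot_hasDeriv0 δ F (Lf W H)
  have h1 := Convex.norm_image_sub_le_of_norm_hasDerivWithin_le (𝕜 := ℂ)
    (f := fun z : ℂ => Lf W H (rot (z • δ) F)) (f' := fun z => Lf W H (rot (z • δ) (D0 δ F)))
    (s := Metric.closedBall (0 : ℂ) (r / 2)) (x := 0) (y := η) (C := nrm W H * (2 * M / r))
    (fun z _ => (hd z).hasDerivWithinAt) (fun z hz => ?_) (convex_closedBall _ _)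
    (Metric.mem_closedBall_self (by positivity)) (by
      rw [mem_closedBall_zero_iff]; exact hη)
  · have e0 : (0 : ℂ) • δ = 0 := zero_smul _ _
    simp only [e0, rot_zero, sub_zero] at h1
    rw [map_sub]
    refine h1.trans (le_of_eq ?_)
    ring
  · rw [mem_closedBall_zero_iff] at hz
    refine (cs W _ _).trans ?_
    exact mul_le_mul_of_nonneg_left (cauchy0 W δ F hr h hz) (nrm_nonneg W H)

/-- near and far pairs -/
theorem near_far (W : WFun G β Λ) {α : Type} (I : Finset α) (A B : α → CA V)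
    (near : α → α → Prop) [DecidableRel near] (hsymm : ∀ a b, near a b → near b a)
    {D : ℝ} (hD : ∀ a ∈ I, ((I.filter fun b => near a b).card : ℝ) ≤ D)
    (hfar : ∀ a ∈ I, ∀ b ∈ I, ¬near a b → EC W (cj (A a) * A b) = EC W (cj (B a) * B b)) :
    nrm W (∑ a ∈ I, A a) ^ 2 ≤ nrm W (∑ a ∈ I, B a) ^ 2 +
      D * ∑ a ∈ I, (nrm W (A a) ^ 2 + nrm W (B a) ^ 2) := by
  have hexp : ∀ F : α → CA V, nrm W (∑ a ∈ I, F a) ^ 2 =
      ∑ a ∈ I, ∑ b ∈ I, (EC W (cj (F a) * F b)).re := by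
    intro F
    rw [nrm_sq, map_sum, Finset.sum_mul_sum, map_sum, Complex.re_sum]
    refine Finset.sum_congr rfl fun a _ => ?_
    rw [map_sum, Complex.re_sum]
  rw [hexp, hexp]
  have hpt : ∀ a ∈ I, ∀ b ∈ I, (EC W (cj (A a) * A b)).re ≤ (EC W (cj (B a) * B b)).re +
      (if near a b then 1 / 2 * ((nrm W (A a) ^ 2 + nrm W (B a) ^ 2) +
        (nrm W (A b) ^ 2 + nrm W (B b) ^ 2)) else 0) := by
    intro a ha b hb
    split_ifs with hn
    · have h1 := (Complex.re_le_norm _).trans (cs W (A a) (A b))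
      have h2 := (neg_le_abs _).trans ((Complex.abs_re_le_norm _).trans (cs W (B a) (B b)))
      nlinarith [sq_nonneg (nrm W (A a) - nrm W (A b)), sq_nonneg (nrm W (B a) - nrm W (B b))]
    · rw [hfar a ha b hb hn, add_zero]
  have hsum : ∑ a ∈ I, ∑ b ∈ I, (if near a b then 1 / 2 * ((nrm W (A a) ^ 2 + nrm W (B a) ^ 2) +
        (nrm W (A b) ^ 2 + nrm W (B b) ^ 2)) else 0) ≤
      D * ∑ a ∈ I, (nrm W (A a) ^ 2 + nrm W (B a) ^ 2) := by
    have e1 : ∑ a ∈ I, ∑ b ∈ I, (if near a b then 1 / 2 * ((nrm W (A a) ^ 2 + nrm W (B a) ^ 2) +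
        (nrm W (A b) ^ 2 + nrm W (B b) ^ 2)) else 0) =
        1 / 2 * (∑ a ∈ I, ∑ b ∈ I, (if near a b then (nrm W (A a) ^ 2 + nrm W (B a) ^ 2) else 0)) +
        1 / 2 * (∑ a ∈ I, ∑ b ∈ I,
          (if near a b then (nrm W (A b) ^ 2 + nrm W (B b) ^ 2) else 0)) := by
      rw [Finset.mul_sum, Finset.mul_sum, ← Finset.sum_add_distrib]
      refine Finset.sum_congr rfl fun a _ => ?_
      rw [Finset.mul_sum, Finset.mul_sum, ← Finset.sum_add_distrib]
      refine Finset.sum_congr rfl fun b _ => ?_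
      split_ifs <;> ring
    have e2 : ∑ a ∈ I, ∑ b ∈ I, (if near a b then (nrm W (A b) ^ 2 + nrm W (B b) ^ 2) else 0) =
        ∑ a ∈ I, ∑ b ∈ I, (if near a b then (nrm W (A a) ^ 2 + nrm W (B a) ^ 2) else 0) := by
      rw [Finset.sum_comm]
      refine Finset.sum_congr rfl fun a _ => Finset.sum_congr rfl fun b _ => ?_
      by_cases h : near a b
      · rw [if_pos h, if_pos (hsymm _ _ h)]
      · rw [if_neg h, if_neg fun h' => h (hsymm _ _ h')]
    have e3 : ∑ a ∈ I, ∑ b ∈ I, (if near a b then (nrm W (A a) ^ 2 + nrm W (B a) ^ 2) else 0) ≤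
        D * ∑ a ∈ I, (nrm W (A a) ^ 2 + nrm W (B a) ^ 2) := by
      rw [Finset.mul_sum]
      refine Finset.sum_le_sum fun a ha => ?_
      rw [← Finset.sum_filter, Finset.sum_const, nsmul_eq_mul]
      exact mul_le_mul_of_nonneg_right (hD a ha) (by positivity)
    rw [e1, e2]
    linarith
  calc ∑ a ∈ I, ∑ b ∈ I, (EC W (cj (A a) * A b)).re
      ≤ ∑ a ∈ I, ∑ b ∈ I, ((EC W (cj (B a) * B b)).re +
      (if near a b then 1 / 2 * ((nrm W (A a) ^ 2 + nrm W (B a) ^ 2) +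
        (nrm W (A b) ^ 2 + nrm W (B b) ^ 2)) else 0)) :=
        Finset.sum_le_sum fun a ha => Finset.sum_le_sum fun b hb => hpt a ha b hb
    _ = ∑ a ∈ I, ∑ b ∈ I, (EC W (cj (B a) * B b)).re + ∑ a ∈ I, ∑ b ∈ I,
      (if near a b then 1 / 2 * ((nrm W (A a) ^ 2 + nrm W (B a) ^ 2) +
        (nrm W (A b) ^ 2 + nrm W (B b) ^ 2)) else 0) := by
        rw [← Finset.sum_add_distrib]
        refine Finset.sum_congr rfl fun a _ => ?_
        rw [Finset.sum_add_distrib]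
    _ ≤ _ := by linarith

theorem near_far0 (W : WFun G β Λ) {α : Type} (I : Finset α) (A : α → CA V)
    (near : α → α → Prop) [DecidableRel near] (hsymm : ∀ a b, near a b → near b a)
    {D : ℝ} (hD : ∀ a ∈ I, ((I.filter fun b => near a b).card : ℝ) ≤ D)
    (hfar : ∀ a ∈ I, ∀ b ∈ I, ¬near a b → EC W (cj (A a) * A b) = 0) :
    nrm W (∑ a ∈ I, A a) ^ 2 ≤ D * ∑ a ∈ I, nrm W (A a) ^ 2 := by
  have h := near_far W I A (fun _ => 0) near hsymm hD (fun a ha b hb hn => by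
    rw [hfar a ha b hb hn, RingHom.map_zero, zero_mul, map_zero])
  simp only [Finset.sum_const_zero, nrm_zero] at h
  simpa using h

end Pool.Agent.H12.MG
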