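import Pool.Agent.H12.MG.SStep

/-! # Coherent sums -/

set_option autoImplicit false
set_option linter.unusedSectionVars false

noncomputable section

namespace Pool.Agent.H12.MG

open MvPolynomial Pool.Agent.H5R2.ON Pool.Agent.H717R2.ON3 Pool.Agent.H983R2.ONJ

variable {L : ℕ} [NeZero L] {ι : Type} [Fintype ι] {G : Gr (Tor L) ι} {β ρ K : ℝ}
  {Λ : Finset (Tor L)} {l w : ℕ → ℝ}

theorem XX_Su (hG : Nice G β ρ K) (hS : Scl ρ l) (k : ℕ) :
    ∀ (B A : Set (Tor L)) (b : Tor L → ℂ) (F : CA (Tor L)), Sp0 B b → thick B (rr l ρ k) ⊆ A →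
      Su A F → Su A (XX G β l w k b F) := by
  induction k with
  | zero =>
    intro B A b F hb hA hF
    rw [XX_zero]
    exact Dp_Su hF b
  | succ k ih =>
    intro B A b F hb hA hF
    have hk := hS.one k
    rw [XX_succ]
    refine Su.sub (ih B A b F hb (Set.Subset.trans (thick_mono (le_refl _)
      (by rw [rr_succ]; linarith)) hA) hF) (Su.smul (Su.sum _ _ fun a _ => ?_) _)
    by_cases h0 : gl (l k) a b = 0
    · rw [h0, VV_zero_fun, zero_mul]
      exact Su.zero
    · refine Su.mul ?_ (D0_Su hF _)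
      obtain ⟨y, hy, hay⟩ := gl_ne hk hb h0
      refine (VV_Su hG hS.nn hS.one k _ _ (gl_supp hk a b)).mono (Set.Subset.trans ?_ hA)
      rintro x ⟨z, hz, hxz⟩
      have hz' : tnorm (z - a) ≤ 3 * l k := hz
      refine ⟨y, hy, ?_⟩
      have t1 := tri3 x z y
      have t2 := tri3 z a y
      rw [rr_succ]
      linarith

/-- far pairs of the coherent sum -/
theorem far_pair (W : WFun G β Λ) (hG : Nice G β ρ K) (hS : Scl ρ l) (k : ℕ)
    {B1 B2 A1 A2 : Set (Tor L)} {b1 b2 : Tor L → ℂ} {m1 m2 : CA (Tor L)}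
    (hb1 : Sp0 B1 b1) (hb2 : Sp0 B2 b2) (h1 : thick B1 (rr l ρ k) ⊆ A1)
    (h2 : thick B2 (rr l ρ k) ⊆ A2) (hΛ1 : thick B1 (rr l ρ k) ⊆ Λ)
    (hΛ2 : thick B2 (rr l ρ k) ⊆ Λ) (hm1 : Su A1 m1) (hm2 : Su A2 m2) (hA : Disjoint A1 A2) :
    EC W (cj (m1 * VV G β l w k b1) * (m2 * VV G β l w k b2)) =
      EC W (cj (XX G β l w k b1 m1) * XX G β l w k b2 m2) := by
  have hV1 : Su A1 (VV G β l w k b1) := (VV_Su hG hS.nn hS.one k _ _ hb1).mono h1
  have e1 : cj (m1 * VV G β l w k b1) * (m2 * VV G β l w k b2) =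
      VV G β l w k b2 * (cj (m1 * VV G β l w k b1) * m2) := by ring
  rw [e1, ← XX_div hS.nn hS.one W k B2 b2 hb2 hΛ2, Derivation.leibniz, smul_eq_mul, smul_eq_mul,
    XX_kill hS.nn hS.one k B2 A1 b2 _ hb2 (hm1.mul hV1).cj (hA.mono_right h2), mul_zero, add_zero,
    EC_symm]
  have e2 : cj (XX G β l w k b2 m2) * (m1 * VV G β l w k b1) =
      VV G β l w k b1 * (cj (XX G β l w k b2 m2) * m1) := by ring
  have hX2 : Su A2 (XX G β l w k b2 m2) := XX_Su hG hS k B2 A2 b2 m2 hb2 h2 hm2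
  rw [e2, ← XX_div hS.nn hS.one W k B1 b1 hb1 hΛ1, Derivation.leibniz, smul_eq_mul, smul_eq_mul,
    XX_kill hS.nn hS.one k B1 A2 b1 _ hb1 hX2.cj (hA.symm.mono_right h1), mul_zero, add_zero,
    ← EC_symm]

theorem mm_Su (hG : Nice G β ρ K) (hS : Scl ρ l) (k : ℕ) (θ : Tor L → ℂ) (a : Tor L) :
    Su (bl a (4 * l k)) (mm G β θ (thc (l k) a)) := by
  have hk := hS.one k
  have h1 : Su (bl a (4 * l k)) (S0 G β (thc (l k) a)) := by
    refine (Su_S0 hG hS.nn (thc_supp hk a)).mono (Set.Subset.trans thick_bl ?_)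
    intro x hx
    have h : tnorm (x - a) ≤ l k + ρ := hx
    have := hS.rho' k
    show tnorm (x - a) ≤ 4 * l k
    linarith
  have h2 := rot_S0 G β θ (thc (l k) a)
  have h3 : mm G β θ (thc (l k) a) = rot θ (S0 G β (thc (l k) a)) - S0 G β (thc (l k) a) := by
    rw [h2]; abel
  rw [h3]
  exact (h1.rot θ).sub h1

/-- sup of the multiplier -/
theorem mm_sup (hG : Nice G β ρ K) (hK : 0 ≤ K) (hS : Scl ρ l) {i n : ℕ} {θ : Tor L → ℂ}
    (hθ : Lp (1 / l n) θ) (h2 : 2 * l i < L) (a : Tor L) {σ : Tor L × Fin 3 → ℝ} (hσ : Pt σ) :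
    ‖ev σ (mm G β θ (thc (l i) a))‖ ≤ 36 * kB / kC * K / (l i * l n) := by
  have hi := hS.one i
  have hn := hS.one n
  have hkC := kC_pos
  have h1 := mm_sum (β := β) hG hS.nn hK hθ (by linarith) (hS.rho' n) hi h2 a (fun _ => 1)
    (Q := 1) zero_le_one (fun _ => ⟨zero_le_one, le_refl _⟩) a hi (hS.rho' i) (fun e hs ht => by
      left
      rw [thc_supp hi a _ hs, thc_supp hi a _ ht, sub_zero])
  refine (ev_MM_le hσ _ _).trans ?_
  simp only [mul_one] at h1
  refine h1.trans (le_of_eq ?_)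
  have : l i ≠ 0 := by positivity
  field_simp

/-- `Dp` of the multiplier -/
theorem mm_Dp (W : WFun G β Λ) (hG : Nice G β ρ K) (hK : 0 ≤ K) (hS : Scl ρ l) {i n : ℕ}
    {θ : Tor L → ℂ} (hθ : Lp (1 / l n) θ) (h2 : 2 * l i < L) (a : Tor L) {b : Tor L → ℂ} {M : ℝ}
    (hM : 0 ≤ M) (hb : ∀ x, ‖b x‖ ≤ M) :
    nrm W (Dp b (mm G β θ (thc (l i) a))) ≤ 72 * kB / kC * K * M / (l i * l n) := by
  have hi := hS.one i
  have hn := hS.one n
  have hkC := kC_pos
  have hkB := kB_pos
  refine nrm_one_le W _ (by positivity) fun σ hσ => ?_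
  have h1 := mm_sum (β := β) hG hS.nn hK hθ (by linarith) (hS.rho' n) hi h2 a
    (fun e => ‖b (G.s e)‖ + ‖b (G.t e)‖)
    (Q := 2 * M) (by positivity) (fun e => ⟨by positivity, by
      have := hb (G.s e)
      have := hb (G.t e)
      linarith⟩) a hi (hS.rho' i) (fun e hs ht => by
      left
      rw [thc_supp hi a _ hs, thc_supp hi a _ ht, sub_zero])
  refine (ev_Dp_MM_le hσ b _ _).trans ?_
  refine h1.trans (le_of_eq ?_)
  have : l i ≠ 0 := by positivity
  field_simp
  ring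

/-- `D0` of the multiplier -/
theorem mm_D0 (hG : Nice G β ρ K) (hK : 0 ≤ K) (hS : Scl ρ l) {i j n : ℕ} {θ : Tor L → ℂ}
    (hθ : Lp (1 / l n) θ) (h2 : 2 * l i < L) (h2' : 2 * l j < L) (a a' : Tor L)
    {σ : Tor L × Fin 3 → ℝ} (hσ : Pt σ) :
    ‖ev σ (D0 (thc (l j) a') (mm G β θ (thc (l i) a)))‖ ≤
      72 * kB / kC ^ 2 * K / (l i ^ 3 * l n) := by
  have hi := hS.one i
  have hj := hS.one j
  have hn := hS.one n
  have hkC := kC_pos
  have hkB := kB_pos
  have h1 := mm_sum (β := β) hG hS.nn hK hθ (by linarith) (hS.rho' n) hi h2 a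
    (fun e => ‖thc (l j) a' (G.t e) - thc (l j) a' (G.s e)‖)
    (Q := 2 / (kC * l j ^ 2)) (by positivity) (fun e => ⟨norm_nonneg _, by
      have := thc_nn hj h2' a' (G.s e)
      have := thc_nn hj h2' a' (G.t e)
      have := norm_sub_le (thc (l j) a' (G.t e)) (thc (l j) a' (G.s e))
      have e1 : 2 / (kC * l j ^ 2) = 1 / (kC * l j ^ 2) + 1 / (kC * l j ^ 2) := by ring
      linarith⟩) a' hj (hS.rho' j) (fun e hs ht => by
      right
      rw [thc_supp hj a' _ hs, thc_supp hj a' _ ht, sub_zero, norm_zero])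
  unfold mm
  rw [D0_MM]
  refine (ev_MM_le hσ _ _).trans ?_
  refine le_trans (le_of_eq ?_) (h1.trans (le_of_eq ?_))
  · refine Finset.sum_congr rfl fun e _ => ?_
    rw [norm_mul, norm_mul _ (thc (l j) a' (G.t e) - thc (l j) a' (G.s e)),
      norm_sub_rev (thc (l j) a' (G.s e))]
    ring
  · have : l j ≠ 0 := by positivity
    field_simp
    ring

/-- the fields, unfolded -/
theorem XX_unfold (k : ℕ) (b : Tor L → ℂ) (F : CA (Tor L)) : XX G β l w k b F = Dp b F -
    ∑ j ∈ Finset.range k, (Complex.I * (w j : ℂ)) •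
      ∑ a ∈ act (l j) b, VV G β l w j (gl (l j) a b) * D0 (thc (l j) a) F := by
  induction k with
  | zero => simp [XX_zero]
  | succ k ih =>
    rw [XX_succ, ih, Finset.sum_range_succ]
    have h1 : ∑ a, VV G β l w k (gl (l k) a b) * D0 (thc (l k) a) F =
        ∑ a ∈ act (l k) b, VV G β l w k (gl (l k) a b) * D0 (thc (l k) a) F := by
      symm
      apply Finset.sum_subset (Finset.subset_univ _)
      intro a _ ha
      have : gl (l k) a b = 0 := by
        by_contra h
        exact ha (mem_act.2 h)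
      rw [this, VV_zero_fun, zero_mul]
    rw [h1]
    abel

theorem VV_unfold (k : ℕ) (b : Tor L → ℂ) : VV G β l w k b = Sp G β b -
    ∑ j ∈ Finset.range k, (Complex.I * (w j : ℂ)) • TT G β l w j b := by
  induction k with
  | zero => simp [VV_zero]
  | succ k ih =>
    rw [VV_TT, ih, Finset.sum_range_succ]
    abel

/-- geometric series of the scales -/
theorem Scl.ratio (hS : Scl ρ l) (i j : ℕ) : 64 ^ j * l i ≤ l (i + j) := by
  induction j with
  | zero => simp
  | succ j ih =>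
    have := hS.step (i + j)
    rw [pow_succ, ← add_assoc]
    linarith

theorem Scl.ratio' (hS : Scl ρ l) {i n : ℕ} (h : i < n) : 64 * l i ≤ l n := by
  obtain ⟨j, rfl⟩ := Nat.exists_eq_add_of_lt h
  have h1 := hS.ratio i (j + 1)
  have h2 := hS.one i
  have h3 : (64 : ℝ) ≤ 64 ^ (j + 1) := by
    have : (1 : ℝ) ≤ 64 ^ j := one_le_pow₀ (by norm_num)
    rw [pow_succ]
    linarith
  have h4 := mul_le_mul_of_nonneg_right h3 (show 0 ≤ l i by linarith)
  rw [add_assoc]
  linarith

theorem Scl.sum_ratio (hS : Scl ρ l) (n : ℕ) :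
    ∑ i ∈ Finset.range n, l i / l n ≤ 1 / 63 := by
  induction n with
  | zero => simp
  | succ n ih =>
    rw [Finset.sum_range_succ]
    have h0 := hS.one n
    have h1 := hS.one (n + 1)
    have h2 := hS.step n
    have h3 : l n / l (n + 1) ≤ 1 / 64 := by
      rw [div_le_div_iff₀ (by linarith) (by norm_num)]
      linarith
    have h4 : ∑ i ∈ Finset.range n, l i / l (n + 1) = (l n / l (n + 1)) *
        ∑ i ∈ Finset.range n, l i / l n := by
      rw [Finset.mul_sum]
      refine Finset.sum_congr rfl fun i _ => ?_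
      have : l n ≠ 0 := by positivity
      have : l (n + 1) ≠ 0 := by positivity
      field_simp
    rw [h4]
    have h5 : 0 ≤ l n / l (n + 1) := by positivity
    have h6 := mul_le_mul h3 ih (Finset.sum_nonneg fun i _ => by
      have := hS.one i
      positivity) (by norm_num)
    linarith

/-- constant -/
def kX : ℝ := 3 * (864 * kB / kC + 221184 * kB ^ 2 / kC ^ 2)

theorem kX_pos : 0 < kX := by
  have := kB_pos
  have := kC_pos
  unfold kX
  positivity

/-- the fields applied to the multipliers -/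
theorem XX_mm (W : WFun G β Λ) (hG : Nice G β ρ K) (hK : 0 ≤ K) (hS : Scl ρ l) {i n : ℕ}
    {s : ℕ → ℝ} (hs : ∀ j < i, 0 ≤ s j) (hSS : ∀ j < i, SS W l w j (s j))
    (hw : ∀ j < i, 0 ≤ w j ∧ w j * √(s j) ≤ 1)
    {θ : Tor L → ℂ} (hθ : Lp (1 / l n) θ) (h2 : ∀ j ≤ i, 2 * l j < L) {b : Tor L → ℂ} {lam : ℝ}
    (hlam : 0 ≤ lam) (hb : Lp lam b) {a : Tor L} (ha : bl a (19 * l i) ⊆ Λ) :
    nrm W (XX G β l w i (gl (l i) a b) (mm G β θ (thc (l i) a))) ≤
      kX / 3 * K * (lam / l n) := by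
  have hi := hS.one i
  have hn := hS.one n
  have hi0 : 0 < l i := by linarith
  have hn0 : 0 < l n := by linarith
  have hkC := kC_pos
  have hkB := kB_pos
  have hcls := gl_cls hi hlam hb a
  rw [XX_unfold]
  refine (nrm_sub_le W _ _).trans ?_
  have h1 : nrm W (Dp (gl (l i) a b) (mm G β θ (thc (l i) a))) ≤
      864 * kB / kC * K * (lam / l n) := by
    refine (mm_Dp W hG hK hS hθ (h2 i le_rfl) a (M := 12 * lam * l i) (by positivity)
      (fun x => (hcls.bd x).trans (le_of_eq (by ring)))).trans (le_of_eq ?_)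
    field_simp
    ring
  have h3 : ∀ j ∈ Finset.range i, nrm W ((Complex.I * (w j : ℂ)) •
      ∑ a' ∈ act (l j) (gl (l i) a b), VV G β l w j (gl (l j) a' (gl (l i) a b)) *
        D0 (thc (l j) a') (mm G β θ (thc (l i) a))) ≤
      221184 * kB ^ 2 / kC ^ 2 * K * (lam / l n) * (l j / l i) := by
    intro j hj
    have hji := Finset.mem_range.1 hj
    have hj1 := hS.one j
    have hj0 : 0 < l j := by linarith
    have hrat := hS.ratio' hji
    have hsj := hs j hji
    obtain ⟨hw0, hw1⟩ := hw j hji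
    have hcard := act_card (R := 3 * l i) hj1 (by positivity) hcls.supp
    have hcard2 : ((act (l j) (gl (l i) a b)).card : ℝ) ≤ 64 * kB * l i ^ 2 := by
      refine hcard.trans ?_
      have h5 : (3 * l i + 3 * l j) ^ 2 ≤ (4 * l i) ^ 2 :=
        pow_le_pow_left₀ (by positivity) (by linarith) 2
      have := mul_le_mul_of_nonneg_left h5 (show 0 ≤ 4 * kB by positivity)
      linarith
    have hterm : ∀ a' ∈ act (l j) (gl (l i) a b),
        nrm W (VV G β l w j (gl (l j) a' (gl (l i) a b)) *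
        D0 (thc (l j) a') (mm G β θ (thc (l i) a))) ≤
        (72 * kB / kC ^ 2 * K / (l i ^ 3 * l n)) * (12 * √(s j) * (4 * lam * l j)) := by
      intro a' ha'
      rw [mul_comm]
      have hΛ' : bl a' (19 * l j) ⊆ Λ := by
        refine Set.Subset.trans ?_ ha
        intro x hx
        have h5 : tnorm (x - a') ≤ 19 * l j := hx
        have h6 := act_near hj1 hcls.supp ha'
        have := tri3 x a' a
        show tnorm (x - a) ≤ 19 * l i
        linarith
      have h7 := piece1 W hS hsj (hSS j hji) (lam := 4 * lam) (by positivity) hcls.lip hΛ'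
      refine (nrm_mul_le W _ _ (by positivity) fun σ hσ =>
        mm_D0 hG hK hS hθ (h2 i le_rfl) (h2 j hji.le) a a' hσ).trans ?_
      exact mul_le_mul_of_nonneg_left h7 (by positivity)
    rw [nrm_smul, norm_mul, Complex.norm_I, one_mul, Complex.norm_real, Real.norm_of_nonneg hw0]
    have hsum : nrm W (∑ a' ∈ act (l j) (gl (l i) a b),
        VV G β l w j (gl (l j) a' (gl (l i) a b)) *
        D0 (thc (l j) a') (mm G β θ (thc (l i) a))) ≤
        (64 * kB * l i ^ 2) *
        ((72 * kB / kC ^ 2 * K / (l i ^ 3 * l n)) * (12 * √(s j) * (4 * lam * l j))) := by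
      refine (nrm_sum_le W _ _).trans ?_
      refine (Finset.sum_le_card_nsmul _ _ _ hterm).trans ?_
      rw [nsmul_eq_mul]
      exact mul_le_mul_of_nonneg_right hcard2 (by positivity)
    calc w j * nrm W (∑ a' ∈ act (l j) (gl (l i) a b),
        VV G β l w j (gl (l j) a' (gl (l i) a b)) *
        D0 (thc (l j) a') (mm G β θ (thc (l i) a)))
        ≤ w j * ((64 * kB * l i ^ 2) *
        ((72 * kB / kC ^ 2 * K / (l i ^ 3 * l n)) * (12 * √(s j) * (4 * lam * l j)))) :=
          mul_le_mul_of_nonneg_left hsum hw0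
      _ = (w j * √(s j)) * (221184 * kB ^ 2 / kC ^ 2 * K * (lam / l n) * (l j / l i)) := by
          field_simp
          ring
      _ ≤ 1 * (221184 * kB ^ 2 / kC ^ 2 * K * (lam / l n) * (l j / l i)) :=
          mul_le_mul_of_nonneg_right hw1 (by positivity)
      _ = _ := one_mul _
  have h4 : nrm W (∑ j ∈ Finset.range i, (Complex.I * (w j : ℂ)) •
      ∑ a' ∈ act (l j) (gl (l i) a b), VV G β l w j (gl (l j) a' (gl (l i) a b)) *
        D0 (thc (l j) a') (mm G β θ (thc (l i) a))) ≤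
      221184 * kB ^ 2 / kC ^ 2 * K * (lam / l n) := by
    refine (nrm_sum_le W _ _).trans ((Finset.sum_le_sum h3).trans ?_)
    rw [← Finset.mul_sum]
    have h5 := hS.sum_ratio i
    have h6 : 0 ≤ 221184 * kB ^ 2 / kC ^ 2 * K * (lam / l n) := by positivity
    nlinarith
  have h5 : kX / 3 * K * (lam / l n) = 864 * kB / kC * K * (lam / l n) +
      221184 * kB ^ 2 / kC ^ 2 * K * (lam / l n) := by
    unfold kX
    ring
  rw [h5]
  exact add_le_add h1 h4

end Pool.Agent.H12.MG
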