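import Pool.Graph.R_seed8.Y13.QM.Main

/-!
# Renormalised scores for two-dimensional O(N) models: complex algebra

Complex polynomials in three components of the spins, infinitesimal rotations, the energy and
the complex conjugation.
-/

set_option autoImplicit false
set_option linter.unusedSectionVars false

noncomputable section

namespace Pool.Agent.H12.MG

open MvPolynomial Pool.Agent.H717R2.ON3

/-- Complex polynomials in the three components of the spins. -/
abbrev CA (V : Type) : Type := MvPolynomial (V × Fin 3) ℂ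

section basic

variable {V : Type} [DecidableEq V]

/-- Infinitesimal rotation of the spin at `x` about the axis `g`. -/
def DD (x : V) (g : Fin 3) : Derivation ℂ (CA V) (CA V) :=
  mkDerivation ℂ fun i : V × Fin 3 =>
    if i.1 = x then
      (if i.2 = g + 1 then -X (x, g + 2) else if i.2 = g + 2 then X (x, g + 1) else 0)
    else 0

/-- inclusion of the real polynomials -/
def ic : Alg V →+* CA V := MvPolynomial.map (algebraMap ℝ ℂ)

/-- complex conjugation of the coefficients -/
def cj : CA V →+* CA V := MvPolynomial.map (starRingEnd ℂ)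

/-- evaluation at a real point -/
def ev (σ : V × Fin 3 → ℝ) : CA V →+* ℂ := eval (fun i => (σ i : ℂ))

theorem DD_X (x : V) (g : Fin 3) (i : V × Fin 3) :
    DD x g (X i : CA V) = if i.1 = x then
      (if i.2 = g + 1 then -X (x, g + 2) else if i.2 = g + 2 then X (x, g + 1) else 0)
    else 0 := mkDerivation_X _ _ _

theorem ic_X (i : V × Fin 3) : ic (X i : Alg V) = X i := map_X _ _

theorem ic_C (c : ℝ) : ic (C c : Alg V) = C (c : ℂ) := map_C _ _

theorem cj_X (i : V × Fin 3) : cj (X i : CA V) = X i := map_X _ _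

theorem cj_C (c : ℂ) : cj (C c : CA V) = C (starRingEnd ℂ c) := map_C _ _

theorem cj_cj (F : CA V) : cj (cj F) = F := by
  unfold cj
  rw [MvPolynomial.map_map]
  have : (starRingEnd ℂ).comp (starRingEnd ℂ) = RingHom.id ℂ := by
    ext z; simp
  rw [this, MvPolynomial.map_id]

theorem cj_smul (c : ℂ) (F : CA V) : cj (c • F) = starRingEnd ℂ c • cj F := by
  rw [smul_eq_C_mul, map_mul, cj_C, smul_eq_C_mul]

theorem ic_smul (c : ℝ) (F : Alg V) : ic (c • F) = (c : ℂ) • ic F := by
  rw [smul_eq_C_mul, map_mul, ic_C, smul_eq_C_mul]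

theorem cj_ic (F : Alg V) : cj (ic F) = ic F := by
  unfold cj ic
  rw [MvPolynomial.map_map]
  have : (starRingEnd ℂ).comp (algebraMap ℝ ℂ) = algebraMap ℝ ℂ := by
    ext z; simp
  rw [this]

theorem ev_X (σ : V × Fin 3 → ℝ) (i : V × Fin 3) : ev σ (X i) = (σ i : ℂ) := eval_X _

theorem ev_cj (σ : V × Fin 3 → ℝ) (F : CA V) : ev σ (cj F) = starRingEnd ℂ (ev σ F) := by
  induction F using MvPolynomial.induction_on with
  | C a => simp [ev, cj_C]
  | add p q hp hq => rw [map_add, map_add, hp, hq, map_add, map_add]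
  | mul_X p i hp => rw [map_mul, map_mul, hp, cj_X, map_mul, map_mul, ev_X, Complex.conj_ofReal]

theorem ev_ic (σ : V × Fin 3 → ℝ) (F : Alg V) : ev σ (ic F) = ((eval σ F : ℝ) : ℂ) := by
  induction F using MvPolynomial.induction_on with
  | C a => simp [ev, ic_C]
  | add p q hp hq => rw [map_add, map_add, hp, hq, map_add, Complex.ofReal_add]
  | mul_X p i hp =>
    rw [map_mul, map_mul, hp, ic_X, map_mul, ev_X, eval_X, Complex.ofReal_mul]

theorem ev_smul (σ : V × Fin 3 → ℝ) (c : ℂ) (F : CA V) : ev σ (c • F) = c * ev σ F := by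
  rw [smul_eq_C_mul, map_mul]
  congr 1
  exact eval_C _

theorem cj_DD (x : V) (g : Fin 3) (F : CA V) : cj (DD x g F) = DD x g (cj F) := by
  induction F using MvPolynomial.induction_on with
  | C a => simp [cj_C, ← algebraMap_eq]
  | add p q hp hq => simp only [map_add, hp, hq]
  | mul_X p i hp =>
    rw [Derivation.leibniz, map_add, smul_eq_mul, smul_eq_mul, map_mul, map_mul, hp, cj_X,
      map_mul, Derivation.leibniz, smul_eq_mul, smul_eq_mul, cj_X]
    congr 2
    rw [DD_X]
    split_ifs <;> simp [cj_X]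

theorem ic_D (x : V) (g : Fin 3) (F : Alg V) : ic (D x g F) = DD x g (ic F) := by
  induction F using MvPolynomial.induction_on with
  | C a => simp [ic_C, ← algebraMap_eq]
  | add p q hp hq => simp only [map_add, hp, hq]
  | mul_X p i hp =>
    rw [Derivation.leibniz, map_add, smul_eq_mul, smul_eq_mul, map_mul, map_mul, hp, ic_X,
      map_mul, Derivation.leibniz, smul_eq_mul, smul_eq_mul, ic_X]
    congr 2
    rw [DD_X, D_X]
    split_ifs <;> simp [ic_X]

theorem der_ext {d d' : Derivation ℂ (CA V) (CA V)} (h : ∀ i, d (X i) = d' (X i)) : d = d' :=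
  MvPolynomial.derivation_ext h

/-- the raising combination -/
def Pp (x : V) : Derivation ℂ (CA V) (CA V) := DD x 1 + Complex.I • DD x 2

theorem Pp_apply (x : V) (F : CA V) : Pp x F = DD x 1 F + Complex.I • DD x 2 F := rfl

/-- `z_x` -/
def zz (x : V) : CA V := X (x, 0)

/-- `u_x` -/
def uu (x : V) : CA V := X (x, 1) + Complex.I • X (x, 2)

theorem Pp_X0 (x : V) : Pp x (X (x, 0) : CA V) = -(Complex.I • uu x) := by
  rw [Pp_apply, DD_X, DD_X]
  simp only [if_true]
  rw [if_neg (by decide), if_pos (by decide), if_pos (by decide)]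
  have h1 : (1 : Fin 3) + 1 = 2 := by decide
  have h2 : (2 : Fin 3) + 2 = 1 := by decide
  rw [h1, h2, uu, smul_add, smul_smul, Complex.I_mul_I, smul_neg, neg_smul, one_smul]
  abel

theorem Pp_X1 (x : V) : Pp x (X (x, 1) : CA V) = Complex.I • zz x := by
  rw [Pp_apply, DD_X, DD_X]
  simp only [if_true]
  rw [if_neg (by decide), if_neg (by decide), if_neg (by decide), if_pos (by decide)]
  have h1 : (2 : Fin 3) + 1 = 0 := by decide
  rw [h1, zero_add, zz]

theorem Pp_X2 (x : V) : Pp x (X (x, 2) : CA V) = -zz x := by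
  rw [Pp_apply, DD_X, DD_X]
  simp only [if_true]
  rw [if_pos (by decide), if_neg (by decide), if_neg (by decide)]
  have h1 : (1 : Fin 3) + 2 = 0 := by decide
  rw [h1, zz, smul_zero, add_zero]

theorem DD0_X0 (x : V) : DD x 0 (X (x, 0) : CA V) = 0 := by
  rw [DD_X]
  simp only [if_true]
  rw [if_neg (by decide), if_neg (by decide)]

theorem DD0_X1 (x : V) : DD x 0 (X (x, 1) : CA V) = -X (x, 2) := by
  rw [DD_X]
  simp only [if_true]
  rw [if_pos (by decide)]
  rfl

theorem DD0_X2 (x : V) : DD x 0 (X (x, 2) : CA V) = X (x, 1) := by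
  rw [DD_X]
  simp only [if_true]
  rw [if_neg (by decide), if_pos (by decide)]
  rfl

theorem DD_ne {x y : V} (h : y ≠ x) (g i : Fin 3) : DD x g (X (y, i) : CA V) = 0 := by
  rw [DD_X, if_neg h]

theorem Pp_ne {x y : V} (h : y ≠ x) (i : Fin 3) : Pp x (X (y, i) : CA V) = 0 := by
  rw [Pp_apply, DD_ne h, DD_ne h, smul_zero, add_zero]

theorem DD0_uu (x : V) : DD x 0 (uu x) = Complex.I • uu x := by
  rw [uu, map_add, Derivation.map_smul, DD0_X1, DD0_X2, smul_add, smul_smul, Complex.I_mul_I,
    neg_smul, one_smul]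
  abel

/-- commutator of two derivations -/
theorem comm_ext {d d' e : Derivation ℂ (CA V) (CA V)}
    (h : ∀ i, d (d' (X i)) - d' (d (X i)) = e (X i)) (F : CA V) :
    d (d' F) - d' (d F) = e F := by
  have h1 : ⁅d, d'⁆ = e := by
    apply MvPolynomial.derivation_ext
    intro i
    rw [Derivation.commutator_apply]
    exact h i
  rw [← h1, Derivation.commutator_apply]

theorem fin3_cases (i : Fin 3) : i = 0 ∨ i = 1 ∨ i = 2 := by
  fin_cases i <;> simp

theorem DD0_comm (x y : V) (F : CA V) : DD x 0 (DD y 0 F) = DD y 0 (DD x 0 F) := by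
  rw [← sub_eq_zero]
  refine (comm_ext (e := 0) (fun i => ?_) F).trans rfl
  obtain ⟨z, i⟩ := i
  by_cases hy : z = y
  · by_cases hx : z = x
    · subst hy; subst hx; simp
    · subst hy
      rw [DD_ne hx]
      rcases fin3_cases i with rfl | rfl | rfl
      · simp [DD0_X0]
      · simp [DD0_X1, DD_ne hx]
      · simp [DD0_X2, DD_ne hx]
  · by_cases hx : z = x
    · subst hx
      rw [DD_ne hy]
      rcases fin3_cases i with rfl | rfl | rfl
      · simp [DD0_X0]
      · simp [DD0_X1, DD_ne hy]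
      · simp [DD0_X2, DD_ne hy]
    · simp [DD_ne hy, DD_ne hx]

theorem DD0_Pp (x y : V) (F : CA V) :
    DD x 0 (Pp y F) - Pp y (DD x 0 F) = if x = y then Complex.I • Pp y F else 0 := by
  by_cases hxy : x = y
  · subst hxy
    rw [if_pos rfl]
    refine (comm_ext (e := Complex.I • Pp x) (fun i => ?_) F).trans rfl
    obtain ⟨z, i⟩ := i
    show _ = Complex.I • Pp x (X (z, i))
    by_cases hx : z = x
    · subst hx
      rcases fin3_cases i with rfl | rfl | rfl
      · rw [Pp_X0, DD0_X0, map_neg, Derivation.map_smul, DD0_uu, map_zero, sub_zero, smul_neg]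
      · rw [Pp_X1, DD0_X1, Derivation.map_smul, zz, DD0_X0, map_neg, Pp_X2, zz, smul_smul,
          Complex.I_mul_I]
        simp
      · rw [Pp_X2, DD0_X2, zz, map_neg, DD0_X0, Pp_X1, zz, smul_neg]
        simp
    · simp [DD_ne hx, Pp_ne hx]
  · rw [if_neg hxy]
    refine (comm_ext (e := 0) (fun i => ?_) F).trans rfl
    obtain ⟨z, i⟩ := i
    by_cases hy : z = y
    · subst hy
      have hx : z ≠ x := fun h => hxy h.symm
      rw [DD_ne hx]
      rcases fin3_cases i with rfl | rfl | rfl
      · simp [Pp_X0, uu, DD_ne hx]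
      · simp [Pp_X1, zz, DD_ne hx]
      · simp [Pp_X2, zz, DD_ne hx]
    · by_cases hx : z = x
      · subst hx
        rw [Pp_ne hy]
        rcases fin3_cases i with rfl | rfl | rfl
        · simp [DD0_X0]
        · simp [DD0_X1, Pp_ne hy]
        · simp [DD0_X2, Pp_ne hy]
      · simp [DD_ne hx, Pp_ne hy]

end basic

section rot

variable {V : Type} [Fintype V] [DecidableEq V]

/-- Rotation field `θ` about the axis `0`. -/
def D0 (θ : V → ℂ) : Derivation ℂ (CA V) (CA V) := ∑ x, θ x • DD x 0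

/-- Raising rotation field `b`. -/
def Dp (b : V → ℂ) : Derivation ℂ (CA V) (CA V) := ∑ x, b x • Pp x

theorem D0_apply (θ : V → ℂ) (F : CA V) : D0 θ F = ∑ x, θ x • DD x 0 F := by
  unfold D0
  rw [← Derivation.coeFnAddMonoidHom_apply, map_sum, Finset.sum_apply]
  rfl

theorem Dp_apply (b : V → ℂ) (F : CA V) : Dp b F = ∑ x, b x • Pp x F := by
  unfold Dp
  rw [← Derivation.coeFnAddMonoidHom_apply, map_sum, Finset.sum_apply]
  rfl

theorem D0_comm (θ θ' : V → ℂ) (F : CA V) : D0 θ (D0 θ' F) = D0 θ' (D0 θ F) := by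
  simp only [D0_apply, map_sum, Derivation.map_smul, Finset.smul_sum]
  rw [Finset.sum_comm]
  refine Finset.sum_congr rfl fun x _ => Finset.sum_congr rfl fun y _ => ?_
  rw [DD0_comm, smul_comm]

theorem D0_Dp (θ b : V → ℂ) (F : CA V) :
    D0 θ (Dp b F) - Dp b (D0 θ F) = Complex.I • Dp (fun x => θ x * b x) F := by
  simp only [D0_apply, Dp_apply, map_sum, Derivation.map_smul, Finset.smul_sum]
  rw [Finset.sum_comm (f := fun x y => θ x • b y • Pp y (DD x 0 F)), ← Finset.sum_sub_distrib]
  refine Finset.sum_congr rfl fun x _ => ?_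
  rw [← Finset.sum_sub_distrib]
  have h : ∀ y, b x • θ y • DD y 0 (Pp x F) - θ y • b x • Pp x (DD y 0 F) =
      if y = x then Complex.I • (θ x * b x) • Pp x F else 0 := by
    intro y
    rw [smul_comm (b x) (θ y), ← smul_sub, ← smul_sub, DD0_Pp]
    by_cases hxy : y = x
    · subst hxy
      rw [if_pos rfl, if_pos rfl, smul_smul, smul_comm]
    · rw [if_neg hxy, if_neg hxy, smul_zero, smul_zero]
  simp only [h, Finset.sum_ite_eq', Finset.mem_univ, if_true]

theorem cj_D0 (θ : V → ℂ) (hθ : ∀ x, starRingEnd ℂ (θ x) = θ x) (F : CA V) :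
    cj (D0 θ F) = D0 θ (cj F) := by
  simp only [D0_apply, map_sum, cj_smul, hθ, cj_DD]

variable {ι : Type} [Fintype ι]

/-- The scalar product over the edge `e`. -/
def he (G : Gr V ι) (e : ι) : CA V :=
  X (G.s e, 0) * X (G.t e, 0) + X (G.s e, 1) * X (G.t e, 1) + X (G.s e, 2) * X (G.t e, 2)

/-- The energy. -/
def HH (G : Gr V ι) (β : ℝ) : CA V := (β : ℂ) • ∑ e, he G e

/-- in-plane current -/
def qq (G : Gr V ι) (e : ι) : CA V :=
  X (G.s e, 1) * X (G.t e, 2) - X (G.s e, 2) * X (G.t e, 1)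

/-- in-plane scalar product -/
def pp (G : Gr V ι) (e : ι) : CA V :=
  X (G.s e, 1) * X (G.t e, 1) + X (G.s e, 2) * X (G.t e, 2)

/-- the score of `D0 θ` -/
def S0 (G : Gr V ι) (β : ℝ) (θ : V → ℂ) : CA V := -D0 θ (HH G β)

/-- the score of `Dp b` -/
def Sp (G : Gr V ι) (β : ℝ) (b : V → ℂ) : CA V := -Dp b (HH G β)

end rot

end Pool.Agent.H12.MG
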