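import Pool.Agent.H12.MG.Cx

/-! # Edge formulas, scores, locality -/

set_option autoImplicit false
set_option linter.unusedSectionVars false

noncomputable section

namespace Pool.Agent.H12.MG

open MvPolynomial Pool.Agent.H717R2.ON3

section

variable {V : Type} [Fintype V] [DecidableEq V]

theorem D0_X0 (θ : V → ℂ) (y : V) : D0 θ (X (y, 0) : CA V) = 0 := by
  rw [D0_apply]
  refine Finset.sum_eq_zero fun x _ => ?_
  by_cases h : y = x
  · subst h; rw [DD0_X0, smul_zero]
  · rw [DD_ne h, smul_zero]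

theorem D0_X1 (θ : V → ℂ) (y : V) : D0 θ (X (y, 1) : CA V) = -(θ y • X (y, 2)) := by
  rw [D0_apply, Finset.sum_eq_single y]
  · rw [DD0_X1, smul_neg]
  · intro x _ hx
    rw [DD_ne (Ne.symm hx), smul_zero]
  · intro h; exact absurd (Finset.mem_univ _) h

theorem D0_X2 (θ : V → ℂ) (y : V) : D0 θ (X (y, 2) : CA V) = θ y • X (y, 1) := by
  rw [D0_apply, Finset.sum_eq_single y]
  · rw [DD0_X2]
  · intro x _ hx
    rw [DD_ne (Ne.symm hx), smul_zero]
  · intro h; exact absurd (Finset.mem_univ _) h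

theorem Dp_X0 (b : V → ℂ) (y : V) : Dp b (X (y, 0) : CA V) = -((b y * Complex.I) • uu y) := by
  rw [Dp_apply, Finset.sum_eq_single y]
  · rw [Pp_X0, smul_neg, smul_smul]
  · intro x _ hx
    rw [Pp_ne (Ne.symm hx), smul_zero]
  · intro h; exact absurd (Finset.mem_univ _) h

theorem Dp_X1 (b : V → ℂ) (y : V) : Dp b (X (y, 1) : CA V) = (b y * Complex.I) • zz y := by
  rw [Dp_apply, Finset.sum_eq_single y]
  · rw [Pp_X1, smul_smul]
  · intro x _ hx
    rw [Pp_ne (Ne.symm hx), smul_zero]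
  · intro h; exact absurd (Finset.mem_univ _) h

theorem Dp_X2 (b : V → ℂ) (y : V) : Dp b (X (y, 2) : CA V) = -(b y • zz y) := by
  rw [Dp_apply, Finset.sum_eq_single y]
  · rw [Pp_X2, smul_neg]
  · intro x _ hx
    rw [Pp_ne (Ne.symm hx), smul_zero]
  · intro h; exact absurd (Finset.mem_univ _) h

variable {ι : Type} [Fintype ι]

/-- `z_s u_t - z_t u_s` -/
def kk (G : Gr V ι) (e : ι) : CA V := zz (G.s e) * uu (G.t e) - zz (G.t e) * uu (G.s e)

theorem C_I_sq : (C Complex.I : CA V) * C Complex.I = -1 := by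
  rw [← C_mul, Complex.I_mul_I]
  simp

theorem D0_he (G : Gr V ι) (θ : V → ℂ) (e : ι) :
    D0 θ (he G e) = (θ (G.s e) - θ (G.t e)) • qq G e := by
  unfold he qq
  simp only [map_add, Derivation.leibniz, D0_X0, D0_X1, D0_X2, smul_eq_mul, smul_eq_C_mul, map_sub]
  ring

theorem D0_pp (G : Gr V ι) (θ : V → ℂ) (e : ι) :
    D0 θ (pp G e) = (θ (G.s e) - θ (G.t e)) • qq G e := by
  unfold pp qq
  simp only [map_add, Derivation.leibniz, D0_X1, D0_X2, smul_eq_mul, smul_eq_C_mul, map_sub]
  ring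

theorem D0_qq (G : Gr V ι) (θ : V → ℂ) (e : ι) :
    D0 θ (qq G e) = (θ (G.t e) - θ (G.s e)) • pp G e := by
  unfold pp qq
  simp only [map_sub, Derivation.leibniz, D0_X1, D0_X2, smul_eq_mul, smul_eq_C_mul]
  ring

theorem Dp_he (G : Gr V ι) (b : V → ℂ) (e : ι) :
    Dp b (he G e) = ((b (G.s e) - b (G.t e)) * Complex.I) • kk G e := by
  unfold he kk
  simp only [map_add, Derivation.leibniz, Dp_X0, Dp_X1, Dp_X2, smul_eq_mul, smul_eq_C_mul,
    map_sub, map_mul, uu, zz]
  linear_combination (C (b (G.s e)) * X (G.s e, 0) * X (G.t e, 2) +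
    C (b (G.t e)) * X (G.t e, 0) * X (G.s e, 2) + 0) * (C_I_sq (V := V)) * (-1)

theorem Dp_pp (G : Gr V ι) (b : V → ℂ) (e : ι) :
    Dp b (pp G e) = (b (G.s e) * Complex.I) • (zz (G.s e) * uu (G.t e)) +
      (b (G.t e) * Complex.I) • (zz (G.t e) * uu (G.s e)) := by
  unfold pp
  simp only [map_add, Derivation.leibniz, Dp_X1, Dp_X2, smul_eq_mul, smul_eq_C_mul,
    map_mul, uu, zz]
  linear_combination (C (b (G.s e)) * X (G.s e, 0) * X (G.t e, 2) +
    C (b (G.t e)) * X (G.t e, 0) * X (G.s e, 2) + 0) * (C_I_sq (V := V)) * (-1)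

theorem Dp_qq (G : Gr V ι) (b : V → ℂ) (e : ι) :
    Dp b (qq G e) = b (G.s e) • (zz (G.s e) * uu (G.t e)) -
      b (G.t e) • (zz (G.t e) * uu (G.s e)) := by
  unfold qq
  simp only [map_sub, Derivation.leibniz, Dp_X1, Dp_X2, smul_eq_mul, smul_eq_C_mul,
    map_mul, uu, zz]
  ring

theorem S0_eq (G : Gr V ι) (β : ℝ) (θ : V → ℂ) :
    S0 G β θ = ∑ e, ((β : ℂ) * (θ (G.t e) - θ (G.s e))) • qq G e := by
  unfold S0 HH
  rw [Derivation.map_smul, map_sum, ← smul_neg, ← Finset.sum_neg_distrib, Finset.smul_sum]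
  refine Finset.sum_congr rfl fun e _ => ?_
  rw [D0_he, ← neg_smul, smul_smul]
  congr 1
  ring

theorem Sp_eq (G : Gr V ι) (β : ℝ) (b : V → ℂ) :
    Sp G β b = ∑ e, ((β : ℂ) * (b (G.t e) - b (G.s e)) * Complex.I) • kk G e := by
  unfold Sp HH
  rw [Derivation.map_smul, map_sum, ← smul_neg, ← Finset.sum_neg_distrib, Finset.smul_sum]
  refine Finset.sum_congr rfl fun e _ => ?_
  rw [Dp_he, ← neg_smul, smul_smul]
  congr 1
  ring

theorem D0_S0 (G : Gr V ι) (β : ℝ) (θ' θ : V → ℂ) :
    D0 θ' (S0 G β θ) = ∑ e, ((β : ℂ) * (θ (G.t e) - θ (G.s e)) * (θ' (G.t e) - θ' (G.s e))) •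
      pp G e := by
  rw [S0_eq, map_sum]
  refine Finset.sum_congr rfl fun e _ => ?_
  rw [Derivation.map_smul, D0_qq, smul_smul]

theorem D0_const_HH (G : Gr V ι) (β : ℝ) (c : ℂ) : D0 (fun _ => c) (HH G β) = 0 := by
  unfold HH
  rw [Derivation.map_smul, map_sum, Finset.sum_eq_zero, smul_zero]
  intro e _
  rw [D0_he, sub_self, zero_smul]

theorem Dp_const_HH (G : Gr V ι) (β : ℝ) (c : ℂ) : Dp (fun _ => c) (HH G β) = 0 := by
  unfold HH
  rw [Derivation.map_smul, map_sum, Finset.sum_eq_zero, smul_zero]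
  intro e _
  rw [Dp_he, sub_self, zero_mul, zero_smul]

theorem Dp_smul_fun (c : ℂ) (b : V → ℂ) : Dp (c • b) = c • Dp b := by
  unfold Dp
  rw [Finset.smul_sum]
  refine Finset.sum_congr rfl fun x _ => ?_
  rw [smul_smul, Pi.smul_apply, smul_eq_mul]

theorem D0_smul_fun (c : ℂ) (b : V → ℂ) : D0 (c • b) = c • D0 b := by
  unfold D0
  rw [Finset.smul_sum]
  refine Finset.sum_congr rfl fun x _ => ?_
  rw [smul_smul, Pi.smul_apply, smul_eq_mul]

theorem D0_add_fun (b b' : V → ℂ) : D0 (b + b') = D0 b + D0 b' := by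
  unfold D0
  rw [← Finset.sum_add_distrib]
  refine Finset.sum_congr rfl fun x _ => ?_
  rw [Pi.add_apply, add_smul]

theorem Dp_add_fun (b b' : V → ℂ) : Dp (b + b') = Dp b + Dp b' := by
  unfold Dp
  rw [← Finset.sum_add_distrib]
  refine Finset.sum_congr rfl fun x _ => ?_
  rw [Pi.add_apply, add_smul]

/-- `Sp` is charged -/
theorem D0_one_Sp (G : Gr V ι) (β : ℝ) (b : V → ℂ) :
    D0 (fun _ => 1) (Sp G β b) = Complex.I • Sp G β b := by
  have h := D0_Dp (fun _ : V => (1 : ℂ)) b (HH G β)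
  rw [D0_const_HH, map_zero, sub_zero] at h
  simp only [one_mul] at h
  unfold Sp
  rw [map_neg, smul_neg]
  exact congrArg Neg.neg h

theorem D0_one_S0 (G : Gr V ι) (β : ℝ) (θ : V → ℂ) :
    D0 (fun _ => 1) (S0 G β θ) = 0 := by
  unfold S0
  rw [map_neg, D0_comm, D0_const_HH, map_zero, neg_zero]

theorem DD_HH (G : Gr V ι) (β : ℝ) (x : V) (g : Fin 3) :
    DD x g (HH G β) = -ic (S1 G β x g) := by
  unfold HH S1 Sc JJ
  rw [Derivation.map_smul, map_sum, map_sum, Finset.smul_sum, ← Finset.sum_neg_distrib]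
  refine Finset.sum_congr rfl fun e _ => ?_
  rw [ic_smul]
  have key : DD x g (he G e) = -((grad G (Pi.single x 1) e : ℝ) : ℂ) • ic (cur G e g) := by
    unfold he grad cur
    simp only [map_add, map_sub, map_mul, ic_X, Derivation.leibniz, smul_eq_mul, DD_X,
      Pi.single_apply]
    by_cases hs : G.s e = x
    · by_cases ht : G.t e = x
      · rw [hs, ht]
        simp only [if_true]
        rcases fin3_cases g with rfl | rfl | rfl
        · simp only [show (0 : Fin 3) + 1 = 1 by decide, show (0 : Fin 3) + 2 = 2 by decide]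
          simp
          ring
        · simp only [show (1 : Fin 3) + 1 = 2 by decide, show (1 : Fin 3) + 2 = 0 by decide]
          simp
          ring
        · simp only [show (2 : Fin 3) + 1 = 0 by decide, show (2 : Fin 3) + 2 = 1 by decide]
          simp
          ring
      · rw [hs]
        simp only [if_true, if_neg ht]
        rcases fin3_cases g with rfl | rfl | rfl
        · simp only [show (0 : Fin 3) + 1 = 1 by decide, show (0 : Fin 3) + 2 = 2 by decide]
          simp
          ring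
        · simp only [show (1 : Fin 3) + 1 = 2 by decide, show (1 : Fin 3) + 2 = 0 by decide]
          simp
          ring
        · simp only [show (2 : Fin 3) + 1 = 0 by decide, show (2 : Fin 3) + 2 = 1 by decide]
          simp
          ring
    · by_cases ht : G.t e = x
      · rw [ht]
        simp only [if_true, if_neg hs]
        rcases fin3_cases g with rfl | rfl | rfl
        · simp only [show (0 : Fin 3) + 1 = 1 by decide, show (0 : Fin 3) + 2 = 2 by decide]
          simp
          ring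
        · simp only [show (1 : Fin 3) + 1 = 2 by decide, show (1 : Fin 3) + 2 = 0 by decide]
          simp
          ring
        · simp only [show (2 : Fin 3) + 1 = 0 by decide, show (2 : Fin 3) + 2 = 1 by decide]
          simp
          ring
      · simp [if_neg hs, if_neg ht]
  rw [key]
  simp only [neg_smul, smul_neg, smul_smul]
  push_cast
  rfl

end

end Pool.Agent.H12.MG
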