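import Pool.Agent.H12.MG.Cauchy

/-! # The recursion for the renormalised scores -/

set_option autoImplicit false
set_option linter.unusedSectionVars false

noncomputable section

namespace Pool.Agent.H12.MG

open MvPolynomial Pool.Agent.H5R2.ON Pool.Agent.H717R2.ON3 Pool.Agent.H983R2.ONJ

variable {L : ℕ} [NeZero L] {ι : Type} [Fintype ι] (G : Gr (Tor L) ι) (β : ℝ)
  (l w : ℕ → ℝ)

/-- localisation of the function `b` at `a` (scale `r`) -/
def gl (r : ℝ) (a : Tor L) (b : Tor L → ℂ) : Tor L → ℂ := fun x => (tt r a x : ℂ) * (b x - b a)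

/-- partition of unity -/
def thc (r : ℝ) (a : Tor L) : Tor L → ℂ := cc (th r a)

/-- the renormalised scores -/
def VV : ℕ → (Tor L → ℂ) → CA (Tor L)
  | 0 => fun b => Sp G β b
  | k + 1 => fun b => VV k b -
      (Complex.I * (w k : ℂ)) • ∑ a, Ds G β (thc (l k) a) (VV k (gl (l k) a b))

/-- the renormalised fields -/
def XX : ℕ → (Tor L → ℂ) → Derivation ℂ (CA (Tor L)) (CA (Tor L))
  | 0 => fun b => Dp b
  | k + 1 => fun b => XX k b -
      (Complex.I * (w k : ℂ)) • ∑ a, (VV G β l w k (gl (l k) a b)) • D0 (thc (l k) a)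

theorem VV_zero (b : Tor L → ℂ) : VV G β l w 0 b = Sp G β b := rfl

theorem VV_succ (k : ℕ) (b : Tor L → ℂ) : VV G β l w (k + 1) b = VV G β l w k b -
      (Complex.I * (w k : ℂ)) •
        ∑ a, Ds G β (thc (l k) a) (VV G β l w k (gl (l k) a b)) := rfl

theorem XX_zero (b : Tor L → ℂ) (F : CA (Tor L)) : XX G β l w 0 b F = Dp b F := rfl

theorem XX_succ (k : ℕ) (b : Tor L → ℂ) (F : CA (Tor L)) : XX G β l w (k + 1) b F =
    XX G β l w k b F - (Complex.I * (w k : ℂ)) •
      ∑ a, VV G β l w k (gl (l k) a b) * D0 (thc (l k) a) F := by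
  show (XX G β l w k b - (Complex.I * (w k : ℂ)) •
    ∑ a, (VV G β l w k (gl (l k) a b)) • D0 (thc (l k) a)) F = _
  rw [Derivation.sub_apply, Derivation.smul_apply, sum_der_apply]
  rfl

theorem gl_add (r : ℝ) (a : Tor L) (b b' : Tor L → ℂ) : gl r a (b + b') = gl r a b + gl r a b' := by
  funext x
  simp only [gl, Pi.add_apply]
  ring

theorem gl_smul (r : ℝ) (a : Tor L) (c : ℂ) (b : Tor L → ℂ) : gl r a (c • b) = c • gl r a b := by
  funext x
  simp only [gl, Pi.smul_apply, smul_eq_mul]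
  ring

theorem gl_const (r : ℝ) (a : Tor L) (c : ℂ) : gl r a (fun _ => c) = 0 := by
  funext x
  simp only [gl, sub_self, mul_zero, Pi.zero_apply]

theorem Sp_add (b b' : Tor L → ℂ) : Sp G β (b + b') = Sp G β b + Sp G β b' := by
  unfold Sp
  rw [Dp_add_fun, Derivation.add_apply, neg_add]

theorem Sp_smul (c : ℂ) (b : Tor L → ℂ) : Sp G β (c • b) = c • Sp G β b := by
  unfold Sp
  rw [Dp_smul_fun, Derivation.smul_apply, smul_neg]

theorem VV_add (k : ℕ) : ∀ b b' : Tor L → ℂ,
    VV G β l w k (b + b') = VV G β l w k b + VV G β l w k b' := by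
  induction k with
  | zero => exact fun b b' => Sp_add G β b b'
  | succ k ih =>
    intro b b'
    rw [VV_succ, VV_succ, VV_succ, ih]
    have : ∑ a, Ds G β (thc (l k) a) (VV G β l w k (gl (l k) a (b + b'))) =
        ∑ a, Ds G β (thc (l k) a) (VV G β l w k (gl (l k) a b)) +
        ∑ a, Ds G β (thc (l k) a) (VV G β l w k (gl (l k) a b')) := by
      rw [← Finset.sum_add_distrib]
      refine Finset.sum_congr rfl fun a _ => ?_
      rw [gl_add, ih, Ds_add]
    rw [this, smul_add]
    abel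

theorem VV_smul (k : ℕ) : ∀ (c : ℂ) (b : Tor L → ℂ),
    VV G β l w k (c • b) = c • VV G β l w k b := by
  induction k with
  | zero => exact fun c b => Sp_smul G β c b
  | succ k ih =>
    intro c b
    rw [VV_succ, VV_succ, ih, smul_sub, smul_comm c]
    congr 2
    rw [Finset.smul_sum]
    refine Finset.sum_congr rfl fun a _ => ?_
    rw [gl_smul, ih, Ds_smul]

theorem VV_zero_fun (k : ℕ) : VV G β l w k 0 = 0 := by
  have h := VV_smul G β l w k 0 0
  rw [zero_smul, zero_smul] at h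
  exact h

theorem VV_sub (k : ℕ) (b b' : Tor L → ℂ) :
    VV G β l w k (b - b') = VV G β l w k b - VV G β l w k b' := by
  have h := VV_add G β l w k (b - b') b'
  rw [sub_add_cancel] at h
  rw [h]
  abel

theorem XX_add (k : ℕ) (b b' : Tor L → ℂ) (F : CA (Tor L)) :
    XX G β l w k (b + b') F = XX G β l w k b F + XX G β l w k b' F := by
  induction k with
  | zero => rw [XX_zero, XX_zero, XX_zero, Dp_add_fun, Derivation.add_apply]
  | succ k ih =>
    rw [XX_succ, XX_succ, XX_succ, ih]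
    have : ∑ a, VV G β l w k (gl (l k) a (b + b')) * D0 (thc (l k) a) F =
        ∑ a, VV G β l w k (gl (l k) a b) * D0 (thc (l k) a) F +
        ∑ a, VV G β l w k (gl (l k) a b') * D0 (thc (l k) a) F := by
      rw [← Finset.sum_add_distrib]
      refine Finset.sum_congr rfl fun a _ => ?_
      rw [gl_add, VV_add, add_mul]
    rw [this, smul_add]
    abel

theorem XX_smul (k : ℕ) (c : ℂ) (b : Tor L → ℂ) (F : CA (Tor L)) :
    XX G β l w k (c • b) F = c • XX G β l w k b F := by
  induction k with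
  | zero => rw [XX_zero, XX_zero, Dp_smul_fun, Derivation.smul_apply]
  | succ k ih =>
    rw [XX_succ, XX_succ, ih, smul_sub, smul_comm c]
    congr 2
    rw [Finset.smul_sum]
    refine Finset.sum_congr rfl fun a _ => ?_
    rw [gl_smul, VV_smul, smul_mul_assoc]

theorem VV_const (k : ℕ) (c : ℂ) : VV G β l w k (fun _ => c) = 0 := by
  induction k with
  | zero =>
    rw [VV_zero]
    unfold Sp
    rw [Dp_const_HH, neg_zero]
  | succ k ih =>
    rw [VV_succ, ih]
    simp only [gl_const, VV_zero_fun, Ds_zero, Finset.sum_const_zero, smul_zero, sub_zero]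

theorem XX_const (k : ℕ) (c : ℂ) (F : CA (Tor L)) :
    XX G β l w k (fun _ => c) F = Dp (fun _ => c) F := by
  induction k with
  | zero => rfl
  | succ k ih =>
    rw [XX_succ, ih]
    simp only [gl_const, VV_zero_fun, zero_mul, Finset.sum_const_zero, smul_zero, sub_zero]

theorem D0_one_Ds (θ : Tor L → ℂ) {F : CA (Tor L)} (hF : D0 (fun _ => 1) F = Complex.I • F) :
    D0 (fun _ => 1) (Ds G β θ F) = Complex.I • Ds G β θ F := by
  rw [D0_Ds, hF, Ds_smul, D0_one_S0, zero_mul, add_zero]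

theorem VV_charge (k : ℕ) : ∀ b : Tor L → ℂ,
    D0 (fun _ => 1) (VV G β l w k b) = Complex.I • VV G β l w k b := by
  induction k with
  | zero => exact fun b => D0_one_Sp G β b
  | succ k ih =>
    intro b
    rw [VV_succ, map_sub, Derivation.map_smul, map_sum, ih, smul_sub, smul_comm Complex.I]
    congr 2
    rw [Finset.smul_sum]
    refine Finset.sum_congr rfl fun a _ => ?_
    rw [D0_one_Ds G β _ (ih _)]

/-! ## Locality -/

/-- neighbourhoods -/
def thick (B : Set (Tor L)) (r : ℝ) : Set (Tor L) := {x | ∃ y ∈ B, tnorm (x - y) ≤ r}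

/-- balls as sets -/
def bl (a : Tor L) (r : ℝ) : Set (Tor L) := {x | tnorm (x - a) ≤ r}

theorem tri3 (x y z : Tor L) : tnorm (x - z) ≤ tnorm (x - y) + tnorm (y - z) := by
  have := tnorm_add_le (x - y) (y - z)
  rwa [sub_add_sub_cancel] at this

theorem thick_thick {B : Set (Tor L)} {r s : ℝ} : thick (thick B r) s ⊆ thick B (r + s) := by
  rintro x ⟨y, ⟨z, hz, hyz⟩, hxy⟩
  exact ⟨z, hz, (tri3 x y z).trans (by linarith)⟩

theorem thick_mono {B B' : Set (Tor L)} {r r' : ℝ} (h : B ⊆ B') (hr : r ≤ r') :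
    thick B r ⊆ thick B' r' := by
  rintro x ⟨y, hy, hxy⟩
  exact ⟨y, h hy, hxy.trans hr⟩

theorem thick_bl {a : Tor L} {r s : ℝ} : thick (bl a r) s ⊆ bl a (r + s) := by
  rintro x ⟨y, hy, hxy⟩
  have h1 : tnorm (y - a) ≤ r := hy
  show tnorm (x - a) ≤ r + s
  exact (tri3 x y a).trans (by linarith)

theorem subset_thick {B : Set (Tor L)} {r : ℝ} (hr : 0 ≤ r) : B ⊆ thick B r := by
  intro x hx
  refine ⟨x, hx, ?_⟩
  rw [sub_self, tnorm_zero]
  exact hr

/-- the radii -/
def rr (l : ℕ → ℝ) (ρ : ℝ) : ℕ → ℝ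
  | 0 => ρ
  | k + 1 => rr l ρ k + 6 * l k

theorem rr_succ (ρ : ℝ) (k : ℕ) : rr l ρ (k + 1) = rr l ρ k + 6 * l k := rfl

/-- function supported in a set -/
def Sp0 (B : Set (Tor L)) (b : Tor L → ℂ) : Prop := ∀ x, x ∉ B → b x = 0

variable {G β l w}

theorem Su_S0 {ρ K : ℝ} (hG : Nice G β ρ K) (hρ : 0 ≤ ρ) {B : Set (Tor L)} {θ : Tor L → ℂ}
    (hθ : Sp0 B θ) : Su (thick B ρ) (S0 G β θ) := by
  rw [S0_eq]
  refine Su.sum _ _ fun e _ => ?_
  by_cases h : G.s e ∈ thick B ρ ∧ G.t e ∈ thick B ρ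
  · refine Su.smul ?_ _
    unfold qq
    exact ((Su.X h.1 _).mul (Su.X h.2 _)).sub ((Su.X h.1 _).mul (Su.X h.2 _))
  · have hs : G.s e ∉ B := by
      intro hs
      apply h
      refine ⟨subset_thick hρ hs, G.s e, hs, hG.range e⟩
    have ht : G.t e ∉ B := by
      intro ht
      apply h
      refine ⟨⟨G.t e, ht, ?_⟩, subset_thick hρ ht⟩
      rw [tnorm_sub_comm]
      exact hG.range e
    rw [hθ _ hs, hθ _ ht, sub_self, mul_zero, zero_smul]
    exact Su.zero

theorem Su_Sp {ρ K : ℝ} (hG : Nice G β ρ K) (hρ : 0 ≤ ρ) {B : Set (Tor L)} {θ : Tor L → ℂ}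
    (hθ : Sp0 B θ) : Su (thick B ρ) (Sp G β θ) := by
  rw [Sp_eq]
  refine Su.sum _ _ fun e _ => ?_
  by_cases h : G.s e ∈ thick B ρ ∧ G.t e ∈ thick B ρ
  · refine Su.smul ?_ _
    unfold kk
    exact ((Su_zz h.1).mul (Su_uu h.2)).sub ((Su_zz h.2).mul (Su_uu h.1))
  · have hs : G.s e ∉ B := by
      intro hs
      apply h
      refine ⟨subset_thick hρ hs, G.s e, hs, hG.range e⟩
    have ht : G.t e ∉ B := by
      intro ht
      apply h
      refine ⟨⟨G.t e, ht, ?_⟩, subset_thick hρ ht⟩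
      rw [tnorm_sub_comm]
      exact hG.range e
    rw [hθ _ hs, hθ _ ht, sub_self, mul_zero, zero_mul, zero_smul]
    exact Su.zero

theorem thc_supp {r : ℝ} (hr : 1 ≤ r) (a : Tor L) : Sp0 (bl a r) (thc r a) := by
  intro x hx
  by_contra h
  apply hx
  apply th_supp hr
  intro h0
  apply h
  show ((th r a x : ℝ) : ℂ) = 0
  rw [h0, Complex.ofReal_zero]

theorem gl_supp {r : ℝ} (hr : 1 ≤ r) (a : Tor L) (b : Tor L → ℂ) :
    Sp0 (bl a (3 * r)) (gl r a b) := by
  intro x hx
  have h0 : tt r a x = 0 := by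
    by_contra h
    exact hx (tt_supp hr h)
  unfold gl
  rw [h0, Complex.ofReal_zero, zero_mul]

/-- if the localised function is not zero then the centre is near the support -/
theorem gl_ne {r : ℝ} (hr : 1 ≤ r) {B : Set (Tor L)} {b : Tor L → ℂ} (hb : Sp0 B b) {a : Tor L}
    (h : gl r a b ≠ 0) : a ∈ thick B (3 * r) := by
  by_contra hc
  apply h
  funext x
  have ha : b a = 0 := by
    apply hb
    intro ha
    exact hc (subset_thick (by linarith) ha)
  unfold gl
  rw [ha, sub_zero, Pi.zero_apply]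
  by_cases hx : x ∈ B
  · have h0 : tt r a x = 0 := by
      by_contra h1
      apply hc
      refine ⟨x, hx, ?_⟩
      rw [tnorm_sub_comm]
      exact tt_supp hr h1
    rw [h0, Complex.ofReal_zero, zero_mul]
  · rw [hb x hx, mul_zero]

theorem Su_Ds {A : Set (Tor L)} {θ : Tor L → ℂ} {F : CA (Tor L)} (hS : Su A (S0 G β θ))
    (hF : Su A F) : Su A (Ds G β θ F) := (hS.mul hF).sub (D0_Su hF θ)

theorem VV_Su {ρ K : ℝ} (hG : Nice G β ρ K) (hρ : 0 ≤ ρ) (hl : ∀ k, 1 ≤ l k) (k : ℕ) :
    ∀ (B : Set (Tor L)) (b : Tor L → ℂ), Sp0 B b → Su (thick B (rr l ρ k)) (VV G β l w k b) := by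
  have hrr : ∀ k, ρ ≤ rr l ρ k := by
    intro k
    induction k with
    | zero => exact le_refl _
    | succ k ih => rw [rr_succ]; linarith [hl k]
  induction k with
  | zero => exact fun B b hb => Su_Sp hG hρ hb
  | succ k ih =>
    intro B b hb
    have hk := hl k
    rw [VV_succ]
    refine Su.sub ((ih B b hb).mono (thick_mono (le_refl _) (by rw [rr_succ]; linarith)))
      (Su.smul (Su.sum _ _ fun a _ => ?_) _)
    by_cases h0 : gl (l k) a b = 0
    · rw [h0, VV_zero_fun, Ds_zero]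
      exact Su.zero
    · have ha := gl_ne hk hb h0
      obtain ⟨y, hy, hay⟩ := ha
      have h1 := ih _ _ (gl_supp hk a b)
      have h2 : Su (thick (bl a (3 * l k)) (rr l ρ k)) (S0 G β (thc (l k) a)) := by
        refine (Su_S0 hG hρ (thc_supp hk a)).mono (thick_mono ?_ (hrr k))
        intro x hx
        have : tnorm (x - a) ≤ l k := hx
        show tnorm (x - a) ≤ 3 * l k
        linarith
      refine (Su_Ds h2 h1).mono ?_
      rintro x ⟨z, hz, hxz⟩
      have hz' : tnorm (z - a) ≤ 3 * l k := hz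
      refine ⟨y, hy, ?_⟩
      have t1 := tri3 x z y
      have t2 := tri3 z a y
      rw [rr_succ]
      linarith

theorem XX_kill {ρ : ℝ} (hρ : 0 ≤ ρ) (hl : ∀ k, 1 ≤ l k) (k : ℕ) :
    ∀ (B A : Set (Tor L)) (b : Tor L → ℂ) (F : CA (Tor L)), Sp0 B b → Su A F →
      Disjoint A (thick B (rr l ρ k)) → XX G β l w k b F = 0 := by
  have hrr : ∀ k, ρ ≤ rr l ρ k := by
    intro k
    induction k with
    | zero => exact le_refl _
    | succ k ih => rw [rr_succ]; linarith [hl k]
  induction k with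
  | zero =>
    intro B A b F hb hF hAB
    rw [XX_zero]
    refine Dp_kill hF fun x hx => hb x fun hxB => ?_
    exact Set.disjoint_left.1 hAB hx (subset_thick (show 0 ≤ rr l ρ 0 from hρ) hxB)
  | succ k ih =>
    intro B A b F hb hF hAB
    have hk := hl k
    rw [XX_succ, ih B A b F hb hF (hAB.mono_right (thick_mono (le_refl _)
      (by rw [rr_succ]; linarith)))]
    rw [Finset.sum_eq_zero, smul_zero, sub_zero]
    intro a _
    by_cases h0 : gl (l k) a b = 0
    · rw [h0, VV_zero_fun, zero_mul]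
    · obtain ⟨y, hy, hay⟩ := gl_ne hk hb h0
      rw [D0_kill hF, mul_zero]
      intro x hx
      apply thc_supp hk a
      intro hxa
      have hxa' : tnorm (x - a) ≤ l k := hxa
      refine Set.disjoint_left.1 hAB hx ⟨y, hy, ?_⟩
      have t1 := tri3 x a y
      have := hrr k
      rw [rr_succ]
      linarith

/-- divergence identity -/
theorem XX_div {ρ : ℝ} (hρ : 0 ≤ ρ) (hl : ∀ k, 1 ≤ l k)
    {Λ : Finset (Tor L)} (W : WFun G β Λ) (k : ℕ) :
    ∀ (B : Set (Tor L)) (b : Tor L → ℂ), Sp0 B b → thick B (rr l ρ k) ⊆ Λ → ∀ F : CA (Tor L),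
      EC W (XX G β l w k b F) = EC W (VV G β l w k b * F) := by
  have hrr : ∀ k, ρ ≤ rr l ρ k := by
    intro k
    induction k with
    | zero => exact le_refl _
    | succ k ih => rw [rr_succ]; linarith [hl k]
  induction k with
  | zero =>
    intro B b hb hB F
    rw [XX_zero, VV_zero]
    refine EC_Dp W (fun x hx => hb x fun hxB => hx ?_) F
    exact hB (subset_thick hρ hxB)
  | succ k ih =>
    intro B b hb hB F
    have hk := hl k
    rw [XX_succ, VV_succ, sub_mul, map_sub, map_sub, smul_mul_assoc, map_smul, map_smul,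
      ih B b hb (Set.Subset.trans (thick_mono (le_refl _) (by rw [rr_succ]; linarith)) hB) F,
      Finset.sum_mul, map_sum, map_sum]
    congr 2
    refine Finset.sum_congr rfl fun a _ => ?_
    by_cases h0 : gl (l k) a b = 0
    · rw [h0, VV_zero_fun, zero_mul, Ds_zero, zero_mul]
    · obtain ⟨y, hy, hay⟩ := gl_ne hk hb h0
      have h1 := EC_D0 W (θ := thc (l k) a) (fun x hx => by
        apply thc_supp hk a
        intro hxa
        have hxa' : tnorm (x - a) ≤ l k := hxa
        apply hx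
        refine hB ⟨y, hy, ?_⟩
        have t1 := tri3 x a y
        have := hrr k
        rw [rr_succ]
        linarith) (VV G β l w k (gl (l k) a b) * F)
      rw [Derivation.leibniz, smul_eq_mul, smul_eq_mul, map_add] at h1
      unfold Ds
      rw [sub_mul, map_sub, mul_assoc, ← h1, mul_comm F]
      ring

end Pool.Agent.H12.MG
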