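import Pool.Agent.H12.MG.Fld

/-! # The gain of one step in a rotation invariant state -/

set_option autoImplicit false
set_option linter.unusedSectionVars false

noncomputable section

namespace Pool.Agent.H12.MG

open MvPolynomial Pool.Agent.H5R2.ON Pool.Agent.H717R2.ON3 Pool.Agent.H983R2.ONJ

variable {L : ℕ} [NeZero L] {ι : Type} [Fintype ι] {G : Gr (Tor L) ι} {β : ℝ}
  {l w : ℕ → ℝ}

theorem Dp_one_inv {Λ : Finset (Tor L)} (W : WFun G β Λ) (hW : Inv W) (c : ℂ)
    (F : CA (Tor L)) : EC W (Dp (fun _ => c) F) = 0 := by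
  have h1 : Dp (fun _ : Tor L => c) F = c • (∑ x, DD x 1 F + Complex.I • ∑ x, DD x 2 F) := by
    rw [Dp_apply, ← Finset.smul_sum]
    congr 1
    rw [Finset.smul_sum, ← Finset.sum_add_distrib]
    rfl
  rw [h1, map_smul, map_add, map_smul, EC_inv W hW, EC_inv W hW]
  simp

theorem sum_thc {r : ℝ} (hr : 1 ≤ r) : ∑ a : Tor L, thc r a = fun _ => (1 : ℂ) := by
  funext x
  rw [Finset.sum_apply]
  have h := sum_th (L := L) r hr x
  have h2 : ∑ a : Tor L, thc r a x = ((∑ a, th r a x : ℝ) : ℂ) := by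
    push_cast
    rfl
  rw [h2, h, Complex.ofReal_one]

/-- indicator localisation -/
theorem D0_VV_local {ρ K : ℝ} (hG : Nice G β ρ K) (hρ : 0 ≤ ρ) (hl : ∀ k, 1 ≤ l k) (k : ℕ)
    (a : Tor L) (b : Tor L → ℂ) :
    Su (bl a (l k + 2 * rr l ρ k)) (D0 (thc (l k) a) (VV G β l w k b)) := by
  classical
  set r := rr l ρ k with hr
  set χ : Tor L → ℂ := fun x => if tnorm (x - a) ≤ l k + r then b x else 0 with hχ
  have hb : b = χ + (b - χ) := by abel
  have h1 : Sp0 (bl a (l k + r)) χ := by
    intro x hx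
    have : ¬ tnorm (x - a) ≤ l k + r := hx
    simp only [hχ, if_neg this]
  have h2 : Sp0 {x | l k + r < tnorm (x - a)} (b - χ) := by
    intro x hx
    have hx' : tnorm (x - a) ≤ l k + r := not_lt.1 hx
    simp only [hχ, Pi.sub_apply, if_pos hx', sub_self]
  have h3 : D0 (thc (l k) a) (VV G β l w k (b - χ)) = 0 := by
    refine D0_kill (VV_Su hG hρ hl k _ _ h2) fun x hx => ?_
    apply thc_supp (hl k) a
    intro hxa
    obtain ⟨y, hy, hxy⟩ := hx
    have hxa' : tnorm (x - a) ≤ l k := hxa
    have hy' : l k + r < tnorm (y - a) := hy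
    have := tri3 y x a
    rw [tnorm_sub_comm y x] at this
    linarith
  rw [hb, VV_add, map_add, h3, add_zero]
  refine D0_Su ((VV_Su hG hρ hl k _ _ h1).mono ?_) _
  refine Set.Subset.trans thick_bl ?_
  intro x hx
  have : tnorm (x - a) ≤ l k + r + r := hx
  show tnorm (x - a) ≤ l k + 2 * r
  linarith

/-- the renormalisation term -/
def TT (G : Gr (Tor L) ι) (β : ℝ) (l w : ℕ → ℝ) (k : ℕ) (b : Tor L → ℂ) : CA (Tor L) :=
  ∑ a, Ds G β (thc (l k) a) (VV G β l w k (gl (l k) a b))

theorem VV_TT (k : ℕ) (b : Tor L → ℂ) : VV G β l w (k + 1) b = VV G β l w k b -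
    (Complex.I * (w k : ℂ)) • TT G β l w k b := rfl

theorem gain_inner {ρ K : ℝ} (hG : Nice G β ρ K) (hρ : 0 ≤ ρ) (hl : ∀ k, 1 ≤ l k)
    {Λ : Finset (Tor L)} (W : WFun G β Λ) (hW : Inv W) (k : ℕ) (hrk : 3 * rr l ρ k ≤ l k)
    {B : Set (Tor L)} {b : Tor L → ℂ} (hb : Sp0 B b) (hB : thick B (rr l ρ (k + 1)) ⊆ Λ) :
    EC W (cj (VV G β l w k b) * TT G β l w k b) =
      -Complex.I * EC W (cj (VV G β l w k b) * VV G β l w k b) := by
  have hrr : ∀ k, ρ ≤ rr l ρ k := by
    intro k
    induction k with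
    | zero => exact le_refl _
    | succ k ih => rw [rr_succ]; linarith [hl k]
  have hk := hl k
  have hr0 : 0 ≤ rr l ρ k := hρ.trans (hrr k)
  set v := VV G β l w k b with hv
  -- termwise
  have hterm : ∀ a, EC W (cj v * Ds G β (thc (l k) a) (VV G β l w k (gl (l k) a b))) =
      EC W (XX G β l w k b (cj (D0 (thc (l k) a) v))) := by
    intro a
    by_cases h0 : gl (l k) a b = 0
    · -- then b is constant near a, and both sides vanish
      rw [h0, VV_zero_fun, Ds_zero, mul_zero, map_zero]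
      have hloc := (D0_VV_local (w := w) hG hρ hl k a b).cj
      have e1 : b = (fun _ => b a) + ((fun x => b x - b a)) := by
        funext x
        simp
      have hs : Sp0 {x | 2 * l k < tnorm (x - a)} (fun x => b x - b a) := by
        intro x hx
        have hx' : tnorm (x - a) ≤ 2 * l k := not_lt.1 hx
        have h2 := congrFun h0 x
        unfold gl at h2
        rw [Geo3_tt_one hk hx', Complex.ofReal_one, one_mul] at h2
        exact h2
      have h3 : XX G β l w k (fun x => b x - b a) (cj (D0 (thc (l k) a) v)) = 0 := by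
        refine XX_kill hρ hl k _ _ _ _ hs hloc ?_
        rw [Set.disjoint_left]
        rintro x hx ⟨y, hy, hxy⟩
        have hx' : tnorm (x - a) ≤ l k + 2 * rr l ρ k := hx
        have hy' : 2 * l k < tnorm (y - a) := hy
        have := tri3 y x a
        rw [tnorm_sub_comm y x] at this
        linarith
      have h4 : XX G β l w k b (cj (D0 (thc (l k) a) v)) =
          Dp (fun _ => b a) (cj (D0 (thc (l k) a) v)) := by
        conv_lhs => rw [e1]
        rw [XX_add, h3, add_zero, XX_const]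
      rw [h4]
      exact (Dp_one_inv W hW _ _).symm
    · obtain ⟨y, hy, hay⟩ := gl_ne hk hb h0
      have hθΛ : ∀ x, x ∉ Λ → th (l k) a x = 0 := by
        intro x hx
        by_contra hc
        have hxa : tnorm (x - a) ≤ l k := th_supp hk hc
        apply hx
        refine hB ⟨y, hy, ?_⟩
        have t1 := tri3 x a y
        have := hrr k
        rw [rr_succ]
        linarith
      have h1 := adj W hθΛ v (VV G β l w k (gl (l k) a b))
      have h1' : EC W (cj v * Ds G β (thc (l k) a) (VV G β l w k (gl (l k) a b))) =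
          EC W (cj (D0 (thc (l k) a) v) * VV G β l w k (gl (l k) a b)) := h1
      rw [h1', mul_comm]
      have h2 := XX_div (w := w) hρ hl W k _ _ (gl_supp hk a b) (by
        intro x hx
        obtain ⟨z, hz, hxz⟩ := hx
        have hz' : tnorm (z - a) ≤ 3 * l k := hz
        refine hB ⟨y, hy, ?_⟩
        have t1 := tri3 x z y
        have t2 := tri3 z a y
        rw [rr_succ]
        linarith) (cj (D0 (thc (l k) a) v))
      rw [← h2]
      -- replace gl by b - b a
      have hloc := (D0_VV_local (w := w) hG hρ hl k a b).cj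
      have e1 : b = gl (l k) a b + ((fun _ => b a) +
          (fun x => (1 - (tt (l k) a x : ℂ)) * (b x - b a))) := by
        funext x
        simp only [gl, Pi.add_apply]
        ring
      have hs : Sp0 {x | 2 * l k < tnorm (x - a)}
          (fun x => (1 - (tt (l k) a x : ℂ)) * (b x - b a)) := by
        intro x hx
        have hx' : tnorm (x - a) ≤ 2 * l k := not_lt.1 hx
        show (1 - (tt (l k) a x : ℂ)) * (b x - b a) = 0
        rw [Geo3_tt_one hk hx', Complex.ofReal_one, sub_self, zero_mul]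
      have h3 : XX G β l w k (fun x => (1 - (tt (l k) a x : ℂ)) * (b x - b a))
          (cj (D0 (thc (l k) a) v)) = 0 := by
        refine XX_kill hρ hl k _ _ _ _ hs hloc ?_
        rw [Set.disjoint_left]
        rintro x hx ⟨y, hy, hxy⟩
        have hx' : tnorm (x - a) ≤ l k + 2 * rr l ρ k := hx
        have hy' : 2 * l k < tnorm (y - a) := hy
        have := tri3 y x a
        rw [tnorm_sub_comm y x] at this
        linarith
      have h4 : XX G β l w k b (cj (D0 (thc (l k) a) v)) =
          XX G β l w k (gl (l k) a b) (cj (D0 (thc (l k) a) v)) +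
          Dp (fun _ => b a) (cj (D0 (thc (l k) a) v)) := by
        conv_lhs => rw [e1]
        rw [XX_add, XX_add, h3, add_zero, XX_const]
      rw [h4, map_add, Dp_one_inv W hW, add_zero]
  unfold TT
  rw [Finset.mul_sum, map_sum, Finset.sum_congr rfl fun a _ => hterm a, ← map_sum, ← map_sum,
    ← map_sum, ← sum_der_apply, ← D0_sum_fun, sum_thc hk, hv, VV_charge, cj_smul,
    Complex.conj_I, Derivation.map_smul, map_smul, smul_eq_mul,
    XX_div (w := w) hρ hl W k B b hb (Set.Subset.trans (thick_mono (le_refl _)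
      (by rw [rr_succ]; linarith)) hB), mul_comm (VV G β l w k b)]

/-- norm after one step -/
theorem gain_sq {ρ K : ℝ} (hG : Nice G β ρ K) (hρ : 0 ≤ ρ) (hl : ∀ k, 1 ≤ l k)
    {Λ : Finset (Tor L)} (W : WFun G β Λ) (hW : Inv W) (k : ℕ) (hrk : 3 * rr l ρ k ≤ l k)
    {B : Set (Tor L)} {b : Tor L → ℂ} (hb : Sp0 B b) (hB : thick B (rr l ρ (k + 1)) ⊆ Λ) :
    nrm W (VV G β l w (k + 1) b) ^ 2 = (1 - 2 * w k) * nrm W (VV G β l w k b) ^ 2 +
      w k ^ 2 * nrm W (TT G β l w k b) ^ 2 := by
  have h1 := gain_inner (w := w) hG hρ hl W hW k hrk hb hB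
  rw [EC_self] at h1
  have h2 := EC_symm W (TT G β l w k b) (VV G β l w k b)
  rw [h1] at h2
  rw [nrm_sq, VV_TT]
  have e : cj (VV G β l w k b - (Complex.I * (w k : ℂ)) • TT G β l w k b) *
      (VV G β l w k b - (Complex.I * (w k : ℂ)) • TT G β l w k b) =
      cj (VV G β l w k b) * VV G β l w k b -
      (Complex.I * (w k : ℂ)) • (cj (VV G β l w k b) * TT G β l w k b) +
      (Complex.I * (w k : ℂ)) • (cj (TT G β l w k b) * VV G β l w k b) +
      ((w k : ℂ) ^ 2) • (cj (TT G β l w k b) * TT G β l w k b) := by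
    rw [map_sub, cj_smul, RingHom.map_mul, Complex.conj_I, Complex.conj_ofReal, sub_mul, mul_sub,
      mul_sub, mul_smul_comm, smul_mul_assoc, smul_mul_smul_comm]
    have : -Complex.I * (w k : ℂ) * (Complex.I * (w k : ℂ)) = (w k : ℂ) ^ 2 := by
      have := Complex.I_mul_I
      linear_combination (-(w k : ℂ) ^ 2) * this
    rw [this, neg_mul, neg_smul]
    abel
  rw [e, map_add, map_add, map_sub, map_smul, map_smul, map_smul, EC_self, EC_self, h1, h2,
    RingHom.map_mul, map_neg, Complex.conj_I, Complex.conj_ofReal]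
  simp only [smul_eq_mul]
  have e2 : ((nrm W (VV G β l w k b) ^ 2 : ℝ) : ℂ) -
      Complex.I * (w k : ℂ) * (-Complex.I * ((nrm W (VV G β l w k b) ^ 2 : ℝ) : ℂ)) +
      Complex.I * (w k : ℂ) * (- -Complex.I * ((nrm W (VV G β l w k b) ^ 2 : ℝ) : ℂ)) +
      (w k : ℂ) ^ 2 * ((nrm W (TT G β l w k b) ^ 2 : ℝ) : ℂ) =
      (((1 - 2 * w k) * nrm W (VV G β l w k b) ^ 2 +
        w k ^ 2 * nrm W (TT G β l w k b) ^ 2 : ℝ) : ℂ) := by
    push_cast
    have := Complex.I_mul_I
    linear_combination (2 * (w k : ℂ) * (nrm W (VV G β l w k b) : ℂ) ^ 2) * this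
  rw [e2, Complex.ofReal_re]

end Pool.Agent.H12.MG
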