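import Pool.Agent.H12.MG.Sup

/-! # Geometric estimates -/

set_option autoImplicit false
set_option linter.unusedSectionVars false

noncomputable section

namespace Pool.Agent.H12.MG

open MvPolynomial Pool.Agent.H5R2.ON Pool.Agent.H717R2.ON3 Pool.Agent.H983R2.ONJ

/-- constant of `ball_card` -/
def kB : ℝ := Classical.choose ball_card

theorem kB_pos : 0 < kB := (Classical.choose_spec ball_card).1

theorem kB_card {L : ℕ} [NeZero L] (a : Tor L) {r : ℝ} (hr : 0 ≤ r) :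
    ((ball a r).card : ℝ) ≤ kB * (1 + r) ^ 2 := (Classical.choose_spec ball_card).2 L a r hr

/-- constant of `cst_ge` -/
def kC : ℝ := Classical.choose cst_ge

theorem kC_pos : 0 < kC := (Classical.choose_spec cst_ge).1

theorem kC_cst {L : ℕ} [NeZero L] {r : ℝ} (hr : 1 ≤ r) (h : 2 * r < L) :
    kC * r ^ 2 ≤ cst L r := (Classical.choose_spec cst_ge).2 L r hr h

/-- constant of `energyJ` -/
def kE : ℝ := Classical.choose energyJ

theorem kE_pos : 0 < kE := (Classical.choose_spec energyJ).1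

theorem kE_En {L : ℕ} [NeZero L] {ι : Type} [Fintype ι]
    (G : Gr (Tor L) ι) (β ρ K : ℝ) (hG : Nice G β ρ K) (hρ : 0 ≤ ρ) (hK : 0 ≤ K)
    (b : Tor L → ℝ) (a : Tor L) (r lam : ℝ) (hr : 0 ≤ r) (hlam : 0 ≤ lam)
    (h : ∀ x y, |b x - b y| ≤ lam * tnorm (x - y))
    (hs : ∀ x, b x ≠ 0 → tnorm (x - a) ≤ r) : β * En G b ≤ kE * K * (1 + r + ρ) ^ 2 * lam ^ 2 :=
  (Classical.choose_spec energyJ).2 L G β ρ K hG hρ hK b a r lam hr hlam h hs

variable {L : ℕ} [NeZero L] {ι : Type} [Fintype ι] {G : Gr (Tor L) ι} {β ρ K : ℝ}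

/-- Lipschitz functions -/
def Lp (lam : ℝ) (b : Tor L → ℂ) : Prop := ∀ x y, ‖b x - b y‖ ≤ lam * tnorm (x - y)

/-- the class of test functions -/
structure Cls (lam : ℝ) (z : Tor L) (r : ℝ) (b : Tor L → ℂ) : Prop where
  lip : Lp lam b
  supp : Sp0 (bl z r) b
  bd : ∀ x, ‖b x‖ ≤ lam * r

theorem thc_nn {r : ℝ} (hr : 1 ≤ r) (h2 : 2 * r < L) (a x : Tor L) :
    ‖thc r a x‖ ≤ 1 / (kC * r ^ 2) := by
  have hc := kC_cst (L := L) hr h2
  have hk := kC_pos
  have hcp : 0 < cst L r := lt_of_lt_of_le (by positivity) hc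
  show ‖((th r a x : ℝ) : ℂ)‖ ≤ _
  rw [Complex.norm_real, Real.norm_eq_abs]
  unfold th
  rw [abs_of_nonneg (div_nonneg (Aux493C.tau_nonneg r a x) hcp.le)]
  have h1 := Aux493C.tau_le_one r (by linarith) a x
  have h0 := Aux493C.tau_nonneg r a x
  calc tau r a x / cst L r ≤ 1 / cst L r := by gcongr
    _ ≤ 1 / (kC * r ^ 2) := by gcongr

theorem th_lip {r : ℝ} (hr : 1 ≤ r) (h2 : 2 * r < L) (a x y : Tor L) :
    |th r a x - th r a y| ≤ 1 / (kC * r ^ 3) * tnorm (x - y) := by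
  have hc := kC_cst (L := L) hr h2
  have hk := kC_pos
  have hcp : 0 < cst L r := lt_of_lt_of_le (by positivity) hc
  have h1 : th r a x - th r a y = (tau r a x - tau r a y) / cst L r := by
    unfold th
    ring
  rw [h1, abs_div, abs_of_pos hcp]
  have h3 := Aux493C.tau_lip r (by linarith) a x y
  have h4 := tnorm_nonneg (x - y)
  calc |tau r a x - tau r a y| / cst L r ≤ (1 / r * tnorm (x - y)) / (kC * r ^ 2) := by gcongr
    _ = 1 / (kC * r ^ 3) * tnorm (x - y) := by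
        field_simp

theorem thc_lip {r : ℝ} (hr : 1 ≤ r) (h2 : 2 * r < L) (a : Tor L) :
    Lp (1 / (kC * r ^ 3)) (thc r a) := by
  intro x y
  show ‖((th r a x : ℝ) : ℂ) - ((th r a y : ℝ) : ℂ)‖ ≤ _
  rw [← Complex.ofReal_sub, Complex.norm_real, Real.norm_eq_abs]
  exact th_lip hr h2 a x y

theorem tt_bd (r : ℝ) (a x : Tor L) : 0 ≤ tt r a x ∧ tt r a x ≤ 1 :=
  ⟨le_max_left _ _, max_le zero_le_one (min_le_left _ _)⟩

theorem tt_lip {r : ℝ} (hr : 1 ≤ r) (a x y : Tor L) :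
    |tt r a x - tt r a y| ≤ 1 / r * tnorm (x - y) :=
  Aux493C.plat_lip 3 r (by linarith) a x y

theorem ch_lip {r : ℝ} (hr : 1 ≤ r) (a x y : Tor L) :
    |ch r a x - ch r a y| ≤ 1 / r * tnorm (x - y) :=
  Aux493C.plat_lip 6 r (by linarith) a x y

theorem ch_bd (r : ℝ) (a x : Tor L) : 0 ≤ ch r a x ∧ ch r a x ≤ 1 :=
  ⟨le_max_left _ _, max_le zero_le_one (min_le_left _ _)⟩

/-- product of a cut-off `f` (at scale `r`, supported in `bl a R`) and a Lipschitz function -/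
theorem cut_lip {f : Tor L → ℝ} {h : Tor L → ℂ} {a : Tor L} {r R lam : ℝ} (hr : 0 < r)
    (hR : 0 ≤ R) (hlam : 0 ≤ lam) (hf0 : ∀ x, 0 ≤ f x ∧ f x ≤ 1)
    (hf1 : ∀ x y, |f x - f y| ≤ 1 / r * tnorm (x - y)) (hf2 : ∀ x, f x ≠ 0 → tnorm (x - a) ≤ R)
    (hh : ∀ x, ‖h x‖ ≤ lam * tnorm (x - a)) (hh1 : Lp lam h) :
    Lp ((1 + R / r) * lam) (fun x => (f x : ℂ) * h x) := by
  have key : ∀ x y, f y ≠ 0 → ‖(f x : ℂ) * h x - (f y : ℂ) * h y‖ ≤
      (1 + R / r) * lam * tnorm (x - y) := by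
    intro x y hy
    have h3 : ‖h y‖ ≤ lam * R := (hh y).trans (mul_le_mul_of_nonneg_left (hf2 y hy) hlam)
    have h4 : (f x : ℂ) * h x - (f y : ℂ) * h y = ((f x - f y : ℝ) : ℂ) * h y +
        (f x : ℂ) * (h x - h y) := by
      push_cast; ring
    rw [h4]
    refine (norm_add_le _ _).trans ?_
    rw [norm_mul, norm_mul, Complex.norm_real, Complex.norm_real, Real.norm_eq_abs,
      Real.norm_eq_abs, abs_of_nonneg (hf0 x).1]
    have h5 := mul_le_mul (hf1 x y) h3 (norm_nonneg _)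
      (mul_nonneg (by positivity) (tnorm_nonneg _))
    have h6 := mul_le_mul (hf0 x).2 (hh1 x y) (norm_nonneg _) zero_le_one
    have h7 : 1 / r * tnorm (x - y) * (lam * R) + 1 * (lam * tnorm (x - y)) =
        (1 + R / r) * lam * tnorm (x - y) := by
      field_simp
      ring
    linarith
  intro x y
  by_cases hy : f y = 0
  · by_cases hx : f x = 0
    · simp only [hx, hy, Complex.ofReal_zero, zero_mul, sub_self, norm_zero]
      have := tnorm_nonneg (x - y)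
      positivity
    · rw [norm_sub_rev, tnorm_sub_comm]
      exact key y x hx
  · exact key x y hy

theorem gl_cls {r lam : ℝ} (hr : 1 ≤ r) (hlam : 0 ≤ lam) {b : Tor L → ℂ} (hb : Lp lam b)
    (a : Tor L) : Cls (4 * lam) a (3 * r) (gl r a b) := by
  have h1 : Lp ((1 + 3 * r / r) * lam) (fun x => (tt r a x : ℂ) * (b x - b a)) := by
    refine cut_lip (a := a) (by linarith) (by linarith) hlam (fun x => tt_bd r a x)
      (fun x y => tt_lip hr a x y) (fun x hx => tt_supp hr hx) (fun x => hb x a) ?_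
    intro x y
    rw [sub_sub_sub_cancel_right]
    exact hb x y
  have h2 : (1 + 3 * r / r) * lam = 4 * lam := by
    have : r ≠ 0 := by positivity
    field_simp
    ring
  rw [h2] at h1
  refine ⟨h1, gl_supp hr a b, fun x => ?_⟩
  by_cases hx : tt r a x = 0
  · unfold gl
    rw [hx, Complex.ofReal_zero, zero_mul, norm_zero]
    positivity
  · unfold gl
    rw [norm_mul, Complex.norm_real, Real.norm_eq_abs, abs_of_nonneg (tt_bd r a x).1]
    have h3 := hb x a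
    have h4 := tt_supp hr hx
    have h5 := mul_le_mul (tt_bd r a x).2 h3 (norm_nonneg _) zero_le_one
    have h6 := mul_le_mul_of_nonneg_left h4 hlam
    have : 0 ≤ lam * r := by positivity
    linarith

/-- sums over edges near a point -/
theorem sum_edges (hG : Nice G β ρ K) (hρ : 0 ≤ ρ) (hK : 0 ≤ K) (f : ι → ℝ) (a : Tor L)
    {r M : ℝ} (hr : 1 ≤ r) (hρr : ρ ≤ r) (hM : 0 ≤ M)
    (hf : ∀ e, f e ≤ M * tnorm (G.t e - G.s e) ^ 2)
    (hf0 : ∀ e, G.s e ∉ bl a r → G.t e ∉ bl a r → f e ≤ 0) :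
    β * ∑ e, f e ≤ 9 * kB * r ^ 2 * (M * K) := by
  have h1 := Aux493.mom_sum hG f a (r + ρ) M hM (fun e => ?_)
  · refine h1.trans ?_
    have h2 := kB_card a (show 0 ≤ r + ρ by linarith)
    have h3 : (1 + (r + ρ)) ^ 2 ≤ (3 * r) ^ 2 := pow_le_pow_left₀ (by linarith) (by linarith) 2
    have h4 := mul_le_mul_of_nonneg_left h3 kB_pos.le
    calc ((ball a (r + ρ)).card : ℝ) * (M * K) ≤ (kB * (3 * r) ^ 2) * (M * K) :=
          mul_le_mul_of_nonneg_right (h2.trans h4) (by positivity)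
      _ = 9 * kB * r ^ 2 * (M * K) := by ring
  · split_ifs with h
    · exact hf e
    · refine hf0 e (fun hs => h ?_) (fun ht => h ?_)
      · have : tnorm (G.s e - a) ≤ r := hs
        linarith
      · exact (edge_nearJ hG e a r (Or.inr ht) hρ).1

theorem mem_ball' {a x : Tor L} {r : ℝ} : x ∈ ball a r ↔ tnorm (x - a) ≤ r := by
  unfold ball
  simp

/-- number of points in a large ball -/
theorem card_le (a : Tor L) {r : ℝ} (hr : 1 ≤ r) : ((ball a r).card : ℝ) ≤ 4 * kB * r ^ 2 := by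
  refine (kB_card a (by linarith)).trans ?_
  have h3 : (1 + r) ^ 2 ≤ (2 * r) ^ 2 := pow_le_pow_left₀ (by linarith) (by linarith) 2
  have h4 := mul_le_mul_of_nonneg_left h3 kB_pos.le
  linarith

theorem near_le (I : Finset (Tor L)) (a : Tor L) {r : ℝ} (hr : 1 ≤ r) :
    ((I.filter fun b => tnorm (a - b) ≤ r).card : ℝ) ≤ 4 * kB * r ^ 2 := by
  classical
  refine le_trans ?_ (card_le a hr)
  have : (I.filter fun b => tnorm (a - b) ≤ r) ⊆ ball a r := by
    intro b hb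
    rw [mem_ball', tnorm_sub_comm]
    exact (Finset.mem_filter.1 hb).2
  exact_mod_cast Finset.card_le_card this

/-- the constant `κ_a` -/
theorem D0S0_le (hG : Nice G β ρ K) (hρ : 0 ≤ ρ) (hK : 0 ≤ K) {r : ℝ} (hr : 1 ≤ r) (hρr : ρ ≤ r)
    (h2 : 2 * r < L) (a : Tor L) {σ : Tor L × Fin 3 → ℝ} (hσ : Pt σ) :
    ‖ev σ (D0 (thc r a) (S0 G β (thc r a)))‖ ≤ 9 * kE * K / (kC ^ 2 * r ^ 4) := by
  have hβ := hG.beta
  have hkC := kC_pos
  have hkE := kE_pos
  rw [D0_S0, ev_sum]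
  refine (norm_sum_le _ _).trans ?_
  have h1 : ∀ e ∈ (Finset.univ : Finset ι), ‖ev σ (((β : ℂ) * (thc r a (G.t e) - thc r a (G.s e)) *
      (thc r a (G.t e) - thc r a (G.s e))) • pp G e)‖ ≤ β * grad G (th r a) e ^ 2 := by
    intro e _
    rw [ev_smul, norm_mul]
    have h3 := ev_pp_le G hσ e
    have h4 : ‖(β : ℂ) * (thc r a (G.t e) - thc r a (G.s e)) *
        (thc r a (G.t e) - thc r a (G.s e))‖ = β * grad G (th r a) e ^ 2 := by
      have h5 : thc r a (G.t e) - thc r a (G.s e) = ((grad G (th r a) e : ℝ) : ℂ) := by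
        unfold grad thc cc
        push_cast
        rfl
      rw [h5, norm_mul, norm_mul, Complex.norm_real, Complex.norm_real, Real.norm_eq_abs,
        Real.norm_eq_abs, abs_of_nonneg hβ, mul_assoc, ← pow_two, sq_abs]
    rw [h4]
    have h6 : 0 ≤ β * grad G (th r a) e ^ 2 := by positivity
    nlinarith
  refine (Finset.sum_le_sum h1).trans ?_
  rw [← Finset.mul_sum]
  refine (kE_En G β ρ K hG hρ hK (th r a) a r (1 / (kC * r ^ 3)) (by linarith) (by positivity)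
    (fun x y => th_lip hr h2 a x y) (fun x hx => th_supp hr hx)).trans ?_
  calc kE * K * (1 + r + ρ) ^ 2 * (1 / (kC * r ^ 3)) ^ 2
      ≤ kE * K * (3 * r) ^ 2 * (1 / (kC * r ^ 3)) ^ 2 := by
        have : 1 + r + ρ ≤ 3 * r := by linarith
        gcongr
    _ = 9 * kE * K / (kC ^ 2 * r ^ 4) := by
        field_simp
        ring

/-- size of the multipliers -/
theorem mm_coef (hβ : 0 ≤ β) {θ : Tor L → ℂ} {lam' : ℝ} (hθ : Lp (1 / lam') θ) {e : ι}
    (he : tnorm (G.t e - G.s e) ≤ lam') (hl : 0 < lam') (τ : Tor L → ℂ) :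
    ‖(β : ℂ) * (τ (G.t e) - τ (G.s e)) * (Complex.cos (θ (G.t e) - θ (G.s e)) - 1)‖ +
    ‖(β : ℂ) * (τ (G.t e) - τ (G.s e)) * Complex.sin (θ (G.t e) - θ (G.s e))‖ ≤
      β * (4 / lam' * (‖τ (G.t e) - τ (G.s e)‖ * tnorm (G.t e - G.s e))) := by
  have h1 := hθ (G.t e) (G.s e)
  have h2 : ‖θ (G.t e) - θ (G.s e)‖ ≤ 1 := by
    refine h1.trans ?_
    rw [div_mul_eq_mul_div, one_mul, div_le_one hl]
    exact he
  have h3 := norm_cos_sub_one_le h2
  have h4 := norm_sin_le' h2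
  rw [norm_mul, norm_mul, norm_mul, norm_mul, Complex.norm_real, Real.norm_eq_abs,
    abs_of_nonneg hβ, ← mul_add]
  have h5 : ‖Complex.cos (θ (G.t e) - θ (G.s e)) - 1‖ + ‖Complex.sin (θ (G.t e) - θ (G.s e))‖ ≤
      4 / lam' * tnorm (G.t e - G.s e) := by
    have : 4 / lam' * tnorm (G.t e - G.s e) = 4 * (1 / lam' * tnorm (G.t e - G.s e)) := by ring
    rw [this]
    linarith
  calc β * ‖τ (G.t e) - τ (G.s e)‖ * (‖Complex.cos (θ (G.t e) - θ (G.s e)) - 1‖ +
        ‖Complex.sin (θ (G.t e) - θ (G.s e))‖)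
      ≤ β * ‖τ (G.t e) - τ (G.s e)‖ * (4 / lam' * tnorm (G.t e - G.s e)) :=
        mul_le_mul_of_nonneg_left h5 (by positivity)
    _ = _ := by ring

/-- general bound for a sum of the coefficients, with a weight -/
theorem mm_sum (hG : Nice G β ρ K) (hρ : 0 ≤ ρ) (hK : 0 ≤ K) {θ : Tor L → ℂ} {lam' : ℝ}
    (hθ : Lp (1 / lam') θ) (hl : 0 < lam') (hρl : ρ ≤ lam') {r : ℝ} (hr : 1 ≤ r)
    (h2 : 2 * r < L) (a : Tor L) (q : ι → ℝ) {Q : ℝ} (hQ : 0 ≤ Q)
    (hq : ∀ e, 0 ≤ q e ∧ q e ≤ Q) (a' : Tor L) {r' : ℝ} (hr' : 1 ≤ r') (hρr' : ρ ≤ r')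
    (hq0 : ∀ e, G.s e ∉ bl a' r' → G.t e ∉ bl a' r' → thc r a (G.t e) - thc r a (G.s e) = 0 ∨
      q e = 0) :
    ∑ e, (‖(β : ℂ) * (thc r a (G.t e) - thc r a (G.s e)) *
        (Complex.cos (θ (G.t e) - θ (G.s e)) - 1)‖ +
      ‖(β : ℂ) * (thc r a (G.t e) - thc r a (G.s e)) *
        Complex.sin (θ (G.t e) - θ (G.s e))‖) * q e ≤
      36 * kB / kC * K * Q * r' ^ 2 / (r ^ 3 * lam') := by
  have hβ := hG.beta
  have hkC := kC_pos
  have hkB := kB_pos
  have h1 : ∀ e ∈ (Finset.univ : Finset ι), (‖(β : ℂ) * (thc r a (G.t e) - thc r a (G.s e)) *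
        (Complex.cos (θ (G.t e) - θ (G.s e)) - 1)‖ +
      ‖(β : ℂ) * (thc r a (G.t e) - thc r a (G.s e)) *
        Complex.sin (θ (G.t e) - θ (G.s e))‖) * q e ≤
      β * (4 / lam' * (‖thc r a (G.t e) - thc r a (G.s e)‖ * tnorm (G.t e - G.s e)) * q e) := by
    intro e _
    have h3 := mm_coef (G := G) hβ hθ (e := e) ((hG.range e).trans hρl) hl (thc r a)
    have h4 := mul_le_mul_of_nonneg_right h3 (hq e).1
    refine h4.trans (le_of_eq ?_)
    ring
  refine (Finset.sum_le_sum h1).trans ?_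
  rw [← Finset.mul_sum]
  refine (sum_edges hG hρ hK _ a' hr' hρr' (M := 4 / lam' * (1 / (kC * r ^ 3)) * Q)
    (by positivity) (fun e => ?_) (fun e hs ht => ?_)).trans (le_of_eq ?_)
  · have h5 := thc_lip hr h2 a (G.t e) (G.s e)
    have h6 := tnorm_nonneg (G.t e - G.s e)
    have h7 : ‖thc r a (G.t e) - thc r a (G.s e)‖ * tnorm (G.t e - G.s e) ≤
        1 / (kC * r ^ 3) * tnorm (G.t e - G.s e) ^ 2 := by
      have := mul_le_mul_of_nonneg_right h5 h6
      rw [pow_two, ← mul_assoc]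
      exact this
    calc 4 / lam' * (‖thc r a (G.t e) - thc r a (G.s e)‖ * tnorm (G.t e - G.s e)) * q e
        ≤ 4 / lam' * (1 / (kC * r ^ 3) * tnorm (G.t e - G.s e) ^ 2) * Q :=
          mul_le_mul (mul_le_mul_of_nonneg_left h7 (by positivity)) (hq e).2 (hq e).1
            (by positivity)
      _ = _ := by ring
  · rcases hq0 e hs ht with h | h
    · rw [h, norm_zero, zero_mul, mul_zero, zero_mul]
    · rw [h, mul_zero]
  · field_simp
    ring

end Pool.Agent.H12.MG
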