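import Mathlib

/-! # The numerical recursion -/

set_option autoImplicit false
set_option linter.unusedSectionVars false

noncomputable section

namespace Pool.Agent.H12.MG

/-- the step size -/
def wf (C₁ κ D s : ℝ) : ℝ := 1 / (C₁ * (κ + D / √s))

/-- the sequence of the squared norms -/
def sq' (C₁ κ D s₀ : ℝ) : ℕ → ℝ
  | 0 => s₀
  | n + 1 => sq' C₁ κ D s₀ n * (1 - wf C₁ κ D (sq' C₁ κ D s₀ n))

theorem wf_pos {C₁ κ D s : ℝ} (hC : 0 < C₁) (hκ : 0 < κ) (hD : 0 ≤ D) :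
    0 < wf C₁ κ D s := by
  unfold wf
  positivity

theorem wf_le {C₁ κ D s : ℝ} (hC : 0 < C₁) (hκ : 0 < κ) (hD : 0 ≤ D) :
    wf C₁ κ D s ≤ 1 / (C₁ * κ) := by
  unfold wf
  have : 0 ≤ D / √s := by positivity
  gcongr
  linarith

section

variable {C₁ κ D s₀ : ℝ} (hC : 2 ≤ C₁) (hκ : 1 ≤ κ) (hD : 0 ≤ D) (hs : 0 < s₀)

include hC hκ hD in
theorem wf_half (s : ℝ) : wf C₁ κ D s ≤ 1 / 2 := by
  refine (wf_le (by linarith) (by linarith) hD).trans ?_
  have : 2 ≤ C₁ * κ := by nlinarith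
  gcongr

include hC hκ hD hs in
theorem sq_pos (n : ℕ) : 0 < sq' C₁ κ D s₀ n := by
  induction n with
  | zero => exact hs
  | succ n ih =>
    have := wf_half hC hκ hD (sq' C₁ κ D s₀ n)
    exact mul_pos ih (by linarith)

include hC hκ hD hs in
theorem sq_anti (n : ℕ) : sq' C₁ κ D s₀ (n + 1) ≤ sq' C₁ κ D s₀ n := by
  have h1 := sq_pos hC hκ hD hs n
  have h2 := wf_pos (C₁ := C₁) (κ := κ) (D := D) (s := sq' C₁ κ D s₀ n) (by linarith)
    (by linarith) hD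
  show sq' C₁ κ D s₀ n * (1 - wf C₁ κ D (sq' C₁ κ D s₀ n)) ≤ _
  nlinarith

include hC hκ hD hs in
theorem sq_le (n : ℕ) : sq' C₁ κ D s₀ n ≤ s₀ := by
  induction n with
  | zero => exact le_refl _
  | succ n ih => exact (sq_anti hC hκ hD hs n).trans ih

include hC hκ hD hs in
/-- sum of the steps -/
theorem sum_w (n : ℕ) : ∑ i ∈ Finset.range n, wf C₁ κ D (sq' C₁ κ D s₀ i) ≤
    Real.log s₀ - Real.log (sq' C₁ κ D s₀ n) := by
  induction n with
  | zero => simp [sq']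
  | succ n ih =>
    rw [Finset.sum_range_succ]
    have h1 := sq_pos hC hκ hD hs n
    have h2 := wf_half hC hκ hD (sq' C₁ κ D s₀ n)
    have h3 : Real.log (sq' C₁ κ D s₀ (n + 1)) ≤
        Real.log (sq' C₁ κ D s₀ n) - wf C₁ κ D (sq' C₁ κ D s₀ n) := by
      show Real.log (sq' C₁ κ D s₀ n * (1 - wf C₁ κ D (sq' C₁ κ D s₀ n))) ≤ _
      rw [Real.log_mul h1.ne' (by linarith)]
      have := Real.log_le_sub_one_of_pos (show 0 < 1 - wf C₁ κ D (sq' C₁ κ D s₀ n) by linarith)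
      linarith
    linarith

/-- inverse square root after one step -/
theorem inv_sqrt_step {s w : ℝ} (hs : 0 < s) (hw0 : 0 ≤ w) (hw : w ≤ 1 / 2) :
    1 / √s * (1 + w / 2) ≤ 1 / √(s * (1 - w)) := by
  have h1 : 0 < 1 - w := by linarith
  have hss : 0 < √s := Real.sqrt_pos.2 hs
  rw [Real.sqrt_mul hs.le, one_div_mul_eq_div, div_le_div_iff₀ hss (by positivity)]
  have h2 : (1 + w / 2) * √(1 - w) ≤ 1 := by
    have h3 : ((1 + w / 2) * √(1 - w)) ^ 2 ≤ 1 ^ 2 := by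
      rw [mul_pow, Real.sq_sqrt h1.le]
      have : (1 + w / 2) ^ 2 * (1 - w) = 1 - 3 / 4 * w ^ 2 - w ^ 3 / 4 := by ring
      rw [this]
      have : 0 ≤ w ^ 3 := by positivity
      have : 0 ≤ w ^ 2 := by positivity
      linarith
    exact (pow_le_pow_iff_left₀ (by positivity) zero_le_one two_ne_zero).1 h3
  calc (1 + w / 2) * (√s * √(1 - w)) = √s * ((1 + w / 2) * √(1 - w)) := by ring
    _ ≤ √s * 1 := mul_le_mul_of_nonneg_left h2 hss.le
    _ = 1 * √s := by ring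

include hC hκ hD hs in
/-- the potential decreases -/
theorem pot_step (n : ℕ) :
    C₁ * κ * Real.log (sq' C₁ κ D s₀ (n + 1)) - 2 * C₁ * D * (1 / √(sq' C₁ κ D s₀ (n + 1))) ≤
    C₁ * κ * Real.log (sq' C₁ κ D s₀ n) - 2 * C₁ * D * (1 / √(sq' C₁ κ D s₀ n)) - 1 := by
  have h1 := sq_pos hC hκ hD hs n
  have h2 := wf_half hC hκ hD (sq' C₁ κ D s₀ n)
  have h0 := wf_pos (C₁ := C₁) (κ := κ) (D := D) (s := sq' C₁ κ D s₀ n) (by linarith)
    (by linarith) hD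
  have h3 : Real.log (sq' C₁ κ D s₀ (n + 1)) ≤
      Real.log (sq' C₁ κ D s₀ n) - wf C₁ κ D (sq' C₁ κ D s₀ n) := by
    show Real.log (sq' C₁ κ D s₀ n * (1 - wf C₁ κ D (sq' C₁ κ D s₀ n))) ≤ _
    rw [Real.log_mul h1.ne' (by linarith)]
    have := Real.log_le_sub_one_of_pos (show 0 < 1 - wf C₁ κ D (sq' C₁ κ D s₀ n) by linarith)
    linarith
  have h4 := inv_sqrt_step h1 h0.le h2
  have h5 : sq' C₁ κ D s₀ (n + 1) = sq' C₁ κ D s₀ n * (1 - wf C₁ κ D (sq' C₁ κ D s₀ n)) := rfl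
  rw [← h5] at h4
  obtain ⟨w, hw⟩ : ∃ w, w = wf C₁ κ D (sq' C₁ κ D s₀ n) := ⟨_, rfl⟩
  obtain ⟨t, ht⟩ : ∃ t, t = 1 / √(sq' C₁ κ D s₀ n) := ⟨_, rfl⟩
  have hkey : C₁ * w * (κ + D * t) = 1 := by
    rw [hw, ht]
    unfold wf
    have : 0 < κ + D / √(sq' C₁ κ D s₀ n) := by positivity
    have e : D * (1 / √(sq' C₁ κ D s₀ n)) = D / √(sq' C₁ κ D s₀ n) := by ring
    rw [e]
    field_simp
  rw [← hw] at h3 h4
  rw [← ht] at h4 ⊢
  have a1 := mul_le_mul_of_nonneg_left h3 (show 0 ≤ C₁ * κ by positivity)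
  have a2 := mul_le_mul_of_nonneg_left h4 (show 0 ≤ 2 * C₁ * D by positivity)
  nlinarith

include hC hκ hD hs in
theorem pot_n (n : ℕ) :
    C₁ * κ * Real.log (sq' C₁ κ D s₀ n) - 2 * C₁ * D * (1 / √(sq' C₁ κ D s₀ n)) ≤
    C₁ * κ * Real.log s₀ - 2 * C₁ * D * (1 / √s₀) - n := by
  induction n with
  | zero => simp [sq']
  | succ n ih =>
    have := pot_step hC hκ hD hs n
    push_cast
    linarith

include hC hκ hD hs in
/-- number of steps -/
theorem stop (ε : ℝ) (hε : 0 < ε) : ∃ N : ℕ, sq' C₁ κ D s₀ N ≤ ε ∧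
    (∀ n < N, ε < sq' C₁ κ D s₀ n) ∧
    (N : ℝ) ≤ C₁ * κ * |Real.log s₀ - Real.log ε| + 2 * C₁ * D * (1 / √ε) + 1 := by
  classical
  have hB : 0 ≤ C₁ * κ * |Real.log s₀ - Real.log ε| + 2 * C₁ * D * (1 / √ε) := by positivity
  have key : ∀ n : ℕ, ε < sq' C₁ κ D s₀ n →
      (n : ℝ) ≤ C₁ * κ * |Real.log s₀ - Real.log ε| + 2 * C₁ * D * (1 / √ε) := by
    intro n hn
    have h1 := pot_n hC hκ hD hs n
    have h2 : Real.log ε ≤ Real.log (sq' C₁ κ D s₀ n) := Real.log_le_log hε hn.le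
    have h3 : 1 / √(sq' C₁ κ D s₀ n) ≤ 1 / √ε := by
      apply one_div_le_one_div_of_le (Real.sqrt_pos.2 hε)
      exact Real.sqrt_le_sqrt hn.le
    have h4 : Real.log s₀ - Real.log ε ≤ |Real.log s₀ - Real.log ε| := le_abs_self _
    have a1 := mul_le_mul_of_nonneg_left h2 (show 0 ≤ C₁ * κ by positivity)
    have a2 := mul_le_mul_of_nonneg_left h3 (show 0 ≤ 2 * C₁ * D by positivity)
    have a3 := mul_le_mul_of_nonneg_left h4 (show 0 ≤ C₁ * κ by positivity)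
    have a4 : 0 ≤ 2 * C₁ * D * (1 / √s₀) := by positivity
    linarith
  have hex : ∃ n, sq' C₁ κ D s₀ n ≤ ε := by
    by_contra hc
    push Not at hc
    obtain ⟨n, hn⟩ := exists_nat_gt
      (C₁ * κ * |Real.log s₀ - Real.log ε| + 2 * C₁ * D * (1 / √ε))
    have := key n (hc n)
    linarith
  refine ⟨Nat.find hex, Nat.find_spec hex, fun n hn => not_le.1 (Nat.find_min hex hn), ?_⟩
  rcases Nat.eq_zero_or_pos (Nat.find hex) with h0 | h0
  · rw [h0]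
    push_cast
    linarith
  · obtain ⟨m, hm⟩ := Nat.exists_eq_succ_of_ne_zero h0.ne'
    have h1 := key m (not_le.1 (Nat.find_min hex (by omega)))
    rw [hm]
    push_cast
    linarith

end

/-- the logarithm and the square root -/
theorem log_sqrt {κ : ℝ} (hκ : 1 ≤ κ) : 1 + Real.log κ ≤ 2 * √κ := by
  have h0 : 0 < √κ := Real.sqrt_pos.2 (by linarith)
  have h1 := Real.log_le_sub_one_of_pos h0
  have h2 : Real.log κ = 2 * Real.log (√κ) := by
    rw [Real.log_sqrt (by linarith)]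
    ring
  rw [h2]
  linarith

end Pool.Agent.H12.MG
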