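import Pool.Agent.H12.MG.NStep
import Pool.Agent.H12.MG.Num

/-! # The induction -/

set_option autoImplicit false
set_option linter.unusedSectionVars false

noncomputable section

namespace Pool.Agent.H12.MG

open MvPolynomial Pool.Agent.H5R2.ON Pool.Agent.H717R2.ON3 Pool.Agent.H983R2.ONJ

/-- constant -/
def c6 : ℝ := 144 * kE

/-- constant -/
def cA (ε : ℝ) : ℝ := 1 + |Real.log c6 - Real.log (ε / 2)|

/-- constant -/
def c1 : ℝ := 2 + kT + kN + c6

/-- constant -/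
def cM (ε : ℝ) : ℝ := 4 * kN * cA ε

/-- constant -/
def cD (ε : ℝ) : ℝ := 16 * cM ε ^ 2 * √c6 + 8 * cM ε ^ 2 * c6 + 2 * cM ε + 4 * kN + 4 * k9 + 1

/-- the bound for the rotated scores -/
def dD (ε κ : ℝ) : ℝ := cD ε * κ * (1 + Real.log κ)

theorem c6_pos : 0 < c6 := by
  have := kE_pos
  unfold c6
  positivity

theorem cA_ge (ε : ℝ) : 1 ≤ cA ε := by
  unfold cA
  have := abs_nonneg (Real.log c6 - Real.log (ε / 2))
  linarith

theorem c1_ge : 2 ≤ c1 ∧ kT ≤ c1 ∧ kN ≤ c1 ∧ c6 ≤ c1 := by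
  have := kT_pos
  have := kN_pos
  have := c6_pos
  unfold c1
  refine ⟨by linarith, by linarith, by linarith, by linarith⟩

theorem cM_pos (ε : ℝ) : 0 < cM ε := by
  have := kN_pos
  have := cA_ge ε
  unfold cM
  positivity

theorem cD_pos (ε : ℝ) : 0 < cD ε := by
  have := kN_pos
  have := k9_pos
  have := cM_pos ε
  have := c6_pos
  unfold cD
  positivity

theorem cD_key (ε : ℝ) : cM ε * (√(c6 + 2 * cD ε * √c6) + 1) ≤ cD ε := by
  have h1 := kN_pos
  have h2 := k9_pos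
  have h3 := cM_pos ε
  have h4 := c6_pos
  have h5 := cD_pos ε
  have hs : 0 ≤ √c6 := Real.sqrt_nonneg _
  have e1 : 16 * cM ε ^ 2 * √c6 ≤ cD ε := by
    unfold cD
    have : 0 ≤ 8 * cM ε ^ 2 * c6 := by positivity
    linarith
  have e2 : 8 * cM ε ^ 2 * c6 ≤ cD ε := by
    unfold cD
    have : 0 ≤ 16 * cM ε ^ 2 * √c6 := by positivity
    linarith
  have e3 : 2 * cM ε ≤ cD ε := by
    unfold cD
    have : 0 ≤ 16 * cM ε ^ 2 * √c6 := by positivity
    have : 0 ≤ 8 * cM ε ^ 2 * c6 := by positivity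
    linarith
  have e4 : 1 ≤ cD ε := by
    unfold cD
    have : 0 ≤ 16 * cM ε ^ 2 * √c6 := by positivity
    have : 0 ≤ 8 * cM ε ^ 2 * c6 := by positivity
    linarith
  have h6 : (cM ε * √(c6 + 2 * cD ε * √c6)) ^ 2 ≤ (cD ε / 2) ^ 2 := by
    rw [mul_pow, Real.sq_sqrt (by positivity)]
    have a1 : cM ε ^ 2 * c6 * 8 ≤ cD ε * cD ε := by nlinarith
    have a2 : cM ε ^ 2 * (2 * cD ε * √c6) * 8 ≤ cD ε * cD ε := by
      calc cM ε ^ 2 * (2 * cD ε * √c6) * 8 = cD ε * (16 * cM ε ^ 2 * √c6) := by ring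
        _ ≤ cD ε * cD ε := mul_le_mul_of_nonneg_left e1 h5.le
    nlinarith
  have h7 := (pow_le_pow_iff_left₀ (by positivity) (by positivity) two_ne_zero).1 h6
  linarith

theorem cD_kN (ε : ℝ) : 4 * kN ≤ cD ε := by
  have h1 := kN_pos
  have h2 := k9_pos
  have h3 := cM_pos ε
  have h4 := c6_pos
  unfold cD
  have : 0 ≤ 16 * cM ε ^ 2 * √c6 := by positivity
  have : 0 ≤ 8 * cM ε ^ 2 * c6 := by positivity
  linarith

theorem cD_k9 (ε : ℝ) : 4 * k9 ≤ cD ε := by
  have h1 := kN_pos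
  have h2 := k9_pos
  have h3 := cM_pos ε
  have h4 := c6_pos
  unfold cD
  have : 0 ≤ 16 * cM ε ^ 2 * √c6 := by positivity
  have : 0 ≤ 8 * cM ε ^ 2 * c6 := by positivity
  linarith

/-- the sequence of squared norms -/
def ss (ε κ : ℝ) : ℕ → ℝ := sq' c1 κ (dD ε κ) (c6 * κ)

/-- the sequence of steps -/
def ww (ε κ : ℝ) (n : ℕ) : ℝ := wf c1 κ (dD ε κ) (ss ε κ n)

section

variable {ε κ : ℝ} (hκ : 1 ≤ κ)

include hκ in
theorem dD_pos : 0 < dD ε κ := by
  have := cD_pos ε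
  have := Real.log_nonneg hκ
  unfold dD
  positivity

include hκ in
theorem ss_pos (n : ℕ) : 0 < ss ε κ n :=
  sq_pos c1_ge.1 hκ (dD_pos hκ).le (by have := c6_pos; positivity) n

include hκ in
theorem ss_le (n : ℕ) : ss ε κ n ≤ c6 * κ :=
  sq_le c1_ge.1 hκ (dD_pos hκ).le (by have := c6_pos; positivity) n

include hκ in
theorem ww_pos (n : ℕ) : 0 < ww ε κ n :=
  wf_pos (by have := c1_ge.1; linarith) (by linarith) (dD_pos hκ).le

include hκ in
theorem ww_half (n : ℕ) : ww ε κ n ≤ 1 / 2 := wf_half c1_ge.1 hκ (dD_pos hκ).le _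

include hκ in
theorem ww_le (n : ℕ) : ww ε κ n ≤ 1 / (c1 * κ) :=
  wf_le (by have := c1_ge.1; linarith) (by linarith) (dD_pos hκ).le

theorem ss_succ (n : ℕ) : ss ε κ (n + 1) = ss ε κ n * (1 - ww ε κ n) := rfl

include hκ in
theorem ww_sqrt (n : ℕ) : ww ε κ n * √(ss ε κ n) ≤ 1 := by
  have h1 := ww_le (ε := ε) hκ n
  have h2 := ss_le (ε := ε) hκ n
  have h3 := c1_ge
  have h4 := c6_pos
  have hc1 : 0 < c1 := by linarith
  have h5 : √(ss ε κ n) ≤ c1 * κ := by
    apply Real.sqrt_le_iff.2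
    refine ⟨by positivity, h2.trans ?_⟩
    have h6 : c6 * κ ≤ c1 * κ := mul_le_mul_of_nonneg_right h3.2.2.2 (by linarith)
    have h7 : 1 ≤ c1 * κ := by nlinarith
    nlinarith
  calc ww ε κ n * √(ss ε κ n) ≤ 1 / (c1 * κ) * (c1 * κ) :=
        mul_le_mul h1 h5 (Real.sqrt_nonneg _) (by positivity)
    _ = 1 := by
        have : κ ≠ 0 := by positivity
        field_simp

include hκ in
theorem ww_step (n : ℕ) : ww ε κ n * (kT * (κ * ss ε κ n + dD ε κ * √(ss ε κ n))) ≤ ss ε κ n := by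
  have h1 := ss_pos (ε := ε) hκ n
  have hD := dD_pos (ε := ε) hκ
  have hT := kT_pos
  have h3 := c1_ge
  have hc1 : 0 < c1 := by linarith
  have hsq : 0 < √(ss ε κ n) := Real.sqrt_pos.2 h1
  have e1 : κ * ss ε κ n + dD ε κ * √(ss ε κ n) =
      ss ε κ n * (κ + dD ε κ / √(ss ε κ n)) := by
    have h4 : √(ss ε κ n) * √(ss ε κ n) = ss ε κ n := Real.mul_self_sqrt h1.le
    have h5 : ss ε κ n * (κ + dD ε κ / √(ss ε κ n)) = κ * ss ε κ n +
        dD ε κ * (ss ε κ n / √(ss ε κ n)) := by ring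
    rw [h5]
    congr 2
    rw [eq_div_iff hsq.ne']
    exact h4
  rw [e1]
  have h6 : 0 < κ + dD ε κ / √(ss ε κ n) := by positivity
  have h7 : ww ε κ n * (kT * (ss ε κ n * (κ + dD ε κ / √(ss ε κ n)))) =
      kT / c1 * ss ε κ n := by
    unfold ww wf
    field_simp
  rw [h7]
  have h8 : kT / c1 ≤ 1 := by
    rw [div_le_one hc1]
    exact h3.2.1
  nlinarith

include hκ in
/-- sum of the steps -/
theorem sum_ww (hε : 0 < ε) (n : ℕ) (hn : ε / 2 ≤ ss ε κ n) :
    ∑ i ∈ Finset.range n, ww ε κ i ≤ cA ε * (1 + Real.log κ) := by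
  have h4 := c6_pos
  have hlog := Real.log_nonneg hκ
  have h1 := sum_w (C₁ := c1) (κ := κ) (D := dD ε κ) (s₀ := c6 * κ) c1_ge.1 hκ (dD_pos hκ).le
    (by positivity) n
  refine h1.trans ?_
  have h2 : Real.log (ε / 2) ≤ Real.log (ss ε κ n) := Real.log_le_log (by positivity) hn
  rw [Real.log_mul h4.ne' (by linarith)]
  have h3 := le_abs_self (Real.log c6 - Real.log (ε / 2))
  have h5 : 0 ≤ |Real.log c6 - Real.log (ε / 2)| * Real.log κ := by positivity
  unfold cA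
  show Real.log c6 + Real.log κ - Real.log (ss ε κ n) ≤ _
  linarith

include hκ in
theorem sqrt_bound (n : ℕ) : √(κ * ss ε κ n + dD ε κ * √(ss ε κ n)) ≤
    √(c6 + 2 * cD ε * √c6) * κ := by
  have h1 := ss_pos (ε := ε) hκ n
  have h2 := ss_le (ε := ε) hκ n
  have h4 := c6_pos
  have hlog := Real.log_nonneg hκ
  have hcD := cD_pos ε
  have hD := dD_pos (ε := ε) hκ
  have e0 : √(c6 + 2 * cD ε * √c6) * κ = √((c6 + 2 * cD ε * √c6) * κ ^ 2) := by
    rw [Real.sqrt_mul (by positivity), Real.sqrt_sq (by linarith)]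
  rw [e0]
  apply Real.sqrt_le_sqrt
  have h5 : √(ss ε κ n) ≤ √c6 * √κ := by
    rw [← Real.sqrt_mul h4.le]
    exact Real.sqrt_le_sqrt h2
  have h6 := log_sqrt hκ
  have h7 : dD ε κ * √(ss ε κ n) ≤ 2 * cD ε * √c6 * κ ^ 2 := by
    unfold dD
    have hk : √κ * √κ = κ := Real.mul_self_sqrt (by linarith)
    calc cD ε * κ * (1 + Real.log κ) * √(ss ε κ n)
        ≤ cD ε * κ * (2 * √κ) * (√c6 * √κ) := by gcongr
      _ = 2 * cD ε * √c6 * κ * (√κ * √κ) := by ring
      _ = 2 * cD ε * √c6 * κ ^ 2 := by rw [hk]; ring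
  have h8 : κ * ss ε κ n ≤ c6 * κ ^ 2 := by
    calc κ * ss ε κ n ≤ κ * (c6 * κ) := mul_le_mul_of_nonneg_left h2 (by linarith)
      _ = c6 * κ ^ 2 := by ring
  linarith

include hκ in
/-- the numerical estimate -/
theorem num_N (hε : 0 < ε) (n : ℕ) (hn : ε / 2 ≤ ss ε κ n) (q : ℕ → ℝ) (hq : ∀ i, 0 ≤ q i)
    (hqs : ∑ i ∈ Finset.range n, q i ≤ 1 / 63) :
    k9 * κ + ∑ i ∈ Finset.range n, ww ε κ i * (kN * (√(κ * ss ε κ i + dD ε κ * √(ss ε κ i)) +
      2 * (κ * dD ε κ * q i) + κ + κ * √(ss ε κ i) * q i)) ≤ dD ε κ := by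
  have hc6 := c6_pos
  have hkN := kN_pos
  have hk9 := k9_pos
  have hlog := Real.log_nonneg hκ
  have hcD := cD_pos ε
  have hD := dD_pos (ε := ε) hκ
  have hc1 := c1_ge
  obtain ⟨D, hDD⟩ : ∃ D, D = dD ε κ := ⟨_, rfl⟩
  obtain ⟨Z, hZ⟩ : ∃ Z, Z = √(c6 + 2 * cD ε * √c6) + 1 := ⟨_, rfl⟩
  have hterm : ∀ i ∈ Finset.range n, ww ε κ i * (kN * (√(κ * ss ε κ i + dD ε κ * √(ss ε κ i)) +
      2 * (κ * dD ε κ * q i) + κ + κ * √(ss ε κ i) * q i)) ≤
      ww ε κ i * (kN * Z * κ) + (2 * D + kN * κ) * q i := by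
    intro i _
    have h1 := sqrt_bound (ε := ε) hκ i
    have h2 := ww_le (ε := ε) hκ i
    have h3 := ww_sqrt (ε := ε) hκ i
    have h0 := ww_pos (ε := ε) hκ i
    have hqi := hq i
    have a1 : ww ε κ i * (kN * (√(κ * ss ε κ i + dD ε κ * √(ss ε κ i)) + κ)) ≤
        ww ε κ i * (kN * Z * κ) := by
      refine mul_le_mul_of_nonneg_left ?_ h0.le
      rw [hZ]
      have : kN * (√(c6 + 2 * cD ε * √c6) + 1) * κ =
          kN * (√(c6 + 2 * cD ε * √c6) * κ + κ) := by ring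
      rw [this]
      exact mul_le_mul_of_nonneg_left (by linarith) hkN.le
    have a2 : ww ε κ i * (kN * (2 * (κ * dD ε κ * q i))) ≤ 2 * D * q i := by
      rw [← hDD]
      have hD' : 0 < D := by rw [hDD]; exact hD
      calc ww ε κ i * (kN * (2 * (κ * D * q i)))
          ≤ 1 / (c1 * κ) * (c1 * (2 * (κ * D * q i))) := by
            refine mul_le_mul h2 ?_ (by positivity) (by
              have : 0 < c1 := by linarith
              positivity)
            exact mul_le_mul_of_nonneg_right hc1.2.2.1 (by positivity)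
        _ = 2 * D * q i := by
            have : κ ≠ 0 := by positivity
            have : c1 ≠ 0 := by
              have : 0 < c1 := by linarith
              exact this.ne'
            field_simp
    have a3 : ww ε κ i * (kN * (κ * √(ss ε κ i) * q i)) ≤ kN * κ * q i := by
      calc ww ε κ i * (kN * (κ * √(ss ε κ i) * q i))
          = (ww ε κ i * √(ss ε κ i)) * (kN * κ * q i) := by ring
        _ ≤ 1 * (kN * κ * q i) := mul_le_mul_of_nonneg_right h3 (by positivity)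
        _ = kN * κ * q i := one_mul _
    have e1 : ww ε κ i * (kN * (√(κ * ss ε κ i + dD ε κ * √(ss ε κ i)) +
      2 * (κ * dD ε κ * q i) + κ + κ * √(ss ε κ i) * q i)) =
      ww ε κ i * (kN * (√(κ * ss ε κ i + dD ε κ * √(ss ε κ i)) + κ)) +
      ww ε κ i * (kN * (2 * (κ * dD ε κ * q i))) +
      ww ε κ i * (kN * (κ * √(ss ε κ i) * q i)) := by ring
    rw [e1]
    linarith
  have hsum := Finset.sum_le_sum hterm
  rw [Finset.sum_add_distrib, ← Finset.sum_mul, ← Finset.mul_sum] at hsum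
  have h1 := sum_ww hκ hε n hn
  have hkey := cD_key ε
  rw [← hZ] at hkey
  have hZ0 : 0 ≤ Z := by rw [hZ]; positivity
  have b1 : (∑ i ∈ Finset.range n, ww ε κ i) * (kN * Z * κ) ≤ D / 4 := by
    calc (∑ i ∈ Finset.range n, ww ε κ i) * (kN * Z * κ)
        ≤ (cA ε * (1 + Real.log κ)) * (kN * Z * κ) :=
          mul_le_mul_of_nonneg_right h1 (by positivity)
      _ = (cM ε * Z) * (κ * (1 + Real.log κ)) / 4 := by
          unfold cM
          ring
      _ ≤ cD ε * (κ * (1 + Real.log κ)) / 4 := by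
          have := mul_le_mul_of_nonneg_right hkey (show 0 ≤ κ * (1 + Real.log κ) by positivity)
          linarith
      _ = D / 4 := by
          rw [hDD]
          unfold dD
          ring
  have hDk : cD ε * κ ≤ D := by
    rw [hDD]
    unfold dD
    have : 0 ≤ cD ε * κ * Real.log κ := by positivity
    linarith
  have hkN4 := mul_le_mul_of_nonneg_right (cD_kN ε) (show 0 ≤ κ by linarith)
  have hk94 := mul_le_mul_of_nonneg_right (cD_k9 ε) (show 0 ≤ κ by linarith)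
  have hD0 : 0 < D := by rw [hDD]; exact hD
  have b2 : (2 * D + kN * κ) * ∑ i ∈ Finset.range n, q i ≤ (2 * D + kN * κ) * (1 / 63) :=
    mul_le_mul_of_nonneg_left hqs (by positivity)
  rw [← hDD]
  rw [← hDD] at hsum
  linarith

end

end Pool.Agent.H12.MG
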