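import Pool.Agent.H12.MG.State

/-! # Locality of derivations, adjoints -/

set_option autoImplicit false
set_option linter.unusedSectionVars false

noncomputable section

namespace Pool.Agent.H12.MG

open MvPolynomial Pool.Agent.H717R2.ON3

variable {V : Type} [Fintype V] [DecidableEq V] {ι : Type} [Fintype ι] {G : Gr V ι} {β : ℝ}
  {Λ : Finset V}

theorem der_C (d : Derivation ℂ (CA V) (CA V)) (c : ℂ) : d (C c) = 0 := by
  rw [← algebraMap_eq, Derivation.map_algebraMap]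

theorem der_kill {A : Set V} {F : CA V} (h : Su A F) (d : Derivation ℂ (CA V) (CA V))
    (hd : ∀ x ∈ A, ∀ i, d (X (x, i)) = 0) : d F = 0 := by
  refine Su.induct (P := fun F => d F = 0) ?_ ?_ ?_ ?_ h
  · intro c; exact der_C d c
  · intro x hx i; exact hd x hx i
  · intro F F' _ _ h1 h2
    rw [map_add, h1, h2, add_zero]
  · intro F F' _ _ h1 h2
    rw [Derivation.leibniz, h1, h2, smul_zero, smul_zero, add_zero]

theorem der_Su {A : Set V} {F : CA V} (h : Su A F) (d : Derivation ℂ (CA V) (CA V))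
    (hd : ∀ x ∈ A, ∀ i, Su A (d (X (x, i)))) : Su A (d F) := by
  refine Su.induct (P := fun F => Su A (d F)) ?_ ?_ ?_ ?_ h
  · intro c; rw [der_C]; exact Su.zero
  · intro x hx i; exact hd x hx i
  · intro F F' _ _ h1 h2
    rw [map_add]; exact h1.add h2
  · intro F F' hF hF' h1 h2
    rw [Derivation.leibniz]
    exact (hF.mul h2).add (hF'.mul h1)

theorem Su_uu {A : Set V} {x : V} (hx : x ∈ A) : Su A (uu x) :=
  (Su.X hx _).add ((Su.X hx _).smul _)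

theorem Su_zz {A : Set V} {x : V} (hx : x ∈ A) : Su A (zz x) := Su.X hx _

theorem D0_kill {A : Set V} {F : CA V} (h : Su A F) {θ : V → ℂ} (hθ : ∀ x ∈ A, θ x = 0) :
    D0 θ F = 0 := by
  refine der_kill h _ fun x hx i => ?_
  rcases fin3_cases i with rfl | rfl | rfl
  · rw [D0_X0]
  · rw [D0_X1, hθ x hx, zero_smul, neg_zero]
  · rw [D0_X2, hθ x hx, zero_smul]

theorem Dp_kill {A : Set V} {F : CA V} (h : Su A F) {b : V → ℂ} (hb : ∀ x ∈ A, b x = 0) :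
    Dp b F = 0 := by
  refine der_kill h _ fun x hx i => ?_
  rcases fin3_cases i with rfl | rfl | rfl
  · rw [Dp_X0, hb x hx, zero_mul, zero_smul, neg_zero]
  · rw [Dp_X1, hb x hx, zero_mul, zero_smul]
  · rw [Dp_X2, hb x hx, zero_smul, neg_zero]

theorem D0_Su {A : Set V} {F : CA V} (h : Su A F) (θ : V → ℂ) : Su A (D0 θ F) := by
  refine der_Su h _ fun x hx i => ?_
  rcases fin3_cases i with rfl | rfl | rfl
  · rw [D0_X0]; exact Su.zero
  · rw [D0_X1]; exact ((Su.X hx _).smul _).neg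
  · rw [D0_X2]; exact (Su.X hx _).smul _

theorem Dp_Su {A : Set V} {F : CA V} (h : Su A F) (b : V → ℂ) : Su A (Dp b F) := by
  refine der_Su h _ fun x hx i => ?_
  rcases fin3_cases i with rfl | rfl | rfl
  · rw [Dp_X0]; exact ((Su_uu hx).smul _).neg
  · rw [Dp_X1]; exact (Su_zz hx).smul _
  · rw [Dp_X2]; exact ((Su_zz hx).smul _).neg

theorem D0_congr {A : Set V} {F : CA V} (h : Su A F) {θ θ' : V → ℂ} (hθ : ∀ x ∈ A, θ x = θ' x) :
    D0 θ F = D0 θ' F := by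
  have h1 : θ = θ' + (θ - θ') := by abel
  rw [h1, D0_add_fun, Derivation.add_apply,
    D0_kill h (θ := θ - θ') (fun x hx => by rw [Pi.sub_apply, hθ x hx, sub_self]), add_zero]

theorem D0_sum_fun {α : Type} (I : Finset α) (θ : α → V → ℂ) :
    D0 (∑ a ∈ I, θ a) = ∑ a ∈ I, D0 (θ a) := by
  classical
  induction I using Finset.induction_on with
  | empty =>
    rw [Finset.sum_empty, Finset.sum_empty]
    unfold D0
    simp
  | insert a I ha ih => rw [Finset.sum_insert ha, Finset.sum_insert ha, D0_add_fun, ih]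

theorem sum_der_apply {α : Type} (I : Finset α) (d : α → Derivation ℂ (CA V) (CA V)) (F : CA V) :
    (∑ a ∈ I, d a) F = ∑ a ∈ I, d a F := by
  classical
  induction I using Finset.induction_on with
  | empty => simp
  | insert a I ha ih => rw [Finset.sum_insert ha, Finset.sum_insert ha, Derivation.add_apply, ih]

/-- integration by parts -/
theorem EC_D0 (W : WFun G β Λ) {θ : V → ℂ} (hθ : ∀ x, x ∉ Λ → θ x = 0) (F : CA V) :
    EC W (D0 θ F) = EC W (S0 G β θ * F) := by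
  rw [D0_apply]
  unfold S0
  rw [D0_apply, neg_mul, Finset.sum_mul, map_neg, map_sum, map_sum, ← Finset.sum_neg_distrib]
  refine Finset.sum_congr rfl fun x _ => ?_
  by_cases hx : x ∈ Λ
  · rw [map_smul, EC_DD W hx, DD_HH, smul_neg, neg_mul, map_neg, neg_neg, smul_mul_assoc, map_smul]
  · rw [hθ x hx, zero_smul, zero_smul, zero_mul, map_zero, neg_zero]

theorem EC_Dp (W : WFun G β Λ) {b : V → ℂ} (hb : ∀ x, x ∉ Λ → b x = 0) (F : CA V) :
    EC W (Dp b F) = EC W (Sp G β b * F) := by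
  rw [Dp_apply]
  unfold Sp
  rw [Dp_apply, neg_mul, Finset.sum_mul, map_neg, map_sum, map_sum, ← Finset.sum_neg_distrib]
  refine Finset.sum_congr rfl fun x _ => ?_
  by_cases hx : x ∈ Λ
  · rw [Pp_apply, Pp_apply, DD_HH, DD_HH, map_smul, map_add, map_smul, EC_DD W hx, EC_DD W hx,
      smul_mul_assoc, map_smul, add_mul, map_add, smul_mul_assoc, map_smul, neg_mul, neg_mul,
      map_neg, map_neg]
    simp only [smul_eq_mul]
    ring
  · rw [hb x hx, zero_smul, zero_smul, zero_mul, map_zero, neg_zero]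

/-- the adjoint of `D0 θ` -/
def Ds (G : Gr V ι) (β : ℝ) (θ : V → ℂ) (F : CA V) : CA V := S0 G β θ * F - D0 θ F

/-- real functions as complex functions -/
def cc (b : V → ℝ) : V → ℂ := fun x => (b x : ℂ)

theorem cc_conj (b : V → ℝ) (x : V) : starRingEnd ℂ (cc b x) = cc b x := Complex.conj_ofReal _

theorem cj_he (G : Gr V ι) (e : ι) : cj (he G e) = he G e := by
  unfold he
  simp only [map_add, map_mul, cj_X]

theorem cj_HH (G : Gr V ι) (β : ℝ) : cj (HH G β) = HH G β := by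
  unfold HH
  rw [cj_smul, map_sum, Complex.conj_ofReal]
  simp only [cj_he]

theorem cj_S0 (G : Gr V ι) (β : ℝ) (θ : V → ℝ) : cj (S0 G β (cc θ)) = S0 G β (cc θ) := by
  unfold S0
  rw [map_neg, cj_D0 _ (cc_conj θ), cj_HH]

theorem adj (W : WFun G β Λ) {θ : V → ℝ} (hθ : ∀ x, x ∉ Λ → θ x = 0) (A B : CA V) :
    EC W (cj A * Ds G β (cc θ) B) = EC W (cj (D0 (cc θ) A) * B) := by
  unfold Ds
  have h1 := EC_D0 W (θ := cc θ) (fun x hx => by
    show ((θ x : ℝ) : ℂ) = 0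
    rw [hθ x hx, Complex.ofReal_zero]) (cj A * B)
  rw [Derivation.leibniz, smul_eq_mul, smul_eq_mul, map_add] at h1
  rw [cj_D0 _ (cc_conj θ), mul_sub, map_sub]
  have h2 : cj A * (S0 G β (cc θ) * B) = S0 G β (cc θ) * (cj A * B) := by ring
  rw [h2, ← h1, mul_comm B]
  ring

theorem Ds_add (θ : V → ℂ) (A B : CA V) : Ds G β θ (A + B) = Ds G β θ A + Ds G β θ B := by
  unfold Ds
  rw [map_add]; ring

theorem Ds_sub (θ : V → ℂ) (A B : CA V) : Ds G β θ (A - B) = Ds G β θ A - Ds G β θ B := by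
  unfold Ds
  rw [map_sub]; ring

theorem Ds_smul (θ : V → ℂ) (c : ℂ) (A : CA V) : Ds G β θ (c • A) = c • Ds G β θ A := by
  unfold Ds
  rw [Derivation.map_smul, mul_smul_comm, smul_sub]

theorem Ds_zero (θ : V → ℂ) : Ds G β θ (0 : CA V) = 0 := by
  unfold Ds
  rw [map_zero, mul_zero, sub_zero]

theorem D0_Ds (θ' θ : V → ℂ) (A : CA V) :
    D0 θ' (Ds G β θ A) = Ds G β θ (D0 θ' A) + D0 θ' (S0 G β θ) * A := by
  unfold Ds
  rw [map_sub, Derivation.leibniz, D0_comm θ' θ, smul_eq_mul, smul_eq_mul]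
  ring

theorem EC_symm (W : WFun G β Λ) (A B : CA V) :
    EC W (cj A * B) = starRingEnd ℂ (EC W (cj B * A)) := by
  rw [← EC_cj, RingHom.map_mul, cj_cj, mul_comm]

/-- norm of the adjoint -/
theorem nrm_Ds_sq (W : WFun G β Λ) {θ : V → ℝ} (hθ : ∀ x, x ∉ Λ → θ x = 0) (F : CA V) {κ : ℝ}
    (hκ : 0 ≤ κ) (h : ∀ σ : V × Fin 3 → ℝ, Pt σ → ‖ev σ (D0 (cc θ) (S0 G β (cc θ)))‖ ≤ κ) :
    nrm W (Ds G β (cc θ) F) ^ 2 ≤ nrm W (D0 (cc θ) F) ^ 2 + κ * nrm W F ^ 2 := by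
  have h1 := adj W hθ (Ds G β (cc θ) F) F
  rw [D0_Ds, map_add, add_mul, map_add] at h1
  have h2 := adj W hθ F (D0 (cc θ) F)
  -- EC (cj (Ds DF) * F) = conj EC (cj F * Ds DF)
  have h3 : EC W (cj (Ds G β (cc θ) (D0 (cc θ) F)) * F) =
      ((nrm W (D0 (cc θ) F) ^ 2 : ℝ) : ℂ) := by
    have h4 : EC W (cj (Ds G β (cc θ) (D0 (cc θ) F)) * F) =
        starRingEnd ℂ (EC W (cj F * Ds G β (cc θ) (D0 (cc θ) F))) := EC_symm W _ _
    rw [h4, h2, EC_self, Complex.conj_ofReal]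
  rw [EC_self, h3] at h1
  have h5 : EC W (cj (D0 (cc θ) (S0 G β (cc θ)) * F) * F) =
      EC W (cj F * (cj (D0 (cc θ) (S0 G β (cc θ))) * F)) := by
    congr 1
    rw [RingHom.map_mul]
    ring
  have h6 : ‖EC W (cj F * (cj (D0 (cc θ) (S0 G β (cc θ))) * F))‖ ≤ κ * nrm W F ^ 2 := by
    refine EC_mul_le W _ _ hκ fun σ hσ => ?_
    rw [ev_cj]
    rw [RCLike.norm_conj]
    exact h σ hσ
  rw [h5] at h1
  have h7 := congrArg Complex.re h1
  rw [Complex.ofReal_re, Complex.add_re, Complex.ofReal_re] at h7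
  rw [h7]
  have h8 := Complex.re_le_norm (EC W (cj F * (cj (D0 (cc θ) (S0 G β (cc θ))) * F)))
  linarith

theorem landau_num {x f y z κ : ℝ} (hf0 : 0 ≤ f) (hy0 : 0 ≤ y)
    (hκ : 0 ≤ κ) (h3 : x ^ 2 ≤ f * z) (h4 : z ^ 2 ≤ y ^ 2 + κ * x ^ 2) :
    x ^ 2 ≤ κ * f ^ 2 + f * y := by
  obtain ⟨q, hq⟩ : ∃ q, q = x ^ 2 := ⟨_, rfl⟩
  rw [← hq] at h3 h4 ⊢
  have hq0 : 0 ≤ q := by rw [hq]; positivity
  have h5 : q ^ 2 ≤ f ^ 2 * (y ^ 2 + κ * q) := by
    calc q ^ 2 ≤ (f * z) ^ 2 := pow_le_pow_left₀ hq0 h3 2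
      _ = f ^ 2 * z ^ 2 := by ring
      _ ≤ f ^ 2 * (y ^ 2 + κ * q) := mul_le_mul_of_nonneg_left h4 (by positivity)
  by_contra hcon
  push Not at hcon
  obtain ⟨u, hu⟩ : ∃ u, u = κ * f ^ 2 := ⟨_, rfl⟩
  obtain ⟨v, hv⟩ : ∃ v, v = f * y := ⟨_, rfl⟩
  have hu0 : 0 ≤ u := by rw [hu]; positivity
  have hv0 : 0 ≤ v := by rw [hv]; positivity
  rw [← hu, ← hv] at hcon
  have h6 : q ^ 2 ≤ v ^ 2 + u * q := by
    rw [hu, hv]
    calc q ^ 2 ≤ f ^ 2 * (y ^ 2 + κ * q) := h5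
      _ = (f * y) ^ 2 + κ * f ^ 2 * q := by ring
  have h7 : v * v ≤ v * q := mul_le_mul_of_nonneg_left (by linarith) hv0
  have h8 : 0 < q * (q - u - v) := mul_pos (by linarith) (by linarith)
  nlinarith

/-- Landau inequality -/
theorem landau (W : WFun G β Λ) {θ : V → ℝ} (hθ : ∀ x, x ∉ Λ → θ x = 0) (F : CA V) {κ : ℝ}
    (hκ : 0 ≤ κ) (h : ∀ σ : V × Fin 3 → ℝ, Pt σ → ‖ev σ (D0 (cc θ) (S0 G β (cc θ)))‖ ≤ κ) :
    nrm W (D0 (cc θ) F) ^ 2 ≤ κ * nrm W F ^ 2 +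
      nrm W F * nrm W (D0 (cc θ) (D0 (cc θ) F)) := by
  have h2 := adj W hθ F (D0 (cc θ) F)
  rw [EC_self] at h2
  have h3 := cs W F (Ds G β (cc θ) (D0 (cc θ) F))
  rw [h2, Complex.norm_real, Real.norm_of_nonneg (sq_nonneg _)] at h3
  have h4 := nrm_Ds_sq W hθ (D0 (cc θ) F) hκ h
  exact landau_num (nrm_nonneg W _) (nrm_nonneg W _) hκ h3 h4

end Pool.Agent.H12.MG
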