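import Pool.Agent.H12.MG.Ind

/-! # The renormalised score: main theorem of the core -/

set_option autoImplicit false
set_option linter.unusedSectionVars false

noncomputable section

namespace Pool.Agent.H12.MG

open MvPolynomial Pool.Agent.H5R2.ON Pool.Agent.H717R2.ON3 Pool.Agent.H983R2.ONJ

variable {L : ℕ} [NeZero L] {ι : Type} [Fintype ι] {G : Gr (Tor L) ι} {β ρ K : ℝ}
  {Λ : Finset (Tor L)} {l : ℕ → ℝ}

theorem NN_n (W : WFun G β Λ) (hG : Nice G β ρ K) (hK : 0 ≤ K) (hS : Scl ρ l) {ε : ℝ}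
    (hε : 0 < ε) {n : ℕ} (hn : ε / 2 ≤ ss ε (1 + K) n) (h2 : ∀ j < n, 2 * l j < L)
    (hSS : ∀ j < n, SS W l (ww ε (1 + K)) j (ss ε (1 + K) j))
    (hNN : ∀ j < n, NN W l (ww ε (1 + K)) j (dD ε (1 + K))) :
    NN W l (ww ε (1 + K)) n (dD ε (1 + K)) := by
  intro b z lam θ hlam hb hΛ hθ
  have hκ : (1 : ℝ) ≤ 1 + K := by linarith
  have hln := hS.one n
  have hD := dD_pos (ε := ε) hκ
  have h1 := nrm_rot_Sp W hG hS.nn hK hln (hS.rho' n) hlam hb hθ (by
    refine Set.Subset.trans ?_ hΛ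
    intro x hx
    have h3 : tnorm (x - z) ≤ 6 * l n := hx
    show tnorm (x - z) ≤ 19 * l n
    linarith)
  have h3 : ∀ i ∈ Finset.range n, nrm W ((Complex.I * (ww ε (1 + K) i : ℂ)) •
      rot θ (TT G β l (ww ε (1 + K)) i b)) ≤
      ww ε (1 + K) i * (kN * (√((1 + K) * ss ε (1 + K) i + dD ε (1 + K) * √(ss ε (1 + K) i)) +
      2 * ((1 + K) * dD ε (1 + K) * (l i / l n)) + (1 + K) +
      (1 + K) * √(ss ε (1 + K) i) * (l i / l n))) * (lam * l n) := by
    intro i hi
    have hin := Finset.mem_range.1 hi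
    have h4 := rotTT_le (w := ww ε (1 + K)) W hG hK hS hin (s := ss ε (1 + K))
      (D := dD ε (1 + K)) (fun j _ => (ss_pos hκ j).le) hD.le
      (fun j hj => hSS j (lt_of_le_of_lt hj hin)) (hNN i hin)
      (fun j _ => ⟨(ww_pos hκ j).le, ww_sqrt hκ j⟩)
      (fun j hj => h2 j (lt_of_le_of_lt hj hin)) hlam hb hΛ hθ
    have hw := (ww_pos (ε := ε) hκ i).le
    rw [nrm_smul, norm_mul, Complex.norm_I, one_mul, Complex.norm_real, Real.norm_of_nonneg hw]
    refine (mul_le_mul_of_nonneg_left h4 hw).trans (le_of_eq ?_)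
    ring
  rw [VV_unfold, map_sub, map_sum]
  simp only [map_smul]
  refine (nrm_sub_le W _ _).trans ?_
  refine (add_le_add h1 ((nrm_sum_le W _ _).trans (Finset.sum_le_sum h3))).trans ?_
  rw [← Finset.sum_mul, ← add_mul]
  refine mul_le_mul_of_nonneg_right ?_ (by positivity)
  exact num_N hκ hε n hn (fun i => l i / l n) (fun i => by
    have := hS.one i
    positivity) (hS.sum_ratio n)

/-- the induction -/
theorem SN_ind (W : WFun G β Λ) (hW : Inv W) (hG : Nice G β ρ K) (hK : 0 ≤ K) (hS : Scl ρ l)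
    {ε : ℝ} (hε : 0 < ε) {N : ℕ} (hN : ∀ n < N, ε < ss ε (1 + K) n)
    (h2 : ∀ j < N, 2 * l j < L) : ∀ n ≤ N, SS W l (ww ε (1 + K)) n (ss ε (1 + K) n) ∧
      (n < N → NN W l (ww ε (1 + K)) n (dD ε (1 + K))) := by
  have hκ : (1 : ℝ) ≤ 1 + K := by linarith
  intro n
  induction n using Nat.strong_induction_on with
  | _ n ih =>
    intro hn
    constructor
    · rcases Nat.eq_zero_or_pos n with h0 | h0
      · subst h0
        exact SS_zero W hG hK hS
      · obtain ⟨m, rfl⟩ := Nat.exists_eq_succ_of_ne_zero h0.ne'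
        have h3 := ih m (Nat.lt_succ_self m) (by omega)
        exact SS_succ (w := ww ε (1 + K)) W hW hG hK hS (ss_pos hκ m).le (dD_pos hκ).le h3.1
          (h3.2 (by omega)) (h2 m (by omega)) (ww_pos hκ m).le (ww_half hκ m) (ww_step hκ m)
    · intro hnN
      refine NN_n W hG hK hS hε ?_ (fun j hj => h2 j (by omega))
        (fun j hj => (ih j hj (by omega)).1) (fun j hj => (ih j hj (by omega)).2 (by omega))
      have := hN n hnN
      linarith

theorem fR_cls {R : ℝ} (hR : 0 < R) (p : Tor L) : Cls (4 / R) p (R / 2) (cc (fR R p)) := by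
  refine ⟨fun x y => ?_, fun x hx => ?_, fun x => ?_⟩
  · show ‖((fR R p x : ℝ) : ℂ) - ((fR R p y : ℝ) : ℂ)‖ ≤ _
    rw [← Complex.ofReal_sub, Complex.norm_real, Real.norm_eq_abs]
    exact Aux493C.fR_lip R hR p x y
  · show ((fR R p x : ℝ) : ℂ) = 0
    have : fR R p x = 0 := by
      by_contra hc
      exact hx (Aux493C.fR_supp R hR p x hc)
    rw [this, Complex.ofReal_zero]
  · show ‖((fR R p x : ℝ) : ℂ)‖ ≤ _
    rw [Complex.norm_real, Real.norm_eq_abs]
    have h1 : 0 ≤ fR R p x := le_max_left _ _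
    have h2 : fR R p x ≤ 1 := max_le zero_le_one (min_le_left _ _)
    rw [abs_of_nonneg h1]
    have : 4 / R * (R / 2) = 2 := by
      field_simp
      norm_num
    linarith

theorem ev_congr {V : Type} [Fintype V] [DecidableEq V] {A : Set V} {F : CA V} (h : Su A F)
    {σ σ' : V × Fin 3 → ℝ} (hσ : ∀ x ∈ A, ∀ g, σ (x, g) = σ' (x, g)) : ev σ F = ev σ' F := by
  refine Su.induct (P := fun F => ev σ F = ev σ' F) ?_ ?_ ?_ ?_ h
  · intro c; simp [ev]
  · intro x hx i; rw [ev_X, ev_X, hσ x hx]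
  · intro F F' _ _ h1 h2; rw [map_add, map_add, h1, h2]
  · intro F F' _ _ h1 h2; rw [map_mul, map_mul, h1, h2]

/-- number of scales -/
theorem count (ε : ℝ) (hε : 0 < ε) : ∃ C : ℝ, 0 < C ∧ ∀ K : ℝ, 0 ≤ K → ∃ N : ℕ,
    ss ε (1 + K) N ≤ ε ∧ (∀ n < N, ε < ss ε (1 + K) n) ∧
      (N : ℝ) ≤ C * ((1 + K) * Real.log (2 + K)) := by
  have hc6 := c6_pos
  have hc1 := c1_ge
  have hcD := cD_pos ε
  have hl2 : 0 < Real.log 2 := Real.log_pos (by norm_num)
  have hc10 : 0 < c1 := by linarith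
  obtain ⟨A, hA⟩ : ∃ A, A = 1 + |Real.log c6 - Real.log ε| := ⟨_, rfl⟩
  have hA1 : 1 ≤ A := by
    rw [hA]
    have := abs_nonneg (Real.log c6 - Real.log ε)
    linarith
  obtain ⟨B, hB⟩ : ∃ B, B = c1 * A + 2 * c1 * cD ε * (1 / √ε) + 1 := ⟨_, rfl⟩
  have hB0 : 0 < B := by rw [hB]; positivity
  refine ⟨B * (1 / Real.log 2 + 1), by positivity, ?_⟩
  intro K hK
  have hκ : (1 : ℝ) ≤ 1 + K := by linarith
  have hlog := Real.log_nonneg hκ
  obtain ⟨N, h1, h3, h4⟩ := stop (C₁ := c1) (κ := 1 + K) (D := dD ε (1 + K))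
    (s₀ := c6 * (1 + K)) hc1.1 hκ (dD_pos hκ).le (by positivity) ε hε
  refine ⟨N, h1, h3, h4.trans ?_⟩
  have h5 : |Real.log (c6 * (1 + K)) - Real.log ε| ≤ A * (1 + Real.log (1 + K)) := by
    rw [Real.log_mul hc6.ne' (by linarith)]
    have e1 : Real.log c6 + Real.log (1 + K) - Real.log ε =
        (Real.log c6 - Real.log ε) + Real.log (1 + K) := by ring
    rw [e1]
    refine (abs_add_le _ _).trans ?_
    rw [abs_of_nonneg hlog, hA]
    have := abs_nonneg (Real.log c6 - Real.log ε)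
    nlinarith
  obtain ⟨y, hy⟩ : ∃ y, y = (1 + K) * (1 + Real.log (1 + K)) := ⟨_, rfl⟩
  have hy1 : 1 ≤ y := by
    rw [hy]
    nlinarith
  have h6 : c1 * (1 + K) * |Real.log (c6 * (1 + K)) - Real.log ε| ≤ c1 * A * y := by
    calc c1 * (1 + K) * |Real.log (c6 * (1 + K)) - Real.log ε|
        ≤ c1 * (1 + K) * (A * (1 + Real.log (1 + K))) :=
          mul_le_mul_of_nonneg_left h5 (by positivity)
      _ = c1 * A * y := by rw [hy]; ring
  have h7 : 2 * c1 * dD ε (1 + K) * (1 / √ε) = 2 * c1 * cD ε * (1 / √ε) * y := by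
    unfold dD
    rw [hy]
    ring
  have h8 : y ≤ (1 / Real.log 2 + 1) * ((1 + K) * Real.log (2 + K)) := by
    rw [hy]
    have a1 : Real.log (1 + K) ≤ Real.log (2 + K) := Real.log_le_log (by linarith) (by linarith)
    have a2 : Real.log 2 ≤ Real.log (2 + K) := Real.log_le_log (by norm_num) (by linarith)
    have a3 : 1 ≤ 1 / Real.log 2 * Real.log (2 + K) := by
      rw [one_div, ← div_eq_inv_mul, le_div_iff₀ hl2]
      linarith
    have a4 : 1 + Real.log (1 + K) ≤ (1 / Real.log 2 + 1) * Real.log (2 + K) := by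
      rw [add_mul, one_mul]
      linarith
    calc (1 + K) * (1 + Real.log (1 + K))
        ≤ (1 + K) * ((1 / Real.log 2 + 1) * Real.log (2 + K)) :=
          mul_le_mul_of_nonneg_left a4 (by linarith)
      _ = _ := by ring
  calc c1 * (1 + K) * |Real.log (c6 * (1 + K)) - Real.log ε| +
        2 * c1 * dD ε (1 + K) * (1 / √ε) + 1
      ≤ c1 * A * y + 2 * c1 * cD ε * (1 / √ε) * y + 1 * y := by
        rw [h7, one_mul]
        linarith
    _ = B * y := by rw [hB]; ring
    _ ≤ B * ((1 / Real.log 2 + 1) * ((1 + K) * Real.log (2 + K))) :=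
        mul_le_mul_of_nonneg_left h8 hB0.le
    _ = _ := by ring

/-- The main theorem of the core. -/
theorem rg_bound (ε : ℝ) (hε : 0 < ε) : ∃ C : ℝ, 0 < C ∧ ∀ K : ℝ, 0 ≤ K →
    ∀ R : ℝ, Real.exp (C * ((1 + K) * Real.log (2 + K))) ≤ R → ∀ (L : ℕ) [NeZero L], 2 * R < L →
      ∀ {ι : Type} [Fintype ι]
      (G : Gr (Tor L) ι) (β ρ : ℝ), Nice G β ρ K → 1 ≤ ρ → ρ ≤ √R → ∀ (p : Tor L),
      ∃ U : Alg (Tor L),
        (∀ W : WFun G β (ball p R), W.E (X (p, 0)) = W.E (U * X (p, 1))) ∧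
        (∀ W : WFun G β (ball p R),
          (∀ (g : Fin 3) (F : Alg (Tor L)), W.E (Pool.Agent.H717R2.ON3.R (fun _ => 1) g F) = 0) →
            W.E (U ^ 2) ≤ ε) ∧
        ∀ σ σ' : Tor L × Fin 3 → ℝ,
          (∀ x, R / 8 ≤ tnorm (x - p) → ∀ g, σ (x, g) = σ' (x, g)) →
            eval σ U = eval σ' U := by
  classical
  obtain ⟨C, hC, hcount⟩ := count (ε / 4) (by positivity)
  have hl2 : 0 < Real.log 2 := Real.log_pos (by norm_num)
  refine ⟨12 / Real.log 2 + 9 * C, by positivity, ?_⟩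
  intro K hK R hR L _ hL ι _ G β ρ hG hρ1 hρR p
  obtain ⟨N, hN1, hN2, hN3⟩ := hcount K hK
  have hκ : (1 : ℝ) ≤ 1 + K := by linarith
  -- R is large
  have hΦ : Real.log 2 ≤ (1 + K) * Real.log (2 + K) := by
    have a2 : Real.log 2 ≤ Real.log (2 + K) := Real.log_le_log (by norm_num) (by linarith)
    nlinarith
  have hbig : (256 * 64 ^ N) ^ 2 ≤ R := by
    refine le_trans ?_ hR
    have e1 : (256 : ℝ) ≤ Real.exp 6 := by
      have h2 : (2.7 : ℝ) < Real.exp 1 := by
        have := Real.exp_one_gt_d9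
        linarith
      have h3 : Real.exp 6 = Real.exp 1 ^ 6 := by
        rw [← Real.exp_nat_mul]
        norm_num
      rw [h3]
      have h4 : (2.7 : ℝ) ^ 6 ≤ Real.exp 1 ^ 6 := pow_le_pow_left₀ (by norm_num) h2.le 6
      norm_num at h4 ⊢
      linarith
    have e2 : (64 : ℝ) ≤ Real.exp (9 / 2) := by
      have h2 : (2.7 : ℝ) < Real.exp 1 := by
        have := Real.exp_one_gt_d9
        linarith
      have h3 : Real.exp (9 / 2) ^ 2 = Real.exp 1 ^ 9 := by
        rw [← Real.exp_nat_mul, ← Real.exp_nat_mul]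
        norm_num
      have h4 : (2.7 : ℝ) ^ 9 ≤ Real.exp 1 ^ 9 := pow_le_pow_left₀ (by norm_num) h2.le 9
      have h5 : (64 : ℝ) ^ 2 ≤ Real.exp (9 / 2) ^ 2 := by
        rw [h3]
        norm_num at h4 ⊢
        linarith
      exact (pow_le_pow_iff_left₀ (by norm_num) (Real.exp_pos _).le two_ne_zero).1 h5
    have h5 : (64 : ℝ) ^ N ≤ Real.exp (9 / 2 * (N : ℝ)) := by
      have h6 : (64 : ℝ) ^ N ≤ Real.exp (9 / 2) ^ N := pow_le_pow_left₀ (by norm_num) e2 _
      refine h6.trans (le_of_eq ?_)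
      rw [← Real.exp_nat_mul, mul_comm]
    have h7 : 256 * (64 : ℝ) ^ N ≤ Real.exp (6 + 9 / 2 * (N : ℝ)) := by
      rw [Real.exp_add]
      exact mul_le_mul e1 h5 (by positivity) (Real.exp_pos _).le
    have h8 := pow_le_pow_left₀ (by positivity) h7 2
    refine h8.trans ?_
    rw [← Real.exp_nat_mul]
    refine Real.exp_le_exp.2 ?_
    push_cast
    have h9 : 12 ≤ 12 / Real.log 2 * ((1 + K) * Real.log (2 + K)) := by
      have : 12 / Real.log 2 * Real.log 2 = 12 := by
        field_simp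
      nlinarith [mul_le_mul_of_nonneg_left hΦ (show 0 ≤ 12 / Real.log 2 by positivity)]
    nlinarith
  have h64 : (1 : ℝ) ≤ 64 ^ N := one_le_pow₀ (by norm_num)
  have hR0 : 0 < R := lt_of_lt_of_le (by positivity) hbig
  have hs0 : 0 < √R := Real.sqrt_pos.2 hR0
  have hss : √R * √R = R := Real.mul_self_sqrt hR0.le
  have hs16 : 256 * 64 ^ N ≤ √R := Real.le_sqrt_of_sq_le hbig
  -- scales
  obtain ⟨l, hl⟩ : ∃ l : ℕ → ℝ, l = fun j => 64 ^ j * (8 * ρ) := ⟨_, rfl⟩
  have hS : Scl ρ l := by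
    refine ⟨by linarith, fun k => ?_, fun k => ?_, fun k => ?_⟩
    · rw [hl]
      have : (1 : ℝ) ≤ 64 ^ k := one_le_pow₀ (by norm_num)
      show 1 ≤ 64 ^ k * (8 * ρ)
      nlinarith
    · rw [hl]
      have : (1 : ℝ) ≤ 64 ^ k := one_le_pow₀ (by norm_num)
      show 8 * ρ ≤ 64 ^ k * (8 * ρ)
      nlinarith
    · rw [hl]
      show 64 * (64 ^ k * (8 * ρ)) ≤ 64 ^ (k + 1) * (8 * ρ)
      rw [pow_succ]
      linarith
  have hlN : ∀ j ≤ N, 32 * l j ≤ R := by
    intro j hj
    have h1 : (64 : ℝ) ^ j ≤ 64 ^ N := pow_le_pow_right₀ (by norm_num) hj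
    have h3 : l j ≤ 64 ^ N * (8 * √R) := by
      rw [hl]
      exact mul_le_mul h1 (by linarith) (by linarith) (by positivity)
    have h4 : 256 * 64 ^ N * √R ≤ √R * √R := mul_le_mul_of_nonneg_right hs16 hs0.le
    rw [hss] at h4
    linarith
  have h2l : ∀ j < N, 2 * l j < L := by
    intro j hj
    have := hlN j hj.le
    have := hS.one j
    linarith
  have hlNN := hlN N le_rfl
  have hlN1 := hS.one N
  have hrN := hS.rr_le N
  have hrN0 := hS.rr_ge N
  -- the score
  obtain ⟨w, hw⟩ : ∃ w, w = ww (ε / 4) (1 + K) := ⟨_, rfl⟩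
  obtain ⟨b, hb⟩ : ∃ b : Tor L → ℂ, b = cc (fR R p) := ⟨_, rfl⟩
  have hbc : Cls (4 / R) p (R / 2) b := by rw [hb]; exact fR_cls hR0 p
  obtain ⟨P, Q, hPQ⟩ := decomp (VV G β l w N b)
  have hΛ : thick (bl p (R / 2)) (rr l ρ N) ⊆ (ball p R : Finset (Tor L)) := by
    refine Set.Subset.trans thick_bl ?_
    intro x hx
    have h1 : tnorm (x - p) ≤ R / 2 + rr l ρ N := hx
    show x ∈ ball p R
    rw [mem_ball']
    linarith
  refine ⟨Q, ?_, ?_, ?_⟩
  · intro W
    have h1 := XX_div (w := w) hS.nn hS.one W N _ b hbc.supp hΛ (X (p, 1))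
    have hone : ∀ x, tnorm (x - p) ≤ R / 4 → b x = 1 := by
      intro x hx
      rw [hb]
      show ((fR R p x : ℝ) : ℂ) = 1
      rw [fR_near R hR0 p x hx, Complex.ofReal_one]
    have h3 : XX G β l w N b (X (p, 1)) = Complex.I • X (p, 0) := by
      have e1 : b = (fun _ => (1 : ℂ)) + (fun x => b x - 1) := by
        funext x
        simp
      have hs : Sp0 {x | R / 4 < tnorm (x - p)} (fun x => b x - 1) := by
        intro x hx
        have hx' : tnorm (x - p) ≤ R / 4 := not_lt.1 hx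
        show b x - 1 = 0
        rw [hone x hx', sub_self]
      have h4 : XX G β l w N (fun x => b x - 1) (X (p, 1)) = 0 := by
        refine XX_kill hS.nn hS.one N _ {p} _ _ hs (Su.X (Set.mem_singleton p) 1) ?_
        rw [Set.disjoint_left]
        rintro x hx ⟨y, hy, hxy⟩
        have hx' : x = p := hx
        subst hx'
        have hy' : R / 4 < tnorm (y - x) := hy
        rw [tnorm_sub_comm] at hy'
        linarith
      rw [e1, XX_add, h4, add_zero, XX_const, Dp_X1, one_mul]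
      rfl
    rw [h3, map_smul, hPQ, add_mul, map_add, smul_mul_assoc, map_smul, ← ic_X, ← ic_X,
      ← RingHom.map_mul, ← RingHom.map_mul, EC_ic, EC_ic, EC_ic] at h1
    have h5 := congrArg Complex.im h1
    simpa using h5
  · intro W hW
    have hind := (SN_ind (ε := ε / 4) W hW hG hK hS (by positivity) (N := N) hN2 h2l N
      le_rfl).1
    rw [← hw] at hind
    have h1 := hind b p (R / 2) (4 / R) (by positivity) hbc (by linarith) (by
      intro x hx
      have h1 : tnorm (x - p) ≤ R / 2 + 16 * l N := hx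
      show x ∈ ball p R
      rw [mem_ball']
      linarith)
    rw [nrm_sq, hPQ] at h1
    have e1 : cj (ic P + Complex.I • ic Q) * (ic P + Complex.I • ic Q) = ic (P ^ 2 + Q ^ 2) := by
      rw [map_add, cj_smul, cj_ic, cj_ic, Complex.conj_I, map_add, map_pow, map_pow]
      simp only [smul_eq_C_mul, map_neg]
      have h := C_I_sq (V := Tor L)
      linear_combination (-(ic Q) ^ 2) * h
    rw [e1, EC_ic, Complex.ofReal_re, map_add] at h1
    have h3 : 0 ≤ W.E (P ^ 2) := W.sq_nonneg P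
    have h4 : ss (ε / 4) (1 + K) N * (4 / R * (R / 2)) ^ 2 ≤ ε := by
      have : 4 / R * (R / 2) = 2 := by
        field_simp
        norm_num
      rw [this]
      linarith
    linarith
  · intro σ σ' hσ
    have hV : Su {x | R / 8 ≤ tnorm (x - p)} (VV G β l w N b) := by
      have e1 : b = (fun _ => (1 : ℂ)) + (fun x => b x - 1) := by
        funext x
        simp
      have hs : Sp0 {x | R / 4 < tnorm (x - p)} (fun x => b x - 1) := by
        intro x hx
        have hx' : tnorm (x - p) ≤ R / 4 := not_lt.1 hx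
        show b x - 1 = 0
        rw [hb]
        show ((fR R p x : ℝ) : ℂ) - 1 = 0
        rw [fR_near R hR0 p x hx', Complex.ofReal_one, sub_self]
      rw [e1, VV_add, VV_const, zero_add]
      refine (VV_Su hG hS.nn hS.one N _ _ hs).mono ?_
      rintro x ⟨y, hy, hxy⟩
      have hy' : R / 4 < tnorm (y - p) := hy
      have h3 := tri3 y x p
      rw [tnorm_sub_comm y x] at h3
      show R / 8 ≤ tnorm (x - p)
      linarith
    have h1 := ev_congr hV (σ := σ) (σ' := σ') (fun x hx g => hσ x hx g)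
    rw [hPQ, map_add, map_add, ev_smul, ev_smul, ev_ic, ev_ic, ev_ic, ev_ic] at h1
    have h5 := congrArg Complex.im h1
    simpa using h5

end Pool.Agent.H12.MG
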