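import Pool.Agent.H12.MG.Coh

/-! # The norms of the rotated renormalisation terms -/

set_option autoImplicit false
set_option linter.unusedSectionVars false

noncomputable section

namespace Pool.Agent.H12.MG

open MvPolynomial Pool.Agent.H5R2.ON Pool.Agent.H717R2.ON3 Pool.Agent.H983R2.ONJ

variable {L : ℕ} [NeZero L] {ι : Type} [Fintype ι] {G : Gr (Tor L) ι} {β ρ K : ℝ}
  {Λ : Finset (Tor L)} {l w : ℕ → ℝ}

/-- the local angle -/
def del (η r : ℝ) (θ : Tor L → ℂ) (a : Tor L) : Tor L → ℂ :=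
  fun x => ((1 / η : ℝ) : ℂ) * ((ch r a x : ℂ) * (θ x - θ a))

theorem del_Th {r R : ℝ} (hr : 1 ≤ r) (hR : 1 ≤ R) {θ : Tor L → ℂ} (hθ : Th R θ) (a : Tor L) :
    Th r (del (7 * (r / R)) r θ a) := by
  have hr0 : 0 < r := by linarith
  have hR0 : 0 < R := by linarith
  have h1 : Lp ((1 + 6 * r / r) * (1 / R)) (fun x => (ch r a x : ℂ) * (θ x - θ a)) := by
    refine cut_lip (a := a) (by linarith) (by linarith) (by positivity) (fun x => ch_bd r a x)
      (fun x y => ch_lip hr a x y) (fun x hx => ch_supp hr hx) (fun x => hθ.lip x a) ?_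
    intro x y
    rw [sub_sub_sub_cancel_right]
    exact hθ.lip x y
  refine ⟨fun x => ?_, fun x y => ?_⟩
  · unfold del
    rw [norm_mul, norm_mul, Complex.norm_real, Complex.norm_real, Real.norm_of_nonneg
      (by positivity), Real.norm_of_nonneg (ch_bd r a x).1]
    by_cases hx : ch r a x = 0
    · rw [hx, zero_mul, mul_zero]
      exact zero_le_one
    · have h3 := hθ.lip x a
      have h4 := ch_supp hr hx
      have h5 := mul_le_mul (ch_bd r a x).2 h3 (norm_nonneg _) zero_le_one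
      have h6 : 1 / R * tnorm (x - a) ≤ 1 / R * (6 * r) :=
        mul_le_mul_of_nonneg_left h4 (by positivity)
      have h7 : ch r a x * ‖θ x - θ a‖ ≤ 1 / R * (6 * r) := by linarith
      calc 1 / (7 * (r / R)) * (ch r a x * ‖θ x - θ a‖) ≤ 1 / (7 * (r / R)) * (1 / R * (6 * r)) :=
            mul_le_mul_of_nonneg_left h7 (by positivity)
        _ = 6 / 7 := by
            field_simp
        _ ≤ 1 := by norm_num
  · have h3 := h1 x y
    unfold del
    rw [← mul_sub, norm_mul, Complex.norm_real, Real.norm_of_nonneg (by positivity)]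
    calc 1 / (7 * (r / R)) * ‖(ch r a x : ℂ) * (θ x - θ a) - (ch r a y : ℂ) * (θ y - θ a)‖
        ≤ 1 / (7 * (r / R)) * ((1 + 6 * r / r) * (1 / R) * tnorm (x - y)) :=
          mul_le_mul_of_nonneg_left h3 (by positivity)
      _ = 1 / r * tnorm (x - y) := by
          field_simp
          ring

theorem rot_split {r R : ℝ} (hr : 1 ≤ r) (hR : 1 ≤ R) (θ : Tor L → ℂ) (a : Tor L)
    {F : CA (Tor L)} (hF : Su (bl a (4 * r)) F) (hc : D0 (fun _ => 1) F = Complex.I • F) :
    rot θ F = Complex.exp (θ a * Complex.I) •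
      rot (((7 * (r / R) : ℝ) : ℂ) • del (7 * (r / R)) r θ a) F := by
  have hr0 : 0 < r := by linarith
  have hR0 : 0 < R := by linarith
  have h1 : rot θ F = rot (((7 * (r / R) : ℝ) : ℂ) • del (7 * (r / R)) r θ a + fun _ => θ a) F := by
    refine rot_congr hF fun x hx => ?_
    have hx' : tnorm (x - a) ≤ 4 * r := hx
    have h2 : ch r a x = 1 := ch_one hr (by linarith)
    rw [Pi.add_apply, Pi.smul_apply, smul_eq_mul]
    unfold del
    rw [h2, Complex.ofReal_one, one_mul, ← mul_assoc, ← Complex.ofReal_mul]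
    have h3 : 7 * (r / R) * (1 / (7 * (r / R))) = 1 := by
      field_simp
    rw [h3, Complex.ofReal_one, one_mul, sub_add_cancel]
  rw [h1, rot_add, rot_charged hc, map_smul]

theorem sq3 {x y z : ℝ} (hx : 0 ≤ x) (hy : 0 ≤ y) (hz : 0 ≤ z) :
    x ^ 2 + y ^ 2 + z ^ 2 ≤ (x + y + z) ^ 2 := by
  nlinarith [mul_nonneg hx hy, mul_nonneg hx hz, mul_nonneg hy hz]

/-- constants -/
def kA : ℝ := 294912 * kB ^ 2 / kC ^ 2 * (2592 * kE + 192 + 49 * (1024 + 576 * kE))

/-- constants -/
def kD : ℝ := 387072 * kB ^ 2 / kC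

/-- constants -/
def kZ : ℝ := 192 * kB * kX + 165888 * kB ^ 2 / kC

/-- constants -/
def kN : ℝ := √kA + kD + kZ

theorem kA_pos : 0 < kA := by
  have := kB_pos
  have := kC_pos
  have := kE_pos
  unfold kA
  positivity

theorem kD_pos : 0 < kD := by
  have := kB_pos
  have := kC_pos
  unfold kD
  positivity

theorem kZ_pos : 0 < kZ := by
  have := kB_pos
  have := kC_pos
  have := kX_pos
  unfold kZ
  positivity

theorem kN_pos : 0 < kN := by
  have := kA_pos
  have := kD_pos
  have := kZ_pos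
  unfold kN
  positivity

section nstep

variable (W : WFun G β Λ) (hG : Nice G β ρ K) (hK : 0 ≤ K) (hS : Scl ρ l) {i n : ℕ} (hin : i < n)
  {s : ℕ → ℝ} {D : ℝ} (hs : ∀ j ≤ i, 0 ≤ s j) (hD : 0 ≤ D) (hSS : ∀ j ≤ i, SS W l w j (s j))
  (hNN : NN W l w i D) (hw : ∀ j < i, 0 ≤ w j ∧ w j * √(s j) ≤ 1)
  (h2 : ∀ j ≤ i, 2 * l j < L) {b : Tor L → ℂ} {z : Tor L} {lam : ℝ} (hlam : 0 ≤ lam)
  (hb : Cls lam z (3 * l n) b) (hΛ : bl z (19 * l n) ⊆ Λ) {θ : Tor L → ℂ} (hθ : Th (l n) θ)

include hS hin hb hΛ in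
theorem act_Λ {a : Tor L} (ha : a ∈ act (l i) b) : bl a (19 * l i) ⊆ Λ := by
  have hi := hS.one i
  have hrat := hS.ratio' hin
  refine Set.Subset.trans ?_ hΛ
  intro x hx
  have h5 : tnorm (x - a) ≤ 19 * l i := hx
  have h6 := act_near hi hb.supp ha
  have := tri3 x a z
  show tnorm (x - z) ≤ 19 * l n
  linarith

include hS hin hb in
theorem act_card' : ((act (l i) b).card : ℝ) ≤ 64 * kB * l n ^ 2 := by
  have hi := hS.one i
  have hn := hS.one n
  have hrat := hS.ratio' hin
  have hkB := kB_pos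
  refine (act_card (R := 3 * l n) hi (by positivity) hb.supp).trans ?_
  have h5 : (3 * l n + 3 * l i) ^ 2 ≤ (4 * l n) ^ 2 :=
    pow_le_pow_left₀ (by positivity) (by linarith) 2
  have := mul_le_mul_of_nonneg_left h5 (show 0 ≤ 4 * kB by positivity)
  linarith

include hG hK hS hin hs hD hSS hNN h2 hlam hb hΛ hθ in
/-- the main part -/
theorem partA : nrm W (∑ a ∈ act (l i) b, Complex.exp (θ a * Complex.I) •
    Ds G β (thc (l i) a) (rot (((7 * (l i / l n) : ℝ) : ℂ) • del (7 * (l i / l n)) (l i) θ a)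
      (VV G β l w i (gl (l i) a b)))) ≤
    √kA * (√((1 + K) * s i + D * √(s i)) + (1 + K) * D * (l i / l n)) * (lam * l n) := by
  have hi := hS.one i
  have hn := hS.one n
  have hi0 : 0 < l i := by linarith
  have hn0 : 0 < l n := by linarith
  have hrat := hS.ratio' hin
  have hkC := kC_pos
  have hkB := kB_pos
  have hkE := kE_pos
  have hsi := hs i le_rfl
  have hss : 0 ≤ √(s i) := Real.sqrt_nonneg _
  obtain ⟨q, hq⟩ : ∃ q, q = l i / l n := ⟨_, rfl⟩
  have hq0 : 0 < q := by rw [hq]; positivity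
  have hq1 : q ≤ 1 / 64 := by
    rw [hq, div_le_div_iff₀ hn0 (by norm_num)]
    linarith
  rw [← hq]
  obtain ⟨Q, hQ⟩ : ∃ Q, Q = 2 * ((2592 * kE * K * s i + 192 * D * √(s i)) / kC ^ 2 *
    (lam / l i) ^ 2) + 2 * ((1024 + 576 * kE * K) / kC ^ 2 * (D * (7 * q)) ^ 2 *
    (lam / l i) ^ 2) := ⟨_, rfl⟩
  have hQ0 : 0 ≤ Q := by rw [hQ]; positivity
  have h1 := piece_sum W hG hi hS.nn (by have := hS.rho i; have := hS.nn; linarith)
    (act (l i) b) (fun a ha => by
      refine Set.Subset.trans ?_ (act_Λ hS hin hb hΛ ha)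
      intro x hx
      have : tnorm (x - a) ≤ l i := hx
      show tnorm (x - a) ≤ 19 * l i
      linarith) (fun a => Complex.exp (θ a * Complex.I)) (fun a _ => hθ.expb a)
    (fun a => rot (((7 * q : ℝ) : ℂ) • del (7 * q) (l i) θ a) (VV G β l w i (gl (l i) a b)))
    (fun a _ => (piece_Su hG hS i a b).rot _) (Q := Q) (fun a ha => ?_)
  · have h3 := act_card' hS hin hb
    have h4 : 2304 * kB * l i ^ 2 * ((act (l i) b).card * Q) ≤
        2304 * kB * l i ^ 2 * ((64 * kB * l n ^ 2) * Q) := by gcongr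
    have h5 : 2304 * kB * l i ^ 2 * ((64 * kB * l n ^ 2) * Q) = 294912 * kB ^ 2 / kC ^ 2 *
        ((2592 * kE * K * s i + 192 * D * √(s i)) +
        (1024 + 576 * kE * K) * (D * (7 * q)) ^ 2) * (lam * l n) ^ 2 := by
      rw [hQ]
      field_simp
      ring
    have h6 : (2592 * kE * K * s i + 192 * D * √(s i)) +
        (1024 + 576 * kE * K) * (D * (7 * q)) ^ 2 ≤
        (2592 * kE + 192 + 49 * (1024 + 576 * kE)) *
          (((1 + K) * s i + D * √(s i)) + ((1 + K) * D * q) ^ 2) := by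
      have a1 : 0 ≤ kE * s i := by positivity
      have a2 : 0 ≤ kE * (D * √(s i)) := by positivity
      have a3 : 0 ≤ (1 + K) * s i := by positivity
      have a4 : 0 ≤ D * √(s i) := by positivity
      have a5 : K * (D * q) ^ 2 ≤ ((1 + K) * D * q) ^ 2 := by
        have : ((1 + K) * D * q) ^ 2 = (1 + K) ^ 2 * (D * q) ^ 2 := by ring
        rw [this]
        have : 0 ≤ (D * q) ^ 2 := by positivity
        nlinarith
      have a6 : (D * q) ^ 2 ≤ ((1 + K) * D * q) ^ 2 := by
        have : ((1 + K) * D * q) ^ 2 = (1 + K) ^ 2 * (D * q) ^ 2 := by ring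
        rw [this]
        have h9 : (1 : ℝ) ≤ (1 + K) ^ 2 := by nlinarith
        exact le_mul_of_one_le_left (by positivity) h9
      obtain ⟨X, hX⟩ : ∃ X, X = ((1 + K) * D * q) ^ 2 := ⟨_, rfl⟩
      rw [← hX] at a5 a6 ⊢
      have a7 : 0 ≤ X := by rw [hX]; positivity
      have a8 := mul_le_mul_of_nonneg_left a5 hkE.le
      have e1 : (1024 + 576 * kE * K) * (D * (7 * q)) ^ 2 =
          49 * 1024 * (D * q) ^ 2 + 49 * 576 * (kE * (K * (D * q) ^ 2)) := by ring
      rw [e1]
      have b1 : 0 ≤ kE * X := by positivity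
      have b2 : 0 ≤ kE * ((1 + K) * s i) := by positivity
      have b3 : 0 ≤ K * s i := by positivity
      have e2 : 2592 * kE * K * s i = 2592 * (kE * ((1 + K) * s i)) - 2592 * (kE * s i) := by
        ring
      rw [e2]
      have e3 : (2592 * kE + 192 + 49 * (1024 + 576 * kE)) *
          (((1 + K) * s i + D * √(s i)) + X) =
          2592 * (kE * ((1 + K) * s i)) + 2592 * (kE * (D * √(s i))) + 2592 * (kE * X) +
          192 * ((1 + K) * s i) + 192 * (D * √(s i)) + 192 * X + 49 * 1024 * ((1 + K) * s i) +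
          49 * 1024 * (D * √(s i)) + 49 * 1024 * X + 49 * 576 * (kE * ((1 + K) * s i)) +
          49 * 576 * (kE * (D * √(s i))) + 49 * 576 * (kE * X) := by ring
      rw [e3]
      have e4 : 192 * D * √(s i) = 192 * (D * √(s i)) := by ring
      rw [e4]
      linarith
    have h7 : nrm W (∑ a ∈ act (l i) b, Complex.exp (θ a * Complex.I) •
        Ds G β (thc (l i) a) (rot (((7 * q : ℝ) : ℂ) • del (7 * q) (l i) θ a)
        (VV G β l w i (gl (l i) a b)))) ^ 2 ≤
        kA * (((1 + K) * s i + D * √(s i)) + ((1 + K) * D * q) ^ 2) * (lam * l n) ^ 2 := by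
      refine (h1.trans h4).trans ?_
      rw [h5]
      unfold kA
      have : 0 ≤ 294912 * kB ^ 2 / kC ^ 2 := by positivity
      calc 294912 * kB ^ 2 / kC ^ 2 *
        ((2592 * kE * K * s i + 192 * D * √(s i)) +
        (1024 + 576 * kE * K) * (D * (7 * q)) ^ 2) * (lam * l n) ^ 2
          ≤ 294912 * kB ^ 2 / kC ^ 2 * ((2592 * kE + 192 + 49 * (1024 + 576 * kE)) *
          (((1 + K) * s i + D * √(s i)) + ((1 + K) * D * q) ^ 2)) * (lam * l n) ^ 2 := by gcongr
        _ = _ := by ring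
    have hkA := kA_pos
    have hY : 0 ≤ (1 + K) * s i + D * √(s i) := by positivity
    have h8 : kA * (((1 + K) * s i + D * √(s i)) + ((1 + K) * D * q) ^ 2) * (lam * l n) ^ 2 ≤
        (√kA * (√((1 + K) * s i + D * √(s i)) + (1 + K) * D * q) * (lam * l n)) ^ 2 := by
      have e1 := Real.sq_sqrt hkA.le
      have e2 := Real.sq_sqrt hY
      have e3 : (√kA * (√((1 + K) * s i + D * √(s i)) + (1 + K) * D * q) * (lam * l n)) ^ 2 =
          √kA ^ 2 * (√((1 + K) * s i + D * √(s i)) ^ 2 + ((1 + K) * D * q) ^ 2 +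
          2 * (√((1 + K) * s i + D * √(s i)) * ((1 + K) * D * q))) * (lam * l n) ^ 2 := by ring
      rw [e3, e1, e2]
      have a1 : 0 ≤ √((1 + K) * s i + D * √(s i)) * ((1 + K) * D * q) := by positivity
      exact mul_le_mul_of_nonneg_right (mul_le_mul_of_nonneg_left (by linarith) hkA.le)
        (sq_nonneg _)
    exact (pow_le_pow_iff_left₀ (nrm_nonneg W _) (by positivity) two_ne_zero).1 (h7.trans h8)
  · have haΛ := act_Λ hS hin hb hΛ ha
    have hi2 := h2 i le_rfl
    have p5 := piece5 W hG hK hS hsi hD (hSS i le_rfl) hNN hi2 hlam hb.lip haΛ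
    have hdel : Th (l i) (del (7 * q) (l i) θ a) := by
      rw [hq]
      exact del_Th hi hn hθ a
    have p8 := piece8 W hG hK hS hD hNN hi2 hlam hb.lip haΛ hdel (η := 7 * q)
      (by positivity) (by linarith)
    set F := VV G β l w i (gl (l i) a b) with hF
    have e1 : rot (((7 * q : ℝ) : ℂ) • del (7 * q) (l i) θ a) F =
        F + (rot (((7 * q : ℝ) : ℂ) • del (7 * q) (l i) θ a) F - F) := by abel
    rw [e1, Ds_add]
    have h3 := nrm_add_le W (Ds G β (thc (l i) a) F) (Ds G β (thc (l i) a)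
      (rot (((7 * q : ℝ) : ℂ) • del (7 * q) (l i) θ a) F - F))
    have h4 := pow_le_pow_left₀ (nrm_nonneg W _) h3 2
    refine h4.trans ?_
    rw [hQ]
    nlinarith [sq_nonneg (nrm W (Ds G β (thc (l i) a) F) - nrm W (Ds G β (thc (l i) a)
      (rot (((7 * q : ℝ) : ℂ) • del (7 * q) (l i) θ a) F - F)))]

include hG hK hS hin hD hNN h2 hlam hb hΛ hθ in
/-- the incoherent part -/
theorem partC : nrm W (∑ a ∈ act (l i) b, Complex.exp (θ a * Complex.I) •
    (mm G β θ (thc (l i) a) *
    (rot (((7 * (l i / l n) : ℝ) : ℂ) • del (7 * (l i / l n)) (l i) θ a)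
      (VV G β l w i (gl (l i) a b)) - VV G β l w i (gl (l i) a b)))) ≤
    kD * K * D * (l i / l n) * (lam * l n) := by
  have hi := hS.one i
  have hn := hS.one n
  have hi0 : 0 < l i := by linarith
  have hn0 : 0 < l n := by linarith
  have hrat := hS.ratio' hin
  have hkC := kC_pos
  have hkB := kB_pos
  obtain ⟨q, hq⟩ : ∃ q, q = l i / l n := ⟨_, rfl⟩
  have hq0 : 0 < q := by rw [hq]; positivity
  have hq1 : q ≤ 1 / 64 := by
    rw [hq, div_le_div_iff₀ hn0 (by norm_num)]
    linarith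
  rw [← hq]
  have hterm : ∀ a ∈ act (l i) b, nrm W (Complex.exp (θ a * Complex.I) •
    (mm G β θ (thc (l i) a) *
    (rot (((7 * q : ℝ) : ℂ) • del (7 * q) (l i) θ a)
      (VV G β l w i (gl (l i) a b)) - VV G β l w i (gl (l i) a b)))) ≤
      3 * ((36 * kB / kC * K / (l i * l n)) * (8 * D * (7 * q) * (lam * l i))) := by
    intro a ha
    have haΛ := act_Λ hS hin hb hΛ ha
    have hi2 := h2 i le_rfl
    have hdel : Th (l i) (del (7 * q) (l i) θ a) := by
      rw [hq]
      exact del_Th hi hn hθ a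
    have p6 := piece6 W hS hD hNN hlam hb.lip haΛ hdel (η := 7 * q) (by positivity)
      (by linarith)
    rw [nrm_smul]
    have h3 := nrm_mul_le W (mm G β θ (thc (l i) a))
      (rot (((7 * q : ℝ) : ℂ) • del (7 * q) (l i) θ a)
      (VV G β l w i (gl (l i) a b)) - VV G β l w i (gl (l i) a b))
      (M := 36 * kB / kC * K / (l i * l n)) (by positivity)
      (fun σ hσ => mm_sup hG hK hS hθ.lip hi2 a hσ)
    refine mul_le_mul (hθ.expb a) (h3.trans ?_) (nrm_nonneg W _) (by norm_num)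
    exact mul_le_mul_of_nonneg_left p6 (by positivity)
  refine (nrm_sum_le W _ _).trans ((Finset.sum_le_card_nsmul _ _ _ hterm).trans ?_)
  rw [nsmul_eq_mul]
  have h3 := act_card' hS hin hb
  have h4 : (act (l i) b).card * (3 * ((36 * kB / kC * K / (l i * l n)) *
      (8 * D * (7 * q) * (lam * l i)))) ≤ (64 * kB * l n ^ 2) *
      (3 * ((36 * kB / kC * K / (l i * l n)) * (8 * D * (7 * q) * (lam * l i)))) := by
    gcongr
  refine h4.trans (le_of_eq ?_)
  unfold kD
  field_simp
  ring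

include hG hK hS hin hs hSS hw h2 hlam hb hΛ hθ in
/-- the coherent part -/
theorem partZ : nrm W (∑ a ∈ act (l i) b, Complex.exp (θ a * Complex.I) •
    (mm G β θ (thc (l i) a) * VV G β l w i (gl (l i) a b))) ≤
    kZ * (K + K * √(s i) * (l i / l n)) * (lam * l n) := by
  have hi := hS.one i
  have hn := hS.one n
  have hi0 : 0 < l i := by linarith
  have hn0 : 0 < l n := by linarith
  have hrat := hS.ratio' hin
  have hkC := kC_pos
  have hkB := kB_pos
  have hkX := kX_pos
  have hsi := hs i le_rfl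
  have hss : 0 ≤ √(s i) := Real.sqrt_nonneg _
  obtain ⟨q, hq⟩ : ∃ q, q = l i / l n := ⟨_, rfl⟩
  have hq0 : 0 < q := by rw [hq]; positivity
  have hq1 : q ≤ 1 / 64 := by
    rw [hq, div_le_div_iff₀ hn0 (by norm_num)]
    linarith
  rw [← hq]
  -- far pairs
  have h1 := near_far W (act (l i) b)
    (fun a => (Complex.exp (θ a * Complex.I) • mm G β θ (thc (l i) a)) *
      VV G β l w i (gl (l i) a b))
    (fun a => XX G β l w i (gl (l i) a b)
      (Complex.exp (θ a * Complex.I) • mm G β θ (thc (l i) a)))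
    (fun a b => tnorm (a - b) ≤ 8 * l i) (fun a b h => by rw [tnorm_sub_comm]; exact h)
    (D := 4 * kB * (8 * l i) ^ 2) (fun a _ => near_le _ a (by linarith))
    (fun a ha a' ha' hab => by
      have hsub : ∀ c : Tor L, thick (bl c (3 * l i)) (rr l ρ i) ⊆ bl c (4 * l i) := by
        intro c
        refine Set.Subset.trans thick_bl ?_
        intro x hx
        have h1 : tnorm (x - c) ≤ 3 * l i + rr l ρ i := hx
        have := hS.rr_le i
        show tnorm (x - c) ≤ 4 * l i
        linarith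
      have hsub2 : ∀ c ∈ act (l i) b, thick (bl c (3 * l i)) (rr l ρ i) ⊆ Λ := by
        intro c hc
        refine Set.Subset.trans (hsub c) (Set.Subset.trans ?_ (act_Λ hS hin hb hΛ hc))
        intro x hx
        have h1 : tnorm (x - c) ≤ 4 * l i := hx
        show tnorm (x - c) ≤ 19 * l i
        linarith
      refine far_pair W hG hS i (gl_supp hi a b) (gl_supp hi a' b) (hsub a) (hsub a')
        (hsub2 a ha) (hsub2 a' ha') ((mm_Su hG hS i θ a).smul _) ((mm_Su hG hS i θ a').smul _) ?_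
      rw [Set.disjoint_left]
      intro x hx hx'
      have h1 : tnorm (x - a) ≤ 4 * l i := hx
      have h3 : tnorm (x - a') ≤ 4 * l i := hx'
      apply hab
      have := tri3 a x a'
      rw [tnorm_sub_comm a x] at this
      linarith)
  -- norms
  have hA : ∀ a ∈ act (l i) b, nrm W ((Complex.exp (θ a * Complex.I) •
      mm G β θ (thc (l i) a)) * VV G β l w i (gl (l i) a b)) ≤
      1296 * kB / kC * (K * √(s i)) * (lam / l n) := by
    intro a ha
    have haΛ := act_Λ hS hin hb hΛ ha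
    have p1 := piece1 W hS hsi (hSS i le_rfl) hlam hb.lip haΛ
    rw [smul_mul_assoc, nrm_smul]
    have h3 := nrm_mul_le W (mm G β θ (thc (l i) a)) (VV G β l w i (gl (l i) a b))
      (M := 36 * kB / kC * K / (l i * l n)) (by positivity)
      (fun σ hσ => mm_sup hG hK hS hθ.lip (h2 i le_rfl) a hσ)
    have h4 : ‖Complex.exp (θ a * Complex.I)‖ * nrm W (mm G β θ (thc (l i) a) *
        VV G β l w i (gl (l i) a b)) ≤
        3 * ((36 * kB / kC * K / (l i * l n)) * (12 * √(s i) * (lam * l i))) := by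
      refine mul_le_mul (hθ.expb a) (h3.trans ?_) (nrm_nonneg W _) (by norm_num)
      exact mul_le_mul_of_nonneg_left p1 (by positivity)
    refine h4.trans (le_of_eq ?_)
    field_simp
    ring
  have hB : ∀ a ∈ act (l i) b, nrm W (XX G β l w i (gl (l i) a b)
      (Complex.exp (θ a * Complex.I) • mm G β θ (thc (l i) a))) ≤ kX * K * (lam / l n) := by
    intro a ha
    have haΛ := act_Λ hS hin hb hΛ ha
    have h3 := XX_mm W hG hK hS (i := i) (n := n) (s := s) (fun j hj => hs j hj.le)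
      (fun j hj => hSS j hj.le) hw hθ.lip h2 hlam hb.lip haΛ
    rw [Derivation.map_smul, nrm_smul]
    have h4 := mul_le_mul (hθ.expb a) h3 (nrm_nonneg W _) (by norm_num)
    refine h4.trans (le_of_eq ?_)
    ring
  have hcard := act_card' hS hin hb
  have hBsum : nrm W (∑ a ∈ act (l i) b, XX G β l w i (gl (l i) a b)
      (Complex.exp (θ a * Complex.I) • mm G β θ (thc (l i) a))) ≤
      64 * kB * kX * K * (lam * l n) := by
    refine (nrm_sum_le W _ _).trans ((Finset.sum_le_card_nsmul _ _ _ hB).trans ?_)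
    rw [nsmul_eq_mul]
    have h4 : (act (l i) b).card * (kX * K * (lam / l n)) ≤
        (64 * kB * l n ^ 2) * (kX * K * (lam / l n)) := by
      gcongr
    refine h4.trans (le_of_eq ?_)
    field_simp
  have hnear : ∑ a ∈ act (l i) b, (nrm W ((Complex.exp (θ a * Complex.I) •
      mm G β θ (thc (l i) a)) * VV G β l w i (gl (l i) a b)) ^ 2 +
      nrm W (XX G β l w i (gl (l i) a b)
      (Complex.exp (θ a * Complex.I) • mm G β θ (thc (l i) a))) ^ 2) ≤
      (64 * kB * l n ^ 2) * ((1296 * kB / kC * (K * √(s i)) * (lam / l n)) ^ 2 +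
        (kX * K * (lam / l n)) ^ 2) := by
    refine (Finset.sum_le_card_nsmul _ _ _ (fun a ha => add_le_add
      (pow_le_pow_left₀ (nrm_nonneg W _) (hA a ha) 2)
      (pow_le_pow_left₀ (nrm_nonneg W _) (hB a ha) 2))).trans ?_
    rw [nsmul_eq_mul]
    gcongr
  have hcomb : nrm W (∑ a ∈ act (l i) b, (Complex.exp (θ a * Complex.I) •
      mm G β θ (thc (l i) a)) * VV G β l w i (gl (l i) a b)) ^ 2 ≤
      (64 * kB * kX * K * (lam * l n)) ^ 2 + 4 * kB * (8 * l i) ^ 2 *
      ((64 * kB * l n ^ 2) * ((1296 * kB / kC * (K * √(s i)) * (lam / l n)) ^ 2 +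
        (kX * K * (lam / l n)) ^ 2)) := by
    refine h1.trans ?_
    refine add_le_add (pow_le_pow_left₀ (nrm_nonneg W _) hBsum 2) ?_
    exact mul_le_mul_of_nonneg_left hnear (by positivity)
  have hli : l i = q * l n := by
    rw [hq]
    field_simp
  have hfin : (64 * kB * kX * K * (lam * l n)) ^ 2 + 4 * kB * (8 * l i) ^ 2 *
      ((64 * kB * l n ^ 2) * ((1296 * kB / kC * (K * √(s i)) * (lam / l n)) ^ 2 +
        (kX * K * (lam / l n)) ^ 2)) ≤
      (kZ * (K + K * √(s i) * q) * (lam * l n)) ^ 2 := by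
    have e1 : (64 * kB * kX * K * (lam * l n)) ^ 2 + 4 * kB * (8 * l i) ^ 2 *
      ((64 * kB * l n ^ 2) * ((1296 * kB / kC * (K * √(s i)) * (lam / l n)) ^ 2 +
        (kX * K * (lam / l n)) ^ 2)) =
        ((64 * kB * kX * K) ^ 2 + (165888 * kB ^ 2 / kC * (K * √(s i) * q)) ^ 2 +
          (128 * kB * kX * K * q) ^ 2) * (lam * l n) ^ 2 := by
      rw [hli]
      field_simp
      ring
    rw [e1, mul_pow _ (lam * l n)]
    refine mul_le_mul_of_nonneg_right ?_ (sq_nonneg _)
    have a1 : 128 * kB * kX * K * q ≤ 128 * kB * kX * K := by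
      have : q ≤ 1 := by linarith
      have h0 : 0 ≤ 128 * kB * kX * K := by positivity
      nlinarith
    have a2 : 64 * kB * kX * K + 165888 * kB ^ 2 / kC * (K * √(s i) * q) +
        128 * kB * kX * K * q ≤ kZ * (K + K * √(s i) * q) := by
      unfold kZ
      have b1 : 0 ≤ 192 * kB * kX * (K * √(s i) * q) := by positivity
      have b2 : 0 ≤ 165888 * kB ^ 2 / kC * K := by positivity
      nlinarith
    have a3 : 0 ≤ 64 * kB * kX * K := by positivity
    have a4 : 0 ≤ 165888 * kB ^ 2 / kC * (K * √(s i) * q) := by positivity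
    have a5 : 0 ≤ 128 * kB * kX * K * q := by positivity
    have a6 := pow_le_pow_left₀ (by positivity) a2 2
    exact (sq3 a3 a4 a5).trans a6
  have hkZ := kZ_pos
  have hres := (pow_le_pow_iff_left₀ (nrm_nonneg W _) (by positivity) two_ne_zero).1
    (hcomb.trans hfin)
  refine le_trans (le_of_eq ?_) hres
  congr 1
  refine Finset.sum_congr rfl fun a _ => ?_
  rw [smul_mul_assoc]

include hG hK hS hin hs hD hSS hNN hw h2 hlam hb hΛ hθ in
/-- one scale, rotated -/
theorem rotTT_le : nrm W (rot θ (TT G β l w i b)) ≤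
    kN * (√((1 + K) * s i + D * √(s i)) + 2 * ((1 + K) * D * (l i / l n)) + (1 + K) +
      (1 + K) * √(s i) * (l i / l n)) * (lam * l n) := by
  have hi := hS.one i
  have hn := hS.one n
  have hi0 : 0 < l i := by linarith
  have hn0 : 0 < l n := by linarith
  have hsi := hs i le_rfl
  have hss : 0 ≤ √(s i) := Real.sqrt_nonneg _
  have hA := partA W hG hK hS hin hs hD hSS hNN h2 hlam hb hΛ hθ
  have hC := partC W hG hK hS hin hD hNN h2 hlam hb hΛ hθ
  have hZ := partZ W hG hK hS hin hs hSS hw h2 hlam hb hΛ hθ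
  have hq0 : 0 ≤ l i / l n := by positivity
  obtain ⟨q, hq⟩ : ∃ q, q = l i / l n := ⟨_, rfl⟩
  rw [← hq] at hA hC hZ hq0 ⊢
  have hdec : rot θ (TT G β l w i b) =
      (∑ a ∈ act (l i) b, Complex.exp (θ a * Complex.I) •
        Ds G β (thc (l i) a) (rot (((7 * q : ℝ) : ℂ) • del (7 * q) (l i) θ a)
          (VV G β l w i (gl (l i) a b)))) +
      (∑ a ∈ act (l i) b, Complex.exp (θ a * Complex.I) •
        (mm G β θ (thc (l i) a) *
        (rot (((7 * q : ℝ) : ℂ) • del (7 * q) (l i) θ a)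
          (VV G β l w i (gl (l i) a b)) - VV G β l w i (gl (l i) a b)))) +
      (∑ a ∈ act (l i) b, Complex.exp (θ a * Complex.I) •
        (mm G β θ (thc (l i) a) * VV G β l w i (gl (l i) a b))) := by
    rw [TT_act, map_sum, ← Finset.sum_add_distrib, ← Finset.sum_add_distrib]
    refine Finset.sum_congr rfl fun a _ => ?_
    have h3 := rot_split (r := l i) (R := l n) hi hn θ a (piece_Su (w := w) hG hS i a b)
      (VV_charge G β l w i _)
    rw [← hq] at h3
    unfold Ds
    rw [map_sub, map_mul, rot_S0, rot_D0, h3]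
    set F' := rot (((7 * q : ℝ) : ℂ) • del (7 * q) (l i) θ a) (VV G β l w i (gl (l i) a b))
    rw [Derivation.map_smul]
    simp only [smul_eq_C_mul]
    ring
  rw [hdec]
  refine (nrm_add_le W _ _).trans ?_
  refine (add_le_add_left (nrm_add_le W _ _) _).trans ?_
  have hkA : 0 ≤ √kA := Real.sqrt_nonneg _
  have hkD := kD_pos
  have hkZ := kZ_pos
  have hX : 0 ≤ lam * l n := by positivity
  have hY : 0 ≤ √((1 + K) * s i + D * √(s i)) := Real.sqrt_nonneg _
  obtain ⟨Y, hYY⟩ : ∃ Y, Y = √((1 + K) * s i + D * √(s i)) := ⟨_, rfl⟩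
  obtain ⟨S, hSSS⟩ : ∃ S, S = √(s i) := ⟨_, rfl⟩
  rw [← hYY] at hA hY ⊢
  rw [← hSSS] at hZ hss ⊢
  have key : √kA * (Y + (1 + K) * D * q) + kD * K * D * q + kZ * (K + K * S * q) ≤
      kN * (Y + 2 * ((1 + K) * D * q) + (1 + K) + (1 + K) * S * q) := by
    unfold kN
    have c1 : 0 ≤ (1 + K) * D * q := by positivity
    have c2 : 0 ≤ (1 + K) * S * q := by positivity
    have c3 : 0 ≤ D * q := by positivity
    have c4 : 0 ≤ S * q := by positivity
    have b1 : √kA * (Y + (1 + K) * D * q) ≤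
        √kA * (Y + 2 * ((1 + K) * D * q) + (1 + K) + (1 + K) * S * q) :=
      mul_le_mul_of_nonneg_left (by linarith) hkA
    have b2 : kD * (K * D * q) ≤
        kD * (Y + 2 * ((1 + K) * D * q) + (1 + K) + (1 + K) * S * q) := by
      refine mul_le_mul_of_nonneg_left ?_ hkD.le
      nlinarith
    have b3 : kZ * (K + K * S * q) ≤
        kZ * (Y + 2 * ((1 + K) * D * q) + (1 + K) + (1 + K) * S * q) := by
      refine mul_le_mul_of_nonneg_left ?_ hkZ.le
      nlinarith
    nlinarith
  have h5 := mul_le_mul_of_nonneg_right key hX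
  nlinarith

end nstep

end Pool.Agent.H12.MG
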