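import Pool.Agent.H12.MG.Base3

/-! # Bounds for the pieces of one scale -/

set_option autoImplicit false
set_option linter.unusedSectionVars false

noncomputable section

namespace Pool.Agent.H12.MG

open MvPolynomial Pool.Agent.H5R2.ON Pool.Agent.H717R2.ON3 Pool.Agent.H983R2.ONJ

variable {L : ℕ} [NeZero L] {ι : Type} [Fintype ι] {G : Gr (Tor L) ι} {β ρ K : ℝ}
  {Λ : Finset (Tor L)} {l w : ℕ → ℝ}

/-- scales -/
structure Scl (ρ : ℝ) (l : ℕ → ℝ) : Prop where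
  nn : 0 ≤ ρ
  one : ∀ k, 1 ≤ l k
  rho : ∀ k, 8 * ρ ≤ l k
  step : ∀ k, 64 * l k ≤ l (k + 1)

theorem Scl.rr_le (h : Scl ρ l) (k : ℕ) : 8 * rr l ρ k ≤ l k := by
  induction k with
  | zero => exact h.rho 0
  | succ k ih =>
    rw [rr_succ]
    have := h.step k
    have := h.one k
    linarith

theorem Scl.rr_ge (h : Scl ρ l) (k : ℕ) : ρ ≤ rr l ρ k := by
  induction k with
  | zero => exact le_refl _
  | succ k ih =>
    rw [rr_succ]
    have := h.one k
    linarith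

theorem Scl.rho' (h : Scl ρ l) (k : ℕ) : ρ ≤ l k := by
  have := h.rho k
  have := h.nn
  linarith

/-- norms of the renormalised scores -/
def SS (W : WFun G β Λ) (l w : ℕ → ℝ) (k : ℕ) (s : ℝ) : Prop :=
  ∀ (b : Tor L → ℂ) (z : Tor L) (r lam : ℝ), 0 ≤ lam → Cls lam z r b → l k ≤ r →
    bl z (r + 16 * l k) ⊆ Λ → nrm W (VV G β l w k b) ^ 2 ≤ s * (lam * r) ^ 2

/-- norms of the rotated renormalised scores -/
def NN (W : WFun G β Λ) (l w : ℕ → ℝ) (k : ℕ) (D : ℝ) : Prop :=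
  ∀ (b : Tor L → ℂ) (z : Tor L) (lam : ℝ) (θ : Tor L → ℂ), 0 ≤ lam → Cls lam z (3 * l k) b →
    bl z (19 * l k) ⊆ Λ → Th (l k) θ → nrm W (rot θ (VV G β l w k b)) ≤ D * (lam * l k)

theorem Th.smul {r : ℝ} {δ : Tor L → ℂ} (h : Th r δ) {z : ℂ} (hz : ‖z‖ ≤ 1) : Th r (z • δ) := by
  refine ⟨fun x => ?_, fun x y => ?_⟩
  · rw [Pi.smul_apply, smul_eq_mul, norm_mul]
    exact mul_le_one₀ hz (norm_nonneg _) (h.bd x)
  · rw [Pi.smul_apply, Pi.smul_apply, smul_eq_mul, smul_eq_mul, ← mul_sub, norm_mul]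
    have := h.lip x y
    have h2 := mul_le_mul hz this (norm_nonneg _) zero_le_one
    rwa [one_mul] at h2

theorem Th_thc {r : ℝ} (hr : 1 ≤ r) (h2 : 2 * r < L) (a : Tor L) {z : ℂ}
    (hz : ‖z‖ ≤ kC * r ^ 2) : Th r (z • thc r a) := by
  have hk := kC_pos
  have hr0 : 0 < r := by linarith
  refine ⟨fun x => ?_, fun x y => ?_⟩
  · rw [Pi.smul_apply, smul_eq_mul, norm_mul]
    have h3 := mul_le_mul hz (thc_nn hr h2 a x) (norm_nonneg _) (by positivity)
    refine h3.trans (le_of_eq ?_)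
    field_simp
  · rw [Pi.smul_apply, Pi.smul_apply, smul_eq_mul, smul_eq_mul, ← mul_sub, norm_mul]
    have h3 := mul_le_mul hz (thc_lip hr h2 a x y) (norm_nonneg _) (by positivity)
    refine h3.trans (le_of_eq ?_)
    field_simp

theorem Th_two {r : ℝ} (hr : 1 ≤ r) (h2 : 2 * r < L) (a : Tor L) {δ : Tor L → ℂ} (h : Th r δ)
    {z z' : ℂ} (hz : ‖z‖ ≤ kC * r ^ 2 / 2) (hz' : ‖z'‖ ≤ 1 / 2) :
    Th r (z • thc r a + z' • δ) := by
  have h1 := Th_thc hr h2 a (z := 2 * z) (by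
    rw [norm_mul, Complex.norm_ofNat]
    linarith)
  have h3 := h.smul (z := 2 * z') (by
    rw [norm_mul, Complex.norm_ofNat]
    linarith)
  have e : ∀ x, (z • thc r a + z' • δ) x =
      (1 / 2 : ℂ) * (((2 * z) • thc r a) x + ((2 * z') • δ) x) := by
    intro x
    simp only [Pi.add_apply, Pi.smul_apply, smul_eq_mul]
    ring
  have hh : ‖(1 / 2 : ℂ)‖ = 1 / 2 := by simp
  refine ⟨fun x => ?_, fun x y => ?_⟩
  · rw [e, norm_mul, hh]
    have := norm_add_le (((2 * z) • thc r a) x) (((2 * z') • δ) x)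
    have := h1.bd x
    have := h3.bd x
    linarith
  · rw [e, e, ← mul_sub, norm_mul, hh, add_sub_add_comm]
    have := norm_add_le (((2 * z) • thc r a) x - ((2 * z) • thc r a) y)
      (((2 * z') • δ) x - ((2 * z') • δ) y)
    have := h1.lip x y
    have := h3.lip x y
    linarith

section piece

variable (W : WFun G β Λ) (hG : Nice G β ρ K) (hK : 0 ≤ K) (hS : Scl ρ l) {k : ℕ} {s D : ℝ}
  (hs : 0 ≤ s) (hD : 0 ≤ D) (hSS : SS W l w k s) (hNN : NN W l w k D) (h2 : 2 * l k < L)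
  {b : Tor L → ℂ} {lam : ℝ} (hlam : 0 ≤ lam) (hb : Lp lam b) {a : Tor L}
  (ha : bl a (19 * l k) ⊆ Λ)

include hS hSS hs hlam hb ha in
theorem piece1 : nrm W (VV G β l w k (gl (l k) a b)) ≤ 12 * √s * (lam * l k) := by
  have hk := hS.one k
  have h1 := hSS _ a (3 * l k) (4 * lam) (by positivity) (gl_cls hk hlam hb a) (by linarith) (by
    refine Set.Subset.trans ?_ ha
    intro x hx
    have : tnorm (x - a) ≤ 3 * l k + 16 * l k := hx
    show tnorm (x - a) ≤ 19 * l k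
    linarith)
  have h3 : s * (4 * lam * (3 * l k)) ^ 2 = (12 * √s * (lam * l k)) ^ 2 := by
    have := Real.sq_sqrt hs
    linear_combination (-144 * (lam * l k) ^ 2) * this
  rw [h3] at h1
  exact (pow_le_pow_iff_left₀ (nrm_nonneg W _) (by positivity) two_ne_zero).1 h1

include hS hNN hlam hb ha in
theorem piece2 {θ : Tor L → ℂ} (hθ : Th (l k) θ) :
    nrm W (rot θ (VV G β l w k (gl (l k) a b))) ≤ 4 * D * (lam * l k) := by
  have hk := hS.one k
  refine (hNN _ a (4 * lam) θ (by positivity) (gl_cls hk hlam hb a) ha hθ).trans (le_of_eq ?_)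
  ring

include hG hK hS in
theorem kap_nonneg : 0 ≤ 9 * kE * K / (kC ^ 2 * l k ^ 4) := by
  have := kE_pos
  have := kC_pos
  have := hS.one k
  positivity

include hS ha in
theorem thΛ (x : Tor L) (hx : x ∉ Λ) : th (l k) a x = 0 := by
  have hk := hS.one k
  by_contra hc
  have h1 := th_supp hk hc
  apply hx
  apply ha
  show tnorm (x - a) ≤ 19 * l k
  linarith

include hG hK hS hs hD hSS hNN h2 hlam hb ha in
theorem piece5 : nrm W (Ds G β (thc (l k) a) (VV G β l w k (gl (l k) a b))) ^ 2 ≤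
    (2592 * kE * K * s + 192 * D * √s) / kC ^ 2 * (lam / l k) ^ 2 := by
  have hk := hS.one k
  have hkC := kC_pos
  have hkE := kE_pos
  have hk0 : 0 < l k := by linarith
  set F := VV G β l w k (gl (l k) a b) with hF
  have p1 : nrm W F ≤ 12 * √s * (lam * l k) := piece1 W hS hs hSS hlam hb ha
  have p3 : nrm W (D0 (thc (l k) a) (D0 (thc (l k) a) F)) ≤
      4 * (4 * D * (lam * l k)) / (kC * l k ^ 2) ^ 2 := by
    refine cauchy2 W (thc (l k) a) F (by positivity) fun z hz => ?_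
    exact piece2 W hS hNN hlam hb ha (Th_thc hk h2 a hz)
  have hκ0 := kap_nonneg (k := k) hG hK hS
  have hκ : ∀ σ : Tor L × Fin 3 → ℝ, Pt σ →
      ‖ev σ (D0 (cc (th (l k) a)) (S0 G β (cc (th (l k) a))))‖ ≤
        9 * kE * K / (kC ^ 2 * l k ^ 4) :=
    fun σ hσ => D0S0_le hG hS.nn hK hk (hS.rho' k) h2 a hσ
  have p4 := landau W (thΛ hS ha) F hκ0 hκ
  have p5 := nrm_Ds_sq W (thΛ hS ha) F hκ0 hκ
  have h1 : nrm W F ^ 2 ≤ 144 * s * (lam * l k) ^ 2 := by
    refine (pow_le_pow_left₀ (nrm_nonneg W F) p1 2).trans (le_of_eq ?_)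
    have := Real.sq_sqrt hs
    linear_combination (144 * (lam * l k) ^ 2) * this
  have h3 : nrm W F * nrm W (D0 (cc (th (l k) a)) (D0 (cc (th (l k) a)) F)) ≤
      (12 * √s * (lam * l k)) * (4 * (4 * D * (lam * l k)) / (kC * l k ^ 2) ^ 2) :=
    mul_le_mul p1 p3 (nrm_nonneg W _) (by positivity)
  have h4 := mul_le_mul_of_nonneg_left h1 hκ0
  have h5 : nrm W (Ds G β (cc (th (l k) a)) F) ^ 2 ≤
      2 * (9 * kE * K / (kC ^ 2 * l k ^ 4) * (144 * s * (lam * l k) ^ 2)) +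
      (12 * √s * (lam * l k)) * (4 * (4 * D * (lam * l k)) / (kC * l k ^ 2) ^ 2) := by
    linarith
  refine h5.trans (le_of_eq ?_)
  field_simp
  ring

include hS hD hNN hlam hb ha in
theorem piece6 {δ : Tor L → ℂ} (hδ : Th (l k) δ) {η : ℝ} (hη0 : 0 ≤ η) (hη : η ≤ 1 / 4) :
    nrm W (rot ((η : ℂ) • δ) (VV G β l w k (gl (l k) a b)) - VV G β l w k (gl (l k) a b)) ≤
      8 * D * η * (lam * l k) := by
  have h1 := cauchy3 W δ (VV G β l w k (gl (l k) a b)) (r := 1) (M := 4 * D * (lam * l k))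
    one_pos (fun z hz => piece2 W hS hNN hlam hb ha (hδ.smul hz)) (η := (η : ℂ)) (by
      rw [Complex.norm_real, Real.norm_of_nonneg hη0]; linarith)
  refine h1.trans (le_of_eq ?_)
  rw [Complex.norm_real, Real.norm_of_nonneg hη0]
  ring

include hS hD hNN h2 hlam hb ha in
theorem piece7 {δ : Tor L → ℂ} (hδ : Th (l k) δ) {η : ℝ} (hη0 : 0 ≤ η) (hη : η ≤ 1 / 4) :
    nrm W (D0 (thc (l k) a) (rot ((η : ℂ) • δ) (VV G β l w k (gl (l k) a b)) -
      VV G β l w k (gl (l k) a b))) ≤ 32 * D * η * (lam * l k) / (kC * l k ^ 2) := by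
  have hk := hS.one k
  have hkC := kC_pos
  have hk0 : 0 < l k := by linarith
  set F := VV G β l w k (gl (l k) a b) with hF
  have h1 : ∀ z : ℂ, ‖z‖ ≤ 1 / 2 → nrm W (rot (z • δ) (D0 (thc (l k) a) F)) ≤
      4 * D * (lam * l k) / (kC * l k ^ 2 / 2) := by
    intro z hz
    rw [rot_D0]
    refine cauchy1 W (thc (l k) a) _ (by positivity) fun z' hz' => ?_
    rw [← rot_add]
    exact piece2 W hS hNN hlam hb ha (Th_two hk h2 a hδ hz' hz)
  have h3 := cauchy3 W δ (D0 (thc (l k) a) F) (by norm_num : (0 : ℝ) < 1 / 2) h1 (η := (η : ℂ))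
    (by rw [Complex.norm_real, Real.norm_of_nonneg hη0]; linarith)
  rw [rot_D0, ← map_sub, Complex.norm_real, Real.norm_of_nonneg hη0] at h3
  refine h3.trans (le_of_eq ?_)
  field_simp
  ring

include hG hK hS hD hNN h2 hlam hb ha in
theorem piece8 {δ : Tor L → ℂ} (hδ : Th (l k) δ) {η : ℝ} (hη0 : 0 ≤ η) (hη : η ≤ 1 / 4) :
    nrm W (Ds G β (thc (l k) a) (rot ((η : ℂ) • δ) (VV G β l w k (gl (l k) a b)) -
      VV G β l w k (gl (l k) a b))) ^ 2 ≤
      (1024 + 576 * kE * K) / kC ^ 2 * (D * η) ^ 2 * (lam / l k) ^ 2 := by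
  have hk := hS.one k
  have hkC := kC_pos
  have hkE := kE_pos
  have hk0 : 0 < l k := by linarith
  have h6 := piece6 W hS hD hNN hlam hb ha hδ hη0 hη
  have h7 := piece7 W hS hD hNN h2 hlam hb ha hδ hη0 hη
  set E := rot ((η : ℂ) • δ) (VV G β l w k (gl (l k) a b)) - VV G β l w k (gl (l k) a b) with hE
  have hκ0 := kap_nonneg (k := k) hG hK hS
  have hκ : ∀ σ : Tor L × Fin 3 → ℝ, Pt σ →
      ‖ev σ (D0 (cc (th (l k) a)) (S0 G β (cc (th (l k) a))))‖ ≤
        9 * kE * K / (kC ^ 2 * l k ^ 4) :=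
    fun σ hσ => D0S0_le hG hS.nn hK hk (hS.rho' k) h2 a hσ
  have p5 := nrm_Ds_sq W (thΛ hS ha) E hκ0 hκ
  have h6' := pow_le_pow_left₀ (nrm_nonneg W E) h6 2
  have h7' := pow_le_pow_left₀ (nrm_nonneg W _) h7 2
  have h8 := mul_le_mul_of_nonneg_left h6' hκ0
  have h9 : nrm W (Ds G β (cc (th (l k) a)) E) ^ 2 ≤
      (32 * D * η * (lam * l k) / (kC * l k ^ 2)) ^ 2 +
      9 * kE * K / (kC ^ 2 * l k ^ 4) * (8 * D * η * (lam * l k)) ^ 2 := by
    refine p5.trans ?_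
    exact add_le_add h7' h8
  refine h9.trans (le_of_eq ?_)
  field_simp
  ring

end piece

/-- sums of pieces -/
theorem piece_sum (W : WFun G β Λ) (hG : Nice G β ρ K) {r : ℝ} (hr : 1 ≤ r)
    (hρ : 0 ≤ ρ) (hρr : 3 * ρ ≤ r)
    (I : Finset (Tor L)) (hI : ∀ a ∈ I, bl a r ⊆ Λ) (c : Tor L → ℂ) (hc : ∀ a ∈ I, ‖c a‖ ≤ 3)
    (H : Tor L → CA (Tor L)) (hH : ∀ a ∈ I, Su (bl a (4 * r)) (H a)) {Q : ℝ}
    (hHQ : ∀ a ∈ I, nrm W (Ds G β (thc r a) (H a)) ^ 2 ≤ Q) :
    nrm W (∑ a ∈ I, c a • Ds G β (thc r a) (H a)) ^ 2 ≤ 2304 * kB * r ^ 2 * (I.card * Q) := by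
  have hkB := kB_pos
  have h1 := near_far0 W I (fun a => c a • Ds G β (thc r a) (H a))
    (fun a b => tnorm (a - b) ≤ 8 * r) (fun a b h => by rw [tnorm_sub_comm]; exact h)
    (D := 4 * kB * (8 * r) ^ 2) (fun a _ => near_le I a (by linarith)) (fun a ha b hb hab => ?_)
  · refine h1.trans ?_
    have h2 : ∑ a ∈ I, nrm W (c a • Ds G β (thc r a) (H a)) ^ 2 ≤ I.card * (9 * Q) := by
      rw [← nsmul_eq_mul]
      refine Finset.sum_le_card_nsmul _ _ _ fun a ha => ?_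
      rw [nrm_smul, mul_pow]
      have h3 : ‖c a‖ ^ 2 ≤ 3 ^ 2 := pow_le_pow_left₀ (norm_nonneg _) (hc a ha) 2
      have h4 := mul_le_mul h3 (hHQ a ha) (sq_nonneg _) (by norm_num)
      linarith
    have h5 := mul_le_mul_of_nonneg_left h2 (show 0 ≤ 4 * kB * (8 * r) ^ 2 by positivity)
    refine h5.trans (le_of_eq ?_)
    ring
  · rw [cj_smul, smul_mul_assoc, map_smul, mul_smul_comm, map_smul]
    have h3 : EC W (cj (Ds G β (thc r a) (H a)) * Ds G β (thc r b) (H b)) = 0 := by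
      have h4 := adj W (θ := th r b) (fun x hx => by
        by_contra hc2
        exact hx (hI b hb (th_supp hr hc2))) (Ds G β (thc r a) (H a)) (H b)
      have h5 : Su (bl a (4 * r)) (Ds G β (thc r a) (H a)) := by
        refine Su_Ds ((Su_S0 hG hρ (thc_supp hr a)).mono ?_) (hH a ha)
        refine Set.Subset.trans thick_bl ?_
        intro x hx
        have : tnorm (x - a) ≤ r + ρ := hx
        show tnorm (x - a) ≤ 4 * r
        linarith
      have h6 : D0 (cc (th r b)) (Ds G β (thc r a) (H a)) = 0 := by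
        refine D0_kill h5 fun x hx => ?_
        apply thc_supp hr b
        intro hxb
        have h7 : tnorm (x - b) ≤ r := hxb
        have h8 : tnorm (x - a) ≤ 4 * r := hx
        apply hab
        have := tri3 a x b
        rw [tnorm_sub_comm a x] at this
        linarith
      rw [h6, RingHom.map_zero, zero_mul, map_zero] at h4
      exact h4
    rw [h3, smul_zero, smul_zero]

end Pool.Agent.H12.MG
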