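import Pool.Agent.H12.MG.Edge

/-! # Complex rotations about the axis `0`, locality -/

set_option autoImplicit false
set_option linter.unusedSectionVars false

noncomputable section

namespace Pool.Agent.H12.MG

open MvPolynomial Pool.Agent.H717R2.ON3

section

variable {V : Type} [Fintype V] [DecidableEq V]

/-- Rotation by the complex angles `θ` about the axis `0`. -/
def rot (θ : V → ℂ) : CA V →ₐ[ℂ] CA V :=
  aeval fun i : V × Fin 3 =>
    if i.2 = 0 then X i
    else if i.2 = 1 then Complex.cos (θ i.1) • X (i.1, 1) - Complex.sin (θ i.1) • X (i.1, 2)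
    else Complex.sin (θ i.1) • X (i.1, 1) + Complex.cos (θ i.1) • X (i.1, 2)

theorem rot_X0 (θ : V → ℂ) (x : V) : rot θ (X (x, 0)) = X (x, 0) := by
  unfold rot
  rw [aeval_X]
  simp

theorem rot_X1 (θ : V → ℂ) (x : V) : rot θ (X (x, 1)) =
    Complex.cos (θ x) • X (x, 1) - Complex.sin (θ x) • X (x, 2) := by
  unfold rot
  rw [aeval_X]
  simp

theorem rot_X2 (θ : V → ℂ) (x : V) : rot θ (X (x, 2)) =
    Complex.sin (θ x) • X (x, 1) + Complex.cos (θ x) • X (x, 2) := by
  unfold rot
  rw [aeval_X]
  simp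

theorem rot_zero (F : CA V) : rot 0 F = F := by
  have : rot (0 : V → ℂ) = AlgHom.id ℂ (CA V) := by
    apply MvPolynomial.algHom_ext
    rintro ⟨x, i⟩
    rcases fin3_cases i with rfl | rfl | rfl
    · rw [rot_X0]; rfl
    · rw [rot_X1]; simp
    · rw [rot_X2]; simp
  rw [this]; rfl

theorem rot_add (θ θ' : V → ℂ) (F : CA V) : rot (θ + θ') F = rot θ (rot θ' F) := by
  have : rot (θ + θ') = (rot θ).comp (rot θ') := by
    apply MvPolynomial.algHom_ext
    rintro ⟨x, i⟩
    rw [AlgHom.comp_apply]
    rcases fin3_cases i with rfl | rfl | rfl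
    · rw [rot_X0, rot_X0, rot_X0]
    · rw [rot_X1, rot_X1, map_sub, map_smul, map_smul, rot_X1, rot_X2, Pi.add_apply,
        Complex.cos_add, Complex.sin_add]
      simp only [smul_eq_C_mul, map_sub, map_add, map_mul]
      ring
    · rw [rot_X2, rot_X2, map_add, map_smul, map_smul, rot_X1, rot_X2, Pi.add_apply,
        Complex.cos_add, Complex.sin_add]
      simp only [smul_eq_C_mul, map_sub, map_add, map_mul]
      ring
  rw [this]; rfl

theorem rot_D0 (θ θ' : V → ℂ) (F : CA V) : rot θ (D0 θ' F) = D0 θ' (rot θ F) := by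
  induction F using MvPolynomial.induction_on with
  | C a =>
    rw [← algebraMap_eq, Derivation.map_algebraMap, AlgHom.commutes, Derivation.map_algebraMap,
      map_zero]
  | add p q hp hq => rw [map_add, map_add, hp, hq, map_add, map_add]
  | mul_X p i hp =>
    rw [Derivation.leibniz, map_add, smul_eq_mul, smul_eq_mul, map_mul, map_mul, hp, map_mul,
      Derivation.leibniz, smul_eq_mul, smul_eq_mul]
    congr 2
    obtain ⟨x, i⟩ := i
    rcases fin3_cases i with rfl | rfl | rfl
    · rw [rot_X0, D0_X0, map_zero]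
    · rw [rot_X1, D0_X1, map_neg, map_smul, rot_X2, map_sub, Derivation.map_smul,
        Derivation.map_smul, D0_X1, D0_X2]
      simp only [smul_eq_C_mul]
      ring
    · rw [rot_X2, D0_X2, map_smul, rot_X1, map_add, Derivation.map_smul,
        Derivation.map_smul, D0_X1, D0_X2]
      simp only [smul_eq_C_mul]
      ring

/-- derivative of the rotation flow, tested against a linear functional -/
theorem rot_hasDeriv0 (θ : V → ℂ) (F : CA V) : ∀ (L : CA V →ₗ[ℂ] ℂ) (z : ℂ),
    HasDerivAt (fun z : ℂ => L (rot (z • θ) F)) (L (rot (z • θ) (D0 θ F))) z := by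
  induction F using MvPolynomial.induction_on with
  | C a =>
    intro L z
    have h1 : ∀ w : ℂ, rot (w • θ) (C a) = C a := fun w => by
      rw [← algebraMap_eq, AlgHom.commutes]
    simp only [h1]
    rw [← algebraMap_eq, Derivation.map_algebraMap, map_zero, map_zero]
    exact hasDerivAt_const _ _
  | add p q hp hq =>
    intro L z
    simp only [map_add]
    exact (hp L z).add (hq L z)
  | mul_X p i hp =>
    intro L z
    obtain ⟨x, i⟩ := i
    have hc : HasDerivAt (fun z : ℂ => Complex.cos ((z • θ) x)) (-Complex.sin ((z • θ) x) * θ x)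
        z := by
      have h1 : HasDerivAt (fun z : ℂ => (z • θ) x) (θ x) z := by
        have := (hasDerivAt_id z).mul_const (θ x)
        simpa using this
      exact (Complex.hasDerivAt_cos _).comp z h1
    have hs : HasDerivAt (fun z : ℂ => Complex.sin ((z • θ) x)) (Complex.cos ((z • θ) x) * θ x)
        z := by
      have h1 : HasDerivAt (fun z : ℂ => (z • θ) x) (θ x) z := by
        have := (hasDerivAt_id z).mul_const (θ x)
        simpa using this
      exact (Complex.hasDerivAt_sin _).comp z h1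
    set L1 : CA V →ₗ[ℂ] ℂ := L.comp (LinearMap.mulRight ℂ (X (x, 1))) with hL1
    set L2 : CA V →ₗ[ℂ] ℂ := L.comp (LinearMap.mulRight ℂ (X (x, 2))) with hL2
    have e1 : ∀ P : CA V, L1 P = L (P * X (x, 1)) := fun P => rfl
    have e2 : ∀ P : CA V, L2 P = L (P * X (x, 2)) := fun P => rfl
    rcases fin3_cases i with rfl | rfl | rfl
    · have h := hp (L.comp (LinearMap.mulRight ℂ (X (x, 0)))) z
      have h1 : (fun z : ℂ => L (rot (z • θ) (p * X (x, 0)))) =
          fun z : ℂ => (L.comp (LinearMap.mulRight ℂ (X (x, 0)))) (rot (z • θ) p) := by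
        funext w
        rw [map_mul, rot_X0]
        rfl
      rw [h1]
      refine h.congr_deriv ?_
      rw [Derivation.leibniz, D0_X0, smul_zero, zero_add, smul_eq_mul, map_mul, rot_X0, mul_comm]
      rfl
    · have h := (hc.mul (hp L1 z)).sub (hs.mul (hp L2 z))
      have h1 : (fun z : ℂ => L (rot (z • θ) (p * X (x, 1)))) =
          (fun z : ℂ => Complex.cos ((z • θ) x) * L1 (rot (z • θ) p)) -
            (fun z : ℂ => Complex.sin ((z • θ) x) * L2 (rot (z • θ) p)) := by
        funext w
        simp only [Pi.sub_apply]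
        rw [map_mul, rot_X1, mul_sub, mul_smul_comm, mul_smul_comm, map_sub, map_smul, map_smul,
          e1, e2]
        rfl
      rw [h1]
      refine h.congr_deriv ?_
      rw [Derivation.leibniz, D0_X1, smul_eq_mul, smul_eq_mul, map_add, map_mul, map_mul,
        map_neg, map_smul, rot_X1, rot_X2, map_add, e1, e2, e1, e2]
      have h2 : rot (z • θ) p * -(θ x • (Complex.sin ((z • θ) x) • X (x, 1) +
          Complex.cos ((z • θ) x) • X (x, 2))) =
          (-(θ x * Complex.sin ((z • θ) x))) • (rot (z • θ) p * X (x, 1)) +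
          (-(θ x * Complex.cos ((z • θ) x))) • (rot (z • θ) p * X (x, 2)) := by
        simp only [smul_eq_C_mul, map_neg, map_mul]
        ring
      have h3 : (Complex.cos ((z • θ) x) • X (x, 1) - Complex.sin ((z • θ) x) • X (x, 2)) *
          rot (z • θ) (D0 θ p) =
          Complex.cos ((z • θ) x) • (rot (z • θ) (D0 θ p) * X (x, 1)) -
          Complex.sin ((z • θ) x) • (rot (z • θ) (D0 θ p) * X (x, 2)) := by
        simp only [smul_eq_C_mul]
        ring
      rw [h2, h3, map_add, map_sub, map_smul, map_smul, map_smul, map_smul]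
      simp only [smul_eq_mul]
      ring
    · have h := (hs.mul (hp L1 z)).add (hc.mul (hp L2 z))
      have h1 : (fun z : ℂ => L (rot (z • θ) (p * X (x, 2)))) =
          (fun z : ℂ => Complex.sin ((z • θ) x) * L1 (rot (z • θ) p)) +
            (fun z : ℂ => Complex.cos ((z • θ) x) * L2 (rot (z • θ) p)) := by
        funext w
        simp only [Pi.add_apply]
        rw [map_mul, rot_X2, mul_add, mul_smul_comm, mul_smul_comm, map_add, map_smul, map_smul,
          e1, e2]
        rfl
      rw [h1]
      refine h.congr_deriv ?_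
      rw [Derivation.leibniz, D0_X2, smul_eq_mul, smul_eq_mul, map_add, map_mul, map_mul,
        map_smul, rot_X1, rot_X2, map_add, e1, e2, e1, e2]
      have h2 : rot (z • θ) p * (θ x • (Complex.cos ((z • θ) x) • X (x, 1) -
          Complex.sin ((z • θ) x) • X (x, 2))) =
          (θ x * Complex.cos ((z • θ) x)) • (rot (z • θ) p * X (x, 1)) -
          (θ x * Complex.sin ((z • θ) x)) • (rot (z • θ) p * X (x, 2)) := by
        simp only [smul_eq_C_mul, map_mul]
        ring
      have h3 : (Complex.sin ((z • θ) x) • X (x, 1) + Complex.cos ((z • θ) x) • X (x, 2)) *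
          rot (z • θ) (D0 θ p) =
          Complex.sin ((z • θ) x) • (rot (z • θ) (D0 θ p) * X (x, 1)) +
          Complex.cos ((z • θ) x) • (rot (z • θ) (D0 θ p) * X (x, 2)) := by
        simp only [smul_eq_C_mul]
        ring
      rw [h2, h3, map_sub, map_add, map_smul, map_smul, map_smul, map_smul]
      simp only [smul_eq_mul]
      ring

theorem rot_hasDeriv (θ' θ : V → ℂ) (F : CA V) (L : CA V →ₗ[ℂ] ℂ) (z : ℂ) :
    HasDerivAt (fun z : ℂ => L (rot (θ' + z • θ) F)) (L (rot (θ' + z • θ) (D0 θ F))) z := by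
  have h := rot_hasDeriv0 θ F (L.comp (rot θ').toLinearMap) z
  simp only [rot_add]
  exact h

/-- charged polynomials -/
theorem rot_charged {F : CA V} (hF : D0 (fun _ => 1) F = Complex.I • F) (c : ℂ) :
    rot (fun _ => c) F = Complex.exp (c * Complex.I) • F := by
  have key : ∀ (L : CA V →ₗ[ℂ] ℂ) (z : ℂ),
      L (rot (fun _ => z) F) = Complex.exp (z * Complex.I) * L F := by
    intro L z
    have hd : ∀ w : ℂ, HasDerivAt (fun w : ℂ => Complex.exp (-(w * Complex.I)) *
        L (rot (w • (fun _ => (1 : ℂ))) F)) 0 w := by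
      intro w
      have h1 := rot_hasDeriv0 (fun _ : V => (1 : ℂ)) F L w
      rw [hF, map_smul, map_smul] at h1
      have h2 : HasDerivAt (fun w : ℂ => -(w * Complex.I)) (-Complex.I) w := by
        have h4 := ((hasDerivAt_id w).mul_const Complex.I).neg
        refine h4.congr_deriv ?_
        rw [one_mul]
      have h3 := h2.cexp
      refine (h3.mul h1).congr_deriv ?_
      rw [smul_eq_mul]
      ring
    have hconst := is_const_of_deriv_eq_zero (fun w => (hd w).differentiableAt)
      (fun w => (hd w).deriv) z 0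
    have e0 : (0 : ℂ) • (fun _ : V => (1 : ℂ)) = 0 := zero_smul _ _
    have e1 : z • (fun _ : V => (1 : ℂ)) = fun _ => z := by
      funext x; simp
    rw [e0, rot_zero, e1, zero_mul, neg_zero, Complex.exp_zero, one_mul] at hconst
    rw [← hconst, ← mul_assoc, ← Complex.exp_add, add_neg_cancel, Complex.exp_zero, one_mul]
  ext m
  have h := key (MvPolynomial.lcoeff ℂ m) c
  rw [coeff_smul]
  exact h

/-! ## Locality -/

/-- `F` depends only on the spins in `A`. -/
def Su (A : Set V) (F : CA V) : Prop := F ∈ supported ℂ {i : V × Fin 3 | i.1 ∈ A}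

theorem Su.add {A : Set V} {F F' : CA V} (h : Su A F) (h' : Su A F') : Su A (F + F') :=
  Subalgebra.add_mem _ h h'

theorem Su.sub {A : Set V} {F F' : CA V} (h : Su A F) (h' : Su A F') : Su A (F - F') :=
  Subalgebra.sub_mem _ h h'

theorem Su.neg {A : Set V} {F : CA V} (h : Su A F) : Su A (-F) := Subalgebra.neg_mem _ h

theorem Su.mul {A : Set V} {F F' : CA V} (h : Su A F) (h' : Su A F') : Su A (F * F') :=
  Subalgebra.mul_mem _ h h'

theorem Su.smul {A : Set V} {F : CA V} (h : Su A F) (c : ℂ) : Su A (c • F) :=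
  Subalgebra.smul_mem _ h c

theorem Su.zero {A : Set V} : Su A (0 : CA V) := Subalgebra.zero_mem _

theorem Su.C {A : Set V} (c : ℂ) : Su A (MvPolynomial.C c : CA V) :=
  Subalgebra.algebraMap_mem _ c

theorem Su.X {A : Set V} {x : V} (hx : x ∈ A) (i : Fin 3) : Su A (MvPolynomial.X (x, i) : CA V) :=
  MvPolynomial.X_mem_supported.2 hx

theorem Su.sum {A : Set V} {α : Type} (I : Finset α) (F : α → CA V) (h : ∀ a ∈ I, Su A (F a)) :
    Su A (∑ a ∈ I, F a) := Subalgebra.sum_mem _ h

theorem Su.mono {A B : Set V} {F : CA V} (h : Su A F) (hAB : A ⊆ B) : Su B F := by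
  have h1 : {i : V × Fin 3 | i.1 ∈ A} ⊆ {i : V × Fin 3 | i.1 ∈ B} := fun i hi => hAB hi
  exact MvPolynomial.supported_mono (R := ℂ) h1 h

theorem Su.induct {A : Set V} {P : CA V → Prop} (hC : ∀ c, P (MvPolynomial.C c))
    (hX : ∀ x ∈ A, ∀ i, P (MvPolynomial.X (x, i)))
    (hadd : ∀ F F', Su A F → Su A F' → P F → P F' → P (F + F'))
    (hmul : ∀ F F', Su A F → Su A F' → P F → P F' → P (F * F')) {F : CA V} (h : Su A F) : P F := by
  unfold Su supported at h
  induction h using Algebra.adjoin_induction with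
  | mem x hx =>
    obtain ⟨⟨y, i⟩, hy, rfl⟩ := hx
    exact hX y hy i
  | algebraMap r => exact hC r
  | add x y hx hy h1 h2 => exact hadd x y hx hy h1 h2
  | mul x y hx hy h1 h2 => exact hmul x y hx hy h1 h2

theorem Su.rot {A : Set V} {F : CA V} (h : Su A F) (θ : V → ℂ) : Su A (rot θ F) := by
  refine Su.induct (P := fun F => Su A (MG.rot θ F)) ?_ ?_ ?_ ?_ h
  · intro c
    rw [← algebraMap_eq, AlgHom.commutes]
    exact Su.C c
  · intro x hx i
    rcases fin3_cases i with rfl | rfl | rfl
    · rw [rot_X0]; exact Su.X hx _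
    · rw [rot_X1]; exact ((Su.X hx _).smul _).sub ((Su.X hx _).smul _)
    · rw [rot_X2]; exact ((Su.X hx _).smul _).add ((Su.X hx _).smul _)
  · intro F F' _ _ h1 h2
    rw [map_add]; exact h1.add h2
  · intro F F' _ _ h1 h2
    rw [map_mul]; exact h1.mul h2

theorem rot_congr {A : Set V} {F : CA V} (h : Su A F) {θ θ' : V → ℂ}
    (hθ : ∀ x ∈ A, θ x = θ' x) : rot θ F = rot θ' F := by
  refine Su.induct (P := fun F => rot θ F = rot θ' F) ?_ ?_ ?_ ?_ h
  · intro c
    rw [← algebraMap_eq, AlgHom.commutes, AlgHom.commutes]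
  · intro x hx i
    rcases fin3_cases i with rfl | rfl | rfl
    · rw [rot_X0, rot_X0]
    · rw [rot_X1, rot_X1, hθ x hx]
    · rw [rot_X2, rot_X2, hθ x hx]
  · intro F F' _ _ h1 h2
    rw [map_add, map_add, h1, h2]
  · intro F F' _ _ h1 h2
    rw [map_mul, map_mul, h1, h2]

theorem Su.cj {A : Set V} {F : CA V} (h : Su A F) : Su A (cj F) := by
  refine Su.induct (P := fun F => Su A (MG.cj F)) ?_ ?_ ?_ ?_ h
  · intro c
    rw [cj_C]; exact Su.C _
  · intro x hx i
    rw [cj_X]; exact Su.X hx _
  · intro F F' _ _ h1 h2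
    rw [map_add]; exact h1.add h2
  · intro F F' _ _ h1 h2
    rw [map_mul]; exact h1.mul h2

end

end Pool.Agent.H12.MG
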