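import Pool.Agent.H12.MG.Piece

/-! # The recursion for the norms -/

set_option autoImplicit false
set_option linter.unusedSectionVars false

noncomputable section

namespace Pool.Agent.H12.MG

open MvPolynomial Pool.Agent.H5R2.ON Pool.Agent.H717R2.ON3 Pool.Agent.H983R2.ONJ

variable {L : ℕ} [NeZero L] {ι : Type} [Fintype ι] {G : Gr (Tor L) ι} {β ρ K : ℝ}
  {Λ : Finset (Tor L)} {l w : ℕ → ℝ}

open Classical in
/-- the active centres -/
def act (r : ℝ) (b : Tor L → ℂ) : Finset (Tor L) := Finset.univ.filter fun a => gl r a b ≠ 0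

theorem mem_act {r : ℝ} {b : Tor L → ℂ} {a : Tor L} : a ∈ act r b ↔ gl r a b ≠ 0 := by
  unfold act
  simp

theorem act_near {r R : ℝ} (hr : 1 ≤ r) {b : Tor L → ℂ} {z : Tor L} (hb : Sp0 (bl z R) b)
    {a : Tor L} (ha : a ∈ act r b) : tnorm (a - z) ≤ R + 3 * r := by
  obtain ⟨y, hy, hay⟩ := gl_ne hr hb (mem_act.1 ha)
  have hy' : tnorm (y - z) ≤ R := hy
  have := tri3 a y z
  linarith

theorem act_card {r R : ℝ} (hr : 1 ≤ r) (hR : 0 ≤ R) {b : Tor L → ℂ} {z : Tor L}
    (hb : Sp0 (bl z R) b) : ((act r b).card : ℝ) ≤ 4 * kB * (R + 3 * r) ^ 2 := by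
  refine le_trans ?_ (card_le z (show 1 ≤ R + 3 * r by linarith))
  have : act r b ⊆ ball z (R + 3 * r) := fun a ha => mem_ball'.2 (act_near hr hb ha)
  exact_mod_cast Finset.card_le_card this

theorem TT_act (k : ℕ) (b : Tor L → ℂ) : TT G β l w k b =
    ∑ a ∈ act (l k) b, Ds G β (thc (l k) a) (VV G β l w k (gl (l k) a b)) := by
  unfold TT
  symm
  apply Finset.sum_subset (Finset.subset_univ _)
  intro a _ ha
  have : gl (l k) a b = 0 := by
    by_contra h
    exact ha (mem_act.2 h)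
  rw [this, VV_zero_fun, Ds_zero]

theorem piece_Su (hG : Nice G β ρ K) (hS : Scl ρ l) (k : ℕ) (a : Tor L) (b : Tor L → ℂ) :
    Su (bl a (4 * l k)) (VV G β l w k (gl (l k) a b)) := by
  have hk := hS.one k
  refine (VV_Su hG hS.nn hS.one k _ _ (gl_supp hk a b)).mono ?_
  refine Set.Subset.trans thick_bl ?_
  intro x hx
  have h1 : tnorm (x - a) ≤ 3 * l k + rr l ρ k := hx
  have := hS.rr_le k
  show tnorm (x - a) ≤ 4 * l k
  linarith

/-- constant of the step -/
def kT : ℝ := 36864 * kB ^ 2 / kC ^ 2 * (2592 * kE + 192)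

theorem kT_pos : 0 < kT := by
  have := kB_pos
  have := kC_pos
  have := kE_pos
  unfold kT
  positivity

theorem TT_le (W : WFun G β Λ) (hG : Nice G β ρ K) (hK : 0 ≤ K) (hS : Scl ρ l) {k : ℕ} {s D : ℝ}
    (hs : 0 ≤ s) (hD : 0 ≤ D) (hSS : SS W l w k s) (hNN : NN W l w k D) (h2 : 2 * l k < L)
    {b : Tor L → ℂ} {z : Tor L} {r lam : ℝ} (hlam : 0 ≤ lam) (hb : Cls lam z r b)
    (hr : 3 * l k ≤ r) (hΛ : bl z (r + 22 * l k) ⊆ Λ) :
    nrm W (TT G β l w k b) ^ 2 ≤ kT * ((1 + K) * s + D * √s) * (lam * r) ^ 2 := by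
  have hk := hS.one k
  have hk0 : 0 < l k := by linarith
  have hkB := kB_pos
  have hkC := kC_pos
  have hkE := kE_pos
  have hss : 0 ≤ √s := Real.sqrt_nonneg s
  have haΛ : ∀ a ∈ act (l k) b, bl a (19 * l k) ⊆ Λ := by
    intro a ha x hx
    apply hΛ
    have h1 := act_near hk hb.supp ha
    have h3 : tnorm (x - a) ≤ 19 * l k := hx
    show tnorm (x - z) ≤ r + 22 * l k
    have := tri3 x a z
    linarith
  have h1 := piece_sum W hG hk hS.nn (by have := hS.rho k; have := hS.nn; linarith) (act (l k) b)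
    (fun a ha => by
      refine Set.Subset.trans ?_ (haΛ a ha)
      intro x hx
      have : tnorm (x - a) ≤ l k := hx
      show tnorm (x - a) ≤ 19 * l k
      linarith) (fun _ => 1) (fun a _ => by simp) (fun a => VV G β l w k (gl (l k) a b))
    (fun a _ => piece_Su hG hS k a b)
    (fun a ha => piece5 W hG hK hS hs hD hSS hNN h2 hlam hb.lip (haΛ a ha))
  simp only [one_smul] at h1
  rw [← TT_act] at h1
  refine h1.trans ?_
  have h3 := act_card (R := r) hk (by linarith) hb.supp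
  have h4 : 4 * kB * (r + 3 * l k) ^ 2 ≤ 4 * kB * (2 * r) ^ 2 := by
    have h5 : (r + 3 * l k) ^ 2 ≤ (2 * r) ^ 2 := pow_le_pow_left₀ (by linarith) (by linarith) 2
    exact mul_le_mul_of_nonneg_left h5 (by positivity)
  set Q := (2592 * kE * K * s + 192 * D * √s) / kC ^ 2 * (lam / l k) ^ 2 with hQ
  have hQ0 : 0 ≤ Q := by positivity
  have h5 : 2304 * kB * l k ^ 2 * ((act (l k) b).card * Q) ≤
      2304 * kB * l k ^ 2 * ((4 * kB * (2 * r) ^ 2) * Q) := by
    have := h3.trans h4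
    gcongr
  refine h5.trans ?_
  have h6 : 2304 * kB * l k ^ 2 * ((4 * kB * (2 * r) ^ 2) * Q) =
      36864 * kB ^ 2 / kC ^ 2 * (2592 * kE * K * s + 192 * D * √s) * (lam * r) ^ 2 := by
    rw [hQ]
    field_simp
    ring
  rw [h6]
  unfold kT
  have h7 : 2592 * kE * K * s + 192 * D * √s ≤
      (2592 * kE + 192) * ((1 + K) * s + D * √s) := by
    have a1 : 0 ≤ kE * s := by positivity
    have a2 : 0 ≤ kE * (D * √s) := by positivity
    have a3 : 0 ≤ (1 + K) * s := by positivity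
    nlinarith
  calc 36864 * kB ^ 2 / kC ^ 2 * (2592 * kE * K * s + 192 * D * √s) * (lam * r) ^ 2
      ≤ 36864 * kB ^ 2 / kC ^ 2 * ((2592 * kE + 192) * ((1 + K) * s + D * √s)) * (lam * r) ^ 2 := by
        gcongr
    _ = _ := by ring

/-- the step -/
theorem SS_succ (W : WFun G β Λ) (hW : Inv W) (hG : Nice G β ρ K) (hK : 0 ≤ K) (hS : Scl ρ l)
    {k : ℕ} {s D : ℝ} (hs : 0 ≤ s) (hD : 0 ≤ D) (hSS : SS W l w k s) (hNN : NN W l w k D)
    (h2 : 2 * l k < L) (hw0 : 0 ≤ w k) (hw1 : w k ≤ 1 / 2)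
    (hw : w k * (kT * ((1 + K) * s + D * √s)) ≤ s) : SS W l w (k + 1) (s * (1 - w k)) := by
  intro b z r lam hlam hb hr hΛ
  have hk := hS.one k
  have hst := hS.step k
  have hrk : 3 * rr l ρ k ≤ l k := by
    have := hS.rr_le k
    have := hS.rr_ge k
    have := hS.nn
    linarith
  have h1 := gain_sq (w := w) hG hS.nn hS.one W hW k hrk hb.supp (by
      refine Set.Subset.trans thick_bl (Set.Subset.trans ?_ hΛ)
      intro x hx
      have h3 : tnorm (x - z) ≤ r + rr l ρ (k + 1) := hx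
      show tnorm (x - z) ≤ r + 16 * l (k + 1)
      have := hS.rr_le (k + 1)
      have := hS.rr_ge (k + 1)
      have := hS.nn
      linarith)
  rw [h1]
  have h3 := hSS b z r lam hlam hb (by linarith) (by
    refine Set.Subset.trans ?_ hΛ
    intro x hx
    have h3 : tnorm (x - z) ≤ r + 16 * l k := hx
    show tnorm (x - z) ≤ r + 16 * l (k + 1)
    linarith)
  have h4 := TT_le W hG hK hS hs hD hSS hNN h2 hlam hb (by linarith) (by
    refine Set.Subset.trans ?_ hΛ
    intro x hx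
    have h3 : tnorm (x - z) ≤ r + 22 * l k := hx
    show tnorm (x - z) ≤ r + 16 * l (k + 1)
    linarith)
  have h5 : w k ^ 2 * nrm W (TT G β l w k b) ^ 2 ≤ w k * s * (lam * r) ^ 2 := by
    calc w k ^ 2 * nrm W (TT G β l w k b) ^ 2
        ≤ w k ^ 2 * (kT * ((1 + K) * s + D * √s) * (lam * r) ^ 2) := by gcongr
      _ = w k * (w k * (kT * ((1 + K) * s + D * √s))) * (lam * r) ^ 2 := by ring
      _ ≤ w k * s * (lam * r) ^ 2 := by gcongr
  have h6 : (1 - 2 * w k) * nrm W (VV G β l w k b) ^ 2 ≤ (1 - 2 * w k) * (s * (lam * r) ^ 2) :=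
    mul_le_mul_of_nonneg_left h3 (by linarith)
  linarith

/-- the start -/
theorem SS_zero (W : WFun G β Λ) (hG : Nice G β ρ K) (hK : 0 ≤ K) (hS : Scl ρ l) :
    SS W l w 0 (144 * kE * (1 + K)) := by
  intro b z r lam hlam hb hr hΛ
  have hk := hS.one 0
  have hkE := kE_pos
  have h1 := nrm_Sp W hG hS.nn hK (b := b) (z := z) (r := r) (by linarith)
    ((hS.rho' 0).trans hr) hlam hb.lip hb.supp (by
      refine Set.Subset.trans ?_ hΛ
      intro x hx
      have h3 : tnorm (x - z) ≤ r := hx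
      show tnorm (x - z) ≤ r + 16 * l 0
      linarith)
  rw [VV_zero]
  refine (pow_le_pow_left₀ (nrm_nonneg W _) h1 2).trans ?_
  have h2 : (12 * √(kE * K) * (lam * r)) ^ 2 = 144 * (kE * K) * (lam * r) ^ 2 := by
    have h9 : √(kE * K) ^ 2 = kE * K := Real.sq_sqrt (by positivity)
    linear_combination (144 * (lam * r) ^ 2) * h9
  rw [h2]
  have : 0 ≤ kE * (lam * r) ^ 2 := by positivity
  nlinarith

end Pool.Agent.H12.MG
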