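import Pool.Agent.H12.MG.Rot

/-! # Complex expectation, the seminorm of a Gibbs functional -/

set_option autoImplicit false
set_option linter.unusedSectionVars false

noncomputable section

namespace Pool.Agent.H12.MG

open MvPolynomial Pool.Agent.H717R2.ON3

variable {V : Type} [Fintype V] [DecidableEq V] {ι : Type} [Fintype ι] {G : Gr V ι} {β : ℝ}
  {Λ : Finset V}

/-- real and imaginary part of a complex polynomial -/
theorem decomp (F : CA V) : ∃ P Q : Alg V, F = ic P + Complex.I • ic Q := by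
  induction F using MvPolynomial.induction_on with
  | C a =>
    refine ⟨C a.re, C a.im, ?_⟩
    rw [ic_C, ic_C, smul_eq_C_mul, ← C_mul, ← C_add, mul_comm, Complex.re_add_im]
  | add p q hp hq =>
    obtain ⟨P, Q, rfl⟩ := hp
    obtain ⟨P', Q', rfl⟩ := hq
    refine ⟨P + P', Q + Q', ?_⟩
    rw [map_add, map_add, smul_add]
    abel
  | mul_X p i hp =>
    obtain ⟨P, Q, rfl⟩ := hp
    refine ⟨P * X i, Q * X i, ?_⟩
    rw [map_mul, map_mul, ic_X, add_mul, smul_mul_assoc]

/-- complex expectation -/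
def EC (W : WFun G β Λ) : CA V →ₗ[ℂ] ℂ :=
  (basisMonomials (V × Fin 3) ℂ).constr ℂ (fun m => ((W.E (monomial m 1) : ℝ) : ℂ))

theorem EC_ic (W : WFun G β Λ) (P : Alg V) : EC W (ic P) = ((W.E P : ℝ) : ℂ) := by
  induction P using MvPolynomial.induction_on' with
  | monomial u a =>
    have h1 : ic (monomial u a : Alg V) = (a : ℂ) • monomial u (1 : ℂ) := by
      unfold ic
      rw [map_monomial, smul_monomial, smul_eq_mul, mul_one]
      rfl
    have h2 : (monomial u a : Alg V) = a • monomial u (1 : ℝ) := by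
      rw [smul_monomial, smul_eq_mul, mul_one]
    rw [h1, h2, map_smul, map_smul, smul_eq_mul, smul_eq_mul, Complex.ofReal_mul]
    congr 1
    have h3 : (monomial u (1 : ℂ) : CA V) = basisMonomials (V × Fin 3) ℂ u := by
      rw [coe_basisMonomials]
    rw [h3]
    exact Module.Basis.constr_basis _ _ _ _
  | add p q hp hq => rw [map_add, map_add, hp, hq, map_add, Complex.ofReal_add]

theorem EC_one (W : WFun G β Λ) : EC W 1 = 1 := by
  have h := EC_ic W 1
  rw [map_one, W.one, Complex.ofReal_one] at h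
  exact h

theorem EC_cj (W : WFun G β Λ) (F : CA V) : EC W (cj F) = starRingEnd ℂ (EC W F) := by
  obtain ⟨P, Q, rfl⟩ := decomp F
  rw [map_add, cj_smul, cj_ic, cj_ic, map_add, map_add, map_smul, map_smul, EC_ic, EC_ic,
    map_add, smul_eq_mul, smul_eq_mul, map_mul, Complex.conj_ofReal, Complex.conj_ofReal]

/-- admissible evaluation points -/
def Pt (σ : V × Fin 3 → ℝ) : Prop := ∀ x, σ (x, 0) ^ 2 + σ (x, 1) ^ 2 + σ (x, 2) ^ 2 ≤ 1

theorem EC_re_nonneg (W : WFun G β Λ) (F : CA V) (h : ∀ σ : V × Fin 3 → ℝ, Pt σ →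
    0 ≤ (ev σ F).re) : 0 ≤ (EC W F).re := by
  obtain ⟨P, Q, rfl⟩ := decomp F
  have h1 : 0 ≤ W.E P := by
    refine W.pos P fun σ hσ => ?_
    have h2 := h σ hσ
    rw [map_add, ev_smul, ev_ic, ev_ic] at h2
    simpa using h2
  rw [map_add, map_smul, EC_ic, EC_ic]
  simpa using h1

theorem EC_DD (W : WFun G β Λ) {x : V} (hx : x ∈ Λ) (g : Fin 3) (F : CA V) :
    EC W (DD x g F) = EC W (ic (S1 G β x g) * F) := by
  obtain ⟨P, Q, rfl⟩ := decomp F
  rw [map_add, Derivation.map_smul, ← ic_D, ← ic_D, map_add, map_smul, EC_ic, EC_ic,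
    W.ibp x hx, W.ibp x hx, mul_add, mul_smul_comm, ← map_mul, ← map_mul, map_add, map_smul,
    EC_ic, EC_ic]

/-- rotation invariant functionals -/
def Inv (W : WFun G β Λ) : Prop :=
  ∀ (g : Fin 3) (F : Alg V), W.E (R (fun _ => 1) g F) = 0

theorem EC_inv (W : WFun G β Λ) (hW : Inv W) (g : Fin 3) (F : CA V) :
    EC W (∑ x, DD x g F) = 0 := by
  obtain ⟨P, Q, rfl⟩ := decomp F
  have h : ∀ P : Alg V, ∑ x, DD x g (ic P) = ic (R (fun _ => 1) g P) := by
    intro P
    rw [Pool.Agent.H717R2.ON3.R_apply, map_sum]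
    refine Finset.sum_congr rfl fun x _ => ?_
    rw [one_smul, ic_D]
  simp only [map_add, Derivation.map_smul]
  rw [Finset.sum_add_distrib, ← Finset.smul_sum, h, h, map_add, map_smul, EC_ic, EC_ic, hW, hW]
  simp

/-- the pre-inner product -/
abbrev core (W : WFun G β Λ) : PreInnerProductSpace.Core ℂ (CA V) where
  inner F H := EC W (cj F * H)
  conj_inner_symm F H := by
    show starRingEnd ℂ (EC W (cj H * F)) = EC W (cj F * H)
    rw [← EC_cj, map_mul, cj_cj, mul_comm]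
  re_inner_nonneg F := by
    show 0 ≤ (EC W (cj F * F)).re
    refine EC_re_nonneg W _ fun σ _ => ?_
    rw [map_mul, ev_cj, ← Complex.normSq_eq_conj_mul_self]
    simp [Complex.normSq_nonneg]
  add_left F H K := by
    show EC W (cj (F + H) * K) = EC W (cj F * K) + EC W (cj H * K)
    rw [map_add, add_mul, map_add]
  smul_left F H r := by
    show EC W (cj (r • F) * H) = starRingEnd ℂ r * EC W (cj F * H)
    rw [cj_smul, smul_mul_assoc, map_smul, smul_eq_mul]

/-- the seminorm -/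
def nrm (W : WFun G β Λ) (F : CA V) : ℝ := Real.sqrt (EC W (cj F * F)).re

theorem nrm_nonneg (W : WFun G β Λ) (F : CA V) : 0 ≤ nrm W F := Real.sqrt_nonneg _

theorem EC_self_nonneg (W : WFun G β Λ) (F : CA V) : 0 ≤ (EC W (cj F * F)).re :=
  (core W).re_inner_nonneg F

theorem EC_self_im (W : WFun G β Λ) (F : CA V) : (EC W (cj F * F)).im = 0 := by
  have h := (core W).conj_inner_symm F F
  have h2 : starRingEnd ℂ (EC W (cj F * F)) = EC W (cj F * F) := h
  exact Complex.conj_eq_iff_im.1 h2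

theorem nrm_sq (W : WFun G β Λ) (F : CA V) : nrm W F ^ 2 = (EC W (cj F * F)).re :=
  Real.sq_sqrt (EC_self_nonneg W F)

theorem EC_self (W : WFun G β Λ) (F : CA V) : EC W (cj F * F) = ((nrm W F ^ 2 : ℝ) : ℂ) := by
  rw [nrm_sq]
  apply Complex.ext
  · simp
  · rw [EC_self_im]; simp

theorem cs (W : WFun G β Λ) (F H : CA V) : ‖EC W (cj F * H)‖ ≤ nrm W F * nrm W H :=
  @InnerProductSpace.Core.norm_inner_le_norm ℂ (CA V) _ _ _ (core W) F H

theorem nrm_add_le (W : WFun G β Λ) (F H : CA V) : nrm W (F + H) ≤ nrm W F + nrm W H := by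
  let _i : SeminormedAddCommGroup (CA V) :=
    @InnerProductSpace.Core.toSeminormedAddCommGroup ℂ (CA V) _ _ _ (core W)
  exact norm_add_le F H

theorem nrm_smul (W : WFun G β Λ) (c : ℂ) (F : CA V) : nrm W (c • F) = ‖c‖ * nrm W F := by
  have h : nrm W (c • F) ^ 2 = (‖c‖ * nrm W F) ^ 2 := by
    rw [nrm_sq, cj_smul, smul_mul_assoc, mul_smul_comm, smul_smul, map_smul, EC_self,
      smul_eq_mul, ← Complex.normSq_eq_conj_mul_self, Complex.normSq_eq_norm_sq,
      ← Complex.ofReal_mul, Complex.ofReal_re]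
    ring
  have h1 := nrm_nonneg W (c • F)
  have h2 : 0 ≤ ‖c‖ * nrm W F := mul_nonneg (norm_nonneg _) (nrm_nonneg W F)
  exact (pow_left_inj₀ h1 h2 two_ne_zero).1 h

theorem nrm_neg (W : WFun G β Λ) (F : CA V) : nrm W (-F) = nrm W F := by
  have h := nrm_smul W (-1) F
  rw [neg_smul, one_smul, norm_neg, norm_one, one_mul] at h
  exact h

theorem nrm_zero (W : WFun G β Λ) : nrm W 0 = 0 := by
  have h := nrm_smul W 0 0
  rw [norm_zero, zero_mul, smul_zero] at h
  exact h

theorem nrm_sub_le (W : WFun G β Λ) (F H : CA V) : nrm W (F - H) ≤ nrm W F + nrm W H := by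
  rw [sub_eq_add_neg, ← nrm_neg W H]
  exact nrm_add_le W F (-H)

theorem nrm_sum_le (W : WFun G β Λ) {α : Type} (I : Finset α) (F : α → CA V) :
    nrm W (∑ a ∈ I, F a) ≤ ∑ a ∈ I, nrm W (F a) := by
  classical
  induction I using Finset.induction_on with
  | empty => simp [nrm_zero]
  | insert a I ha ih =>
    rw [Finset.sum_insert ha, Finset.sum_insert ha]
    exact (nrm_add_le W _ _).trans (by linarith)

/-- multiplication by a bounded polynomial -/
theorem nrm_mul_le (W : WFun G β Λ) (m F : CA V) {M : ℝ} (hM : 0 ≤ M)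
    (h : ∀ σ : V × Fin 3 → ℝ, Pt σ → ‖ev σ m‖ ≤ M) : nrm W (m * F) ≤ M * nrm W F := by
  have h1 : nrm W (m * F) ^ 2 ≤ (M * nrm W F) ^ 2 := by
    have h2 : 0 ≤ (EC W ((((M ^ 2 : ℝ) : ℂ)) • (cj F * F) - cj (m * F) * (m * F))).re := by
      refine EC_re_nonneg W _ fun σ hσ => ?_
      have h3 := h σ hσ
      have h4 : ev σ (cj (m * F) * (m * F)) = ((‖ev σ m‖ ^ 2 * ‖ev σ F‖ ^ 2 : ℝ) : ℂ) := by
        rw [map_mul, ev_cj, ← Complex.normSq_eq_conj_mul_self, map_mul,
          Complex.normSq_mul, Complex.normSq_eq_norm_sq, Complex.normSq_eq_norm_sq]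
      have h5 : ev σ (cj F * F) = ((‖ev σ F‖ ^ 2 : ℝ) : ℂ) := by
        rw [map_mul, ev_cj, ← Complex.normSq_eq_conj_mul_self, Complex.normSq_eq_norm_sq]
      rw [map_sub, ev_smul, h4, h5, ← Complex.ofReal_mul, ← Complex.ofReal_sub,
        Complex.ofReal_re]
      have h6 : ‖ev σ m‖ ^ 2 ≤ M ^ 2 := pow_le_pow_left₀ (norm_nonneg _) h3 2
      have h7 : 0 ≤ ‖ev σ F‖ ^ 2 := by positivity
      nlinarith
    rw [map_sub, map_smul, EC_self, EC_self, smul_eq_mul, ← Complex.ofReal_mul,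
      ← Complex.ofReal_sub, Complex.ofReal_re] at h2
    rw [mul_pow]
    linarith
  exact (pow_le_pow_iff_left₀ (nrm_nonneg W _) (mul_nonneg hM (nrm_nonneg W F)) two_ne_zero).1 h1

theorem EC_mul_le (W : WFun G β Λ) (m F : CA V) {M : ℝ} (hM : 0 ≤ M)
    (h : ∀ σ : V × Fin 3 → ℝ, Pt σ → ‖ev σ m‖ ≤ M) :
    ‖EC W (cj F * (m * F))‖ ≤ M * nrm W F ^ 2 := by
  refine (cs W _ _).trans ?_
  have := nrm_mul_le W m F hM h
  have h2 := nrm_nonneg W F
  nlinarith

theorem nrm_one_le (W : WFun G β Λ) (m : CA V) {M : ℝ} (hM : 0 ≤ M)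
    (h : ∀ σ : V × Fin 3 → ℝ, Pt σ → ‖ev σ m‖ ≤ M) : nrm W m ≤ M := by
  have h1 := nrm_mul_le W m 1 hM h
  have h2 : nrm W 1 = 1 := by
    unfold nrm
    rw [map_one, mul_one, EC_one]
    simp
  rw [mul_one, h2, mul_one] at h1
  exact h1

end Pool.Agent.H12.MG
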