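import Pool.Agent.H12.MG.Main
import Pool.Agent.H36.MG.SymCore
import Pool.Graph.R_seed8.Y13.QM.Fin

/-! # Decay of the influence of the boundary: near-optimal constants -/

set_option autoImplicit false
set_option linter.unusedSectionVars false

noncomputable section

namespace Pool.Agent.H12.MG

open MvPolynomial MeasureTheory Pool.Agent.H5R2.ON Pool.Agent.H717R2.ON3 Pool.Agent.H983R2.ONJ
open Pool.Agent.H983R2.ONJ.Aux993 Pool.Agent.Y13.QM

/-- the rate function -/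
def Phi (A : ℝ) : ℝ := (1 + A) * Real.log (2 + A)

theorem log2_half : 1 / 2 ≤ Real.log 2 := by
  have := Real.log_two_gt_d9
  linarith

theorem Phi_ge {A : ℝ} (hA : 0 ≤ A) : (1 + A) / 2 ≤ Phi A := by
  have h1 : Real.log 2 ≤ Real.log (2 + A) := Real.log_le_log (by norm_num) (by linarith)
  have h2 := log2_half
  unfold Phi
  nlinarith

theorem Phi_pos {A : ℝ} (hA : 0 ≤ A) : 0 < Phi A := by
  have := Phi_ge hA
  linarith

/-- scaling of the rate function -/
theorem Phi_mul {A K : ℝ} (hA : 0 ≤ A) (hK : 0 ≤ K) :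
    Phi (A * K) ≤ ((1 + K) * (1 + 2 * Real.log (1 + K))) * Phi A := by
  have h0 := log2_half
  have hlA : 1 / 2 ≤ Real.log (2 + A) :=
    h0.trans (Real.log_le_log (by norm_num) (by linarith))
  have hlK : 0 ≤ Real.log (1 + K) := Real.log_nonneg (by linarith)
  have h1 : 2 + A * K ≤ (2 + A) * (1 + K) := by nlinarith
  have h2 : Real.log (2 + A * K) ≤ Real.log (2 + A) + Real.log (1 + K) := by
    rw [← Real.log_mul (by linarith) (by linarith)]
    exact Real.log_le_log (by positivity) h1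
  have h3 : Real.log (2 + A * K) ≤ (1 + 2 * Real.log (1 + K)) * Real.log (2 + A) := by
    nlinarith
  have h4 : 1 + A * K ≤ (1 + K) * (1 + A) := by nlinarith
  have h5 : 0 ≤ Real.log (2 + A * K) := Real.log_nonneg (by nlinarith)
  unfold Phi
  calc (1 + A * K) * Real.log (2 + A * K)
      ≤ ((1 + K) * (1 + A)) * ((1 + 2 * Real.log (1 + K)) * Real.log (2 + A)) :=
        mul_le_mul h4 h3 h5 (by positivity)
    _ = _ := by ring

theorem MBJ_stepP (a : ℝ) (ha : 0 < a) (ε : ℝ) (hε : 0 < ε) : ∃ C : ℝ, 1 ≤ C ∧ ∀ A : ℝ, 0 ≤ A →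
    ∀ N : ℕ, 3 ≤ N → ∀ R : ℝ, Real.exp (C * Phi A) ≤ R → ∀ m : ℝ, 0 ≤ m →
      MBJ N A a (R / 10) m → MBJ N A a R (ε * m + (9 / 10) / R ^ 4) := by
  obtain ⟨K, hK, hnice⟩ := nice_lin a ha
  obtain ⟨C, hC, htr⟩ := trunc_lin a ha
  obtain ⟨C₀, hC₀, hmain⟩ := rg_bound ((ε / 2) ^ 2) (by positivity)
  obtain ⟨R₁, hR₁, herr⟩ := Pool.Agent.Y13.QM.err_small C a hC ha
  have hlK : 0 ≤ Real.log (1 + K) := Real.log_nonneg (by linarith)
  have hlog := Real.log_nonneg hR₁
  obtain ⟨C₂, hC₂⟩ : ∃ C₂, C₂ = C₀ * ((1 + K) * (1 + 2 * Real.log (1 + K))) := ⟨_, rfl⟩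
  have hC₂0 : 0 < C₂ := by rw [hC₂]; positivity
  refine ⟨C₂ + 2 * Real.log R₁ + 2, by linarith, ?_⟩
  intro A hA N hN R hR m hm hMB L _ hL c hc p η i
  have hN0 : N ≠ 0 := by omega
  have hΦ := Phi_ge hA
  have hΦ0 := Phi_pos hA
  have hR0 : Real.exp (C₀ * ((1 + A * K) * Real.log (2 + A * K))) ≤ R := by
    refine le_trans (Real.exp_le_exp.2 ?_) hR
    have h1 := Phi_mul hA hK.le
    have h2 : C₀ * ((1 + A * K) * Real.log (2 + A * K)) ≤ C₂ * Phi A := by
      have := mul_le_mul_of_nonneg_left h1 hC₀.le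
      rw [← mul_assoc, ← hC₂] at this
      exact this
    nlinarith [mul_nonneg hlog hΦ0.le]
  have hRR₁ : R₁ ≤ R := by
    refine le_trans ?_ hR
    rw [← Real.exp_log (by linarith : 0 < R₁)]
    refine Real.exp_le_exp.2 ?_
    rw [Real.exp_log (by linarith : 0 < R₁)]
    have h3 : Real.log R₁ ≤ 2 * Real.log R₁ * Phi A := by
      have : 1 ≤ 2 * Phi A := by linarith
      nlinarith
    nlinarith [mul_pos hC₂0 hΦ0]
  have hAR : 1 + A ≤ R := by
    have h3 : 1 + A ≤ Real.exp (2 * Phi A) := by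
      have := Real.add_one_le_exp (2 * Phi A)
      linarith
    refine h3.trans (le_trans (Real.exp_le_exp.2 ?_) hR)
    nlinarith [mul_pos hC₂0 hΦ0, mul_nonneg hlog hΦ0.le]
  have hR1 : 1 ≤ R := hR₁.trans hRR₁
  have hRpos : 0 < R := by linarith
  have hsq : 1 ≤ √R := Real.one_le_sqrt.2 hR1
  obtain ⟨k, n, hn, hkc, hkr, hcomp⟩ := htr A hA L c hc p R (√R) hR1 (Real.sqrt_nonneg R)
  have hNice := hnice A hA L k n (√R) hn (Real.sqrt_nonneg R) hkc hkr
  have hHeq : (fun S : Conf N L => (1 / (n : ℝ)) * enG (gJ k) S) =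
      pS (fun e => (k e : ℝ) / n) := by
    funext S
    exact enG_gJ k n S
  obtain ⟨U, hU1, hU2, hU3⟩ := hmain (A * K) (by positivity) R hR0 L hL (gJ k) (1 / (n : ℝ))
    (√R) hNice hsq le_rfl p
  have h1 : |gH (fun S : Conf N L => (1 / (n : ℝ)) * enG (gJ k) S) (ball p R) η
      (fun S => Pool.Agent.H717R2.ON3.cc i (S p))| ≤ ε * m := by
    have h2 := Pool.Agent.H36.MG.sym_core hN (ε := ε / 2) (by positivity) (gJ k) (1 / (n : ℝ)) R m
      hRpos hm p U hU1 hU2 hU3 (fun η' j => by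
        rw [hHeq]
        exact hMB L (by linarith) _ hkc p η' j) η i
    refine h2.trans (le_of_eq ?_)
    ring
  have hFc : Continuous (fun S : Conf N L => Pool.Agent.H717R2.ON3.cc i (S p)) :=
    (st_cc_cont _).comp (continuous_apply _)
  have h2 := hcomp N hN0 η (fun S => Pool.Agent.H717R2.ON3.cc i (S p)) hFc.measurable
    (fun S => st_cc_abs_le _ _)
  have h3 : gH (pS c) (ball p R) η (fun S => Pool.Agent.H717R2.ON3.cc i (S p)) =
      gH (fun S : Conf N L => (1 / (n : ℝ)) * enG (gJ k) S) (ball p R) η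
        (fun S => Pool.Agent.H717R2.ON3.cc i (S p)) +
      (gH (pS c) (ball p R) η (fun S => Pool.Agent.H717R2.ON3.cc i (S p)) -
        gH (fun S : Conf N L => (1 / (n : ℝ)) * enG (gJ k) S) (ball p R) η
          (fun S => Pool.Agent.H717R2.ON3.cc i (S p))) := by ring
  have h4 : Real.exp (C * (1 + A) * R ^ 2 * Real.exp (-(a / 2) * √R)) - 1 ≤ (9 / 10) / R ^ 4 := by
    refine le_trans ?_ (herr R hRR₁)
    refine sub_le_sub_right (Real.exp_le_exp.2 ?_) 1
    refine mul_le_mul_of_nonneg_right ?_ (Real.exp_pos _).le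
    have h5 : C * (1 + A) * R ^ 2 ≤ C * R * R ^ 2 := by gcongr
    refine h5.trans (le_of_eq (by ring))
  rw [h3]
  exact (abs_add_le _ _).trans (add_le_add h1 (h2.trans h4))

theorem MBJ_decayP (a : ℝ) (ha : 0 < a) : ∃ C : ℝ, 1 ≤ C ∧ ∀ A : ℝ, 0 ≤ A → ∀ N : ℕ, 3 ≤ N →
    ∀ R : ℝ, 1 ≤ R → MBJ N A a R (Real.exp (C * Phi A) / R ^ 4) := by
  obtain ⟨C, hC, hstep⟩ := MBJ_stepP a ha (1 / 100000) (by norm_num)
  refine ⟨4 * (C + 18), by linarith, ?_⟩
  intro A hA N hN
  have hΦ := Phi_ge hA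
  have hΦ0 := Phi_pos hA
  set R₂ : ℝ := Real.exp ((C + 18) * Phi A) with hR₂
  have hR₂0 : Real.exp (C * Phi A) ≤ R₂ := by
    refine Real.exp_le_exp.2 ?_
    nlinarith
  have hR₂2 : 10 ≤ R₂ := by
    have h1 := Real.add_one_le_exp ((C + 18) * Phi A)
    nlinarith
  have hpow : Real.exp (4 * (C + 18) * Phi A) = R₂ ^ 4 := by
    rw [hR₂, ← Real.exp_nat_mul]
    congr 1
    push_cast
    ring
  rw [hpow]
  have hC1 : (1 : ℝ) ≤ R₂ ^ 4 := one_le_pow₀ (by linarith)
  have hP : ∀ (k : ℕ) (R : ℝ), 1 ≤ R → R ≤ R₂ * 10 ^ k → MBJ N A a R (R₂ ^ 4 / R ^ 4) := by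
    have hbase : ∀ R : ℝ, 1 ≤ R → R ≤ R₂ → MBJ N A a R (R₂ ^ 4 / R ^ 4) := by
      intro R hR hR2
      refine st_MBJ_mono (st_MBJ_one N hN A a R) ?_
      rw [le_div_iff₀ (by positivity), one_mul]
      exact pow_le_pow_left₀ (by linarith) hR2 4
    intro k
    induction k with
    | zero =>
      intro R hR hR2
      rw [pow_zero, mul_one] at hR2
      exact hbase R hR hR2
    | succ k ih =>
      intro R hR hR2
      by_cases h : R ≤ R₂
      · exact hbase R hR h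
      · push Not at h
        have hRpos : 0 < R := by linarith
        have h1 : MBJ N A a (R / 10) (R₂ ^ 4 / (R / 10) ^ 4) := by
          refine ih (R / 10) (by linarith) ?_
          rw [pow_succ] at hR2
          linarith
        have h2 := hstep A hA N hN R (by linarith) (R₂ ^ 4 / (R / 10) ^ 4) (by positivity) h1
        refine st_MBJ_mono h2 ?_
        have h4 : 1 / 100000 * (R₂ ^ 4 / (R / 10) ^ 4) = (1 / 10) * (R₂ ^ 4 / R ^ 4) := by
          field_simp
          norm_num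
        have h5 : (9 / 10) / R ^ 4 ≤ (9 / 10) * (R₂ ^ 4 / R ^ 4) := by
          rw [← mul_div_assoc]
          refine div_le_div_of_nonneg_right ?_ (by positivity)
          linarith
        rw [h4]
        linarith
  intro R hR
  obtain ⟨k, hk⟩ : ∃ k : ℕ, R < R₂ * 10 ^ k := by
    obtain ⟨k, hk⟩ := pow_unbounded_of_one_lt (R / R₂) (by norm_num : (1 : ℝ) < 10)
    refine ⟨k, ?_⟩
    rw [div_lt_iff₀ (by linarith)] at hk
    linarith
  exact hP k R hR hk.le

end Pool.Agent.H12.MG
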