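import Pool.Agent.H12.MG.Gain

/-! # Sup bounds for explicit polynomials -/

set_option autoImplicit false
set_option linter.unusedSectionVars false

noncomputable section

namespace Pool.Agent.H12.MG

open MvPolynomial Pool.Agent.H717R2.ON3

variable {V : Type} [Fintype V] [DecidableEq V] {ι : Type} [Fintype ι] (G : Gr V ι) (β : ℝ)

theorem ev_sum {α : Type} (σ : V × Fin 3 → ℝ) (I : Finset α) (F : α → CA V) :
    ev σ (∑ a ∈ I, F a) = ∑ a ∈ I, ev σ (F a) := map_sum _ _ _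

theorem ev_zz (σ : V × Fin 3 → ℝ) (x : V) : ev σ (zz x) = (σ (x, 0) : ℂ) := ev_X _ _

theorem ev_uu (σ : V × Fin 3 → ℝ) (x : V) : ev σ (uu x) = (σ (x, 1) : ℂ) +
    Complex.I * (σ (x, 2) : ℂ) := by
  unfold uu
  rw [map_add, ev_smul, ev_X, ev_X]

theorem ev_zz_le {σ : V × Fin 3 → ℝ} (hσ : Pt σ) (x : V) : ‖ev σ (zz x)‖ ≤ 1 := by
  rw [ev_zz, Complex.norm_real, Real.norm_eq_abs]
  have := hσ x
  apply abs_le_of_sq_le_sq (by nlinarith [sq_nonneg (σ (x, 1)), sq_nonneg (σ (x, 2))]) zero_le_one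

theorem ev_uu_le {σ : V × Fin 3 → ℝ} (hσ : Pt σ) (x : V) : ‖ev σ (uu x)‖ ≤ 1 := by
  rw [ev_uu]
  have h1 : Complex.normSq ((σ (x, 1) : ℂ) + Complex.I * (σ (x, 2) : ℂ)) =
      σ (x, 1) ^ 2 + σ (x, 2) ^ 2 := by
    rw [Complex.normSq_apply]
    simp
    ring
  rw [Complex.normSq_eq_norm_sq] at h1
  have := hσ x
  apply le_of_sq_le_sq _ zero_le_one
  rw [h1]
  nlinarith [sq_nonneg (σ (x, 0))]

theorem ev_qq_le {σ : V × Fin 3 → ℝ} (hσ : Pt σ) (e : ι) : ‖ev σ (qq G e)‖ ≤ 1 := by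
  unfold qq
  rw [map_sub, map_mul, map_mul, ev_X, ev_X, ev_X, ev_X, ← Complex.ofReal_mul,
    ← Complex.ofReal_mul, ← Complex.ofReal_sub, Complex.norm_real, Real.norm_eq_abs]
  have h1 := hσ (G.s e)
  have h2 := hσ (G.t e)
  apply abs_le_of_sq_le_sq _ zero_le_one
  have h3 : σ (G.s e, 1) ^ 2 + σ (G.s e, 2) ^ 2 ≤ 1 := by nlinarith [sq_nonneg (σ (G.s e, 0))]
  have h4 : σ (G.t e, 1) ^ 2 + σ (G.t e, 2) ^ 2 ≤ 1 := by nlinarith [sq_nonneg (σ (G.t e, 0))]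
  have h5 : (σ (G.s e, 1) ^ 2 + σ (G.s e, 2) ^ 2) * (σ (G.t e, 1) ^ 2 + σ (G.t e, 2) ^ 2) ≤ 1 :=
    mul_le_one₀ h3 (by positivity) h4
  nlinarith [sq_nonneg (σ (G.s e, 1) * σ (G.t e, 1) + σ (G.s e, 2) * σ (G.t e, 2))]

theorem ev_pp_le {σ : V × Fin 3 → ℝ} (hσ : Pt σ) (e : ι) : ‖ev σ (pp G e)‖ ≤ 1 := by
  unfold pp
  rw [map_add, map_mul, map_mul, ev_X, ev_X, ev_X, ev_X, ← Complex.ofReal_mul,
    ← Complex.ofReal_mul, ← Complex.ofReal_add, Complex.norm_real, Real.norm_eq_abs]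
  have h1 := hσ (G.s e)
  have h2 := hσ (G.t e)
  apply abs_le_of_sq_le_sq _ zero_le_one
  have h3 : σ (G.s e, 1) ^ 2 + σ (G.s e, 2) ^ 2 ≤ 1 := by nlinarith [sq_nonneg (σ (G.s e, 0))]
  have h4 : σ (G.t e, 1) ^ 2 + σ (G.t e, 2) ^ 2 ≤ 1 := by nlinarith [sq_nonneg (σ (G.t e, 0))]
  have h5 : (σ (G.s e, 1) ^ 2 + σ (G.s e, 2) ^ 2) * (σ (G.t e, 1) ^ 2 + σ (G.t e, 2) ^ 2) ≤ 1 :=
    mul_le_one₀ h3 (by positivity) h4
  nlinarith [sq_nonneg (σ (G.s e, 1) * σ (G.t e, 2) - σ (G.s e, 2) * σ (G.t e, 1))]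

/-- current-type polynomials -/
def MM (c d : ι → ℂ) : CA V := ∑ e, (c e • qq G e + d e • pp G e)

variable {G}

theorem ev_MM_le {σ : V × Fin 3 → ℝ} (hσ : Pt σ) (c d : ι → ℂ) :
    ‖ev σ (MM G c d)‖ ≤ ∑ e, (‖c e‖ + ‖d e‖) := by
  unfold MM
  rw [ev_sum]
  refine (norm_sum_le _ _).trans (Finset.sum_le_sum fun e _ => ?_)
  rw [map_add, ev_smul, ev_smul]
  refine (norm_add_le _ _).trans ?_
  rw [norm_mul, norm_mul]
  have h1 := mul_le_mul_of_nonneg_left (ev_qq_le G hσ e) (norm_nonneg (c e))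
  have h2 := mul_le_mul_of_nonneg_left (ev_pp_le G hσ e) (norm_nonneg (d e))
  linarith

theorem D0_MM (θ : V → ℂ) (c d : ι → ℂ) : D0 θ (MM G c d) =
    MM G (fun e => d e * (θ (G.s e) - θ (G.t e))) (fun e => c e * (θ (G.t e) - θ (G.s e))) := by
  unfold MM
  rw [map_sum]
  refine Finset.sum_congr rfl fun e _ => ?_
  rw [map_add, Derivation.map_smul, Derivation.map_smul, D0_qq, D0_pp, smul_smul, smul_smul,
    add_comm]

theorem ev_zzuu_le {σ : V × Fin 3 → ℝ} (hσ : Pt σ) (x y : V) : ‖ev σ (zz x * uu y)‖ ≤ 1 := by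
  rw [map_mul, norm_mul]
  exact mul_le_one₀ (ev_zz_le hσ x) (norm_nonneg _) (ev_uu_le hσ y)

theorem ev_Dp_MM_le {σ : V × Fin 3 → ℝ} (hσ : Pt σ) (b : V → ℂ) (c d : ι → ℂ) :
    ‖ev σ (Dp b (MM G c d))‖ ≤
      ∑ e, (‖c e‖ + ‖d e‖) * (‖b (G.s e)‖ + ‖b (G.t e)‖) := by
  unfold MM
  rw [map_sum, ev_sum]
  refine (norm_sum_le _ _).trans (Finset.sum_le_sum fun e _ => ?_)
  rw [map_add, Derivation.map_smul, Derivation.map_smul, Dp_qq, Dp_pp, map_add, ev_smul, ev_smul,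
    map_sub, map_add, ev_smul, ev_smul, ev_smul, ev_smul]
  have h1 := ev_zzuu_le hσ (G.s e) (G.t e)
  have h2 := ev_zzuu_le hσ (G.t e) (G.s e)
  have a1 : ‖b (G.s e) * ev σ (zz (G.s e) * uu (G.t e)) -
      b (G.t e) * ev σ (zz (G.t e) * uu (G.s e))‖ ≤ ‖b (G.s e)‖ + ‖b (G.t e)‖ := by
    refine (norm_sub_le _ _).trans ?_
    rw [norm_mul, norm_mul]
    have := mul_le_mul_of_nonneg_left h1 (norm_nonneg (b (G.s e)))
    have := mul_le_mul_of_nonneg_left h2 (norm_nonneg (b (G.t e)))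
    linarith
  have a2 : ‖b (G.s e) * Complex.I * ev σ (zz (G.s e) * uu (G.t e)) +
      b (G.t e) * Complex.I * ev σ (zz (G.t e) * uu (G.s e))‖ ≤ ‖b (G.s e)‖ + ‖b (G.t e)‖ := by
    refine (norm_add_le _ _).trans ?_
    rw [norm_mul, norm_mul, norm_mul, norm_mul, Complex.norm_I, mul_one, mul_one]
    have := mul_le_mul_of_nonneg_left h1 (norm_nonneg (b (G.s e)))
    have := mul_le_mul_of_nonneg_left h2 (norm_nonneg (b (G.t e)))
    linarith
  refine (norm_add_le _ _).trans ?_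
  rw [norm_mul, norm_mul]
  have := mul_le_mul_of_nonneg_left a1 (norm_nonneg (c e))
  have := mul_le_mul_of_nonneg_left a2 (norm_nonneg (d e))
  linarith

/-- rotation of the currents -/
theorem rot_qq (θ : V → ℂ) (e : ι) : rot θ (qq G e) =
    Complex.cos (θ (G.t e) - θ (G.s e)) • qq G e +
      Complex.sin (θ (G.t e) - θ (G.s e)) • pp G e := by
  unfold qq pp
  rw [map_sub, map_mul, map_mul, rot_X1, rot_X2, rot_X1, rot_X2, Complex.cos_sub, Complex.sin_sub]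
  simp only [smul_eq_C_mul, map_sub, map_add, map_mul]
  ring

variable (G)

/-- the multiplier -/
def mm (θ τ : V → ℂ) : CA V :=
  MM G (fun e => (β : ℂ) * (τ (G.t e) - τ (G.s e)) * (Complex.cos (θ (G.t e) - θ (G.s e)) - 1))
    (fun e => (β : ℂ) * (τ (G.t e) - τ (G.s e)) * Complex.sin (θ (G.t e) - θ (G.s e)))

theorem rot_S0 (θ τ : V → ℂ) : rot θ (S0 G β τ) = S0 G β τ + mm G β θ τ := by
  rw [S0_eq, map_sum]
  unfold mm MM
  rw [← Finset.sum_add_distrib]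
  refine Finset.sum_congr rfl fun e _ => ?_
  rw [map_smul, rot_qq]
  simp only [smul_eq_C_mul, map_sub, map_mul, map_one]
  ring

theorem norm_cos_sub_one_le {z : ℂ} (hz : ‖z‖ ≤ 1) : ‖Complex.cos z - 1‖ ≤ 2 * ‖z‖ := by
  have h1 := Complex.norm_exp_sub_one_le (x := z * Complex.I) (by
    rw [norm_mul, Complex.norm_I, mul_one]; exact hz)
  have h2 := Complex.norm_exp_sub_one_le (x := -z * Complex.I) (by
    rw [norm_mul, Complex.norm_I, mul_one, norm_neg]; exact hz)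
  rw [norm_mul, Complex.norm_I, mul_one] at h1 h2
  rw [norm_neg] at h2
  have e : Complex.cos z - 1 = ((Complex.exp (z * Complex.I) - 1) +
      (Complex.exp (-z * Complex.I) - 1)) / 2 := by
    rw [Complex.cos]
    ring
  rw [e, norm_div]
  have := norm_add_le (Complex.exp (z * Complex.I) - 1) (Complex.exp (-z * Complex.I) - 1)
  rw [Complex.norm_ofNat]
  linarith

theorem norm_sin_le' {z : ℂ} (hz : ‖z‖ ≤ 1) : ‖Complex.sin z‖ ≤ 2 * ‖z‖ := by
  have h1 := Complex.norm_exp_sub_one_le (x := z * Complex.I) (by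
    rw [norm_mul, Complex.norm_I, mul_one]; exact hz)
  have h2 := Complex.norm_exp_sub_one_le (x := -z * Complex.I) (by
    rw [norm_mul, Complex.norm_I, mul_one, norm_neg]; exact hz)
  rw [norm_mul, Complex.norm_I, mul_one] at h1 h2
  rw [norm_neg] at h2
  have e : Complex.sin z = ((Complex.exp (-z * Complex.I) - 1) -
      (Complex.exp (z * Complex.I) - 1)) * Complex.I / 2 := by
    rw [Complex.sin]
    ring
  rw [e, norm_div, norm_mul, Complex.norm_I, mul_one]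
  have := norm_sub_le (Complex.exp (-z * Complex.I) - 1) (Complex.exp (z * Complex.I) - 1)
  rw [Complex.norm_ofNat]
  linarith

end Pool.Agent.H12.MG
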